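import Pool.Agent.Lib.MP_c6118e_pr.Basic

/-! BINO: bound for binomial coefficients -/

namespace Pool.Agent.Lib.MP_c6118e_pr

open Finset Real

theorem centralBinom_sq_le (m : ℕ) : (2 * m + 1) * (Nat.centralBinom m) ^ 2 ≤ 16 ^ m := by
  induction m with
  | zero => simp
  | succ m ih =>
    have h := Nat.succ_mul_centralBinom_succ m
    have h2 : (m + 1) ^ 2 * ((2 * (m + 1) + 1) * (Nat.centralBinom (m + 1)) ^ 2)
        ≤ (m + 1) ^ 2 * 16 ^ (m + 1) := by
      calc (m + 1) ^ 2 * ((2 * (m + 1) + 1) * (Nat.centralBinom (m + 1)) ^ 2)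
          = (2 * m + 3) * ((m + 1) * Nat.centralBinom (m + 1)) ^ 2 := by ring
        _ = (2 * m + 3) * (2 * (2 * m + 1) * Nat.centralBinom m) ^ 2 := by rw [h]
        _ = 4 * (2 * m + 3) * (2 * m + 1) * ((2 * m + 1) * (Nat.centralBinom m) ^ 2) := by ring
        _ ≤ 4 * (2 * m + 3) * (2 * m + 1) * 16 ^ m := Nat.mul_le_mul_left _ ih
        _ ≤ (16 * (m + 1) ^ 2) * 16 ^ m := by
            apply Nat.mul_le_mul_right
            nlinarith
        _ = (m + 1) ^ 2 * 16 ^ (m + 1) := by ring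
    exact Nat.le_of_mul_le_mul_left h2 (by positivity)

theorem mul_choose_sq_le (n k : ℕ) : n * (n.choose k) ^ 2 ≤ 4 ^ n := by
  have h1 : n * (n.choose k) ^ 2 ≤ n * (n.choose (n / 2)) ^ 2 :=
    Nat.mul_le_mul_left _ (Nat.pow_le_pow_left (Nat.choose_le_middle k n) 2)
  refine h1.trans ?_
  rcases Nat.even_or_odd' n with ⟨m, rfl | rfl⟩
  · have e : 2 * m / 2 = m := by omega
    rw [e, ← Nat.centralBinom_eq_two_mul_choose]
    have h := centralBinom_sq_le m
    calc 2 * m * Nat.centralBinom m ^ 2 ≤ (2 * m + 1) * Nat.centralBinom m ^ 2 :=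
          Nat.mul_le_mul_right _ (by omega)
      _ ≤ 16 ^ m := h
      _ = 4 ^ (2 * m) := by rw [pow_mul]; norm_num
  · have e : (2 * m + 1) / 2 = m := by omega
    rw [e]
    have h := centralBinom_sq_le (m + 1)
    have h3 : Nat.centralBinom (m + 1) = 2 * (2 * m + 1).choose m := by
      rw [Nat.centralBinom_eq_two_mul_choose]
      have : 2 * (m + 1) = (2 * m + 1) + 1 := by ring
      rw [this, Nat.choose_succ_succ']
      have : (2 * m + 1).choose (m + 1) = (2 * m + 1).choose m := by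
        rw [← Nat.choose_symm_of_eq_add]; ring
      rw [this]; ring
    rw [h3] at h
    have h4 : 4 * ((2 * m + 1) * ((2 * m + 1).choose m) ^ 2) ≤ 4 * 4 ^ (2 * m + 1) := by
      calc 4 * ((2 * m + 1) * ((2 * m + 1).choose m) ^ 2)
          ≤ 4 * ((2 * m + 3) * ((2 * m + 1).choose m) ^ 2) := by
            apply Nat.mul_le_mul_left
            apply Nat.mul_le_mul_right
            omega
        _ = (2 * (m + 1) + 1) * (2 * (2 * m + 1).choose m) ^ 2 := by ring
        _ ≤ 16 ^ (m + 1) := h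
        _ = 4 * 4 ^ (2 * m + 1) := by
            rw [show (16 : ℕ) = 4 ^ 2 by norm_num, ← pow_mul, ← pow_succ']
            congr 1
    exact Nat.le_of_mul_le_mul_left h4 (by norm_num)

/-- **BINO** -/
theorem choose_le {n : ℕ} (hn : 1 ≤ n) (k : ℕ) : (n.choose k : ℝ) ≤ 2 ^ n / √n := by
  have h := mul_choose_sq_le n k
  have hn' : (0 : ℝ) < n := by exact_mod_cast hn
  rw [le_div_iff₀ (Real.sqrt_pos.2 hn')]
  have h1 : ((n.choose k : ℝ) * √n) ^ 2 ≤ ((2 : ℝ) ^ n) ^ 2 := by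
    rw [mul_pow, Real.sq_sqrt hn'.le, ← pow_mul, mul_comm n 2, pow_mul]
    have : ((n * (n.choose k) ^ 2 : ℕ) : ℝ) ≤ ((4 ^ n : ℕ) : ℝ) := by exact_mod_cast h
    push_cast at this
    norm_num
    linarith
  exact le_of_sq_le_sq h1 (by positivity) 

end Pool.Agent.Lib.MP_c6118e_pr
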