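import Pool.Agent.Lib.MP_c6118e_pr.Basic
import Pool.Agent.Lib.MP_c6118e_pr.BINO

/-!
# BALL: a large balanced independent set
-/

namespace Pool.Agent.Lib.MP_c6118e_pr

open Finset Real

/-- the Hamming weight -/
def ballW {d : ℕ} (v : V d) : ℕ := (univ.filter fun i => v i = 1).card

theorem ballW_par {d : ℕ} (v : V d) : par v = (ballW v : ZMod 2) := by
  unfold par ballW
  rw [card_filter]
  push_cast
  refine sum_congr rfl fun i _ => ?_
  rcases zmod2_cases (v i) with h | h
  · rw [h]; simp
  · rw [h]; simp

theorem ballW_par_one {d : ℕ} (v : V d) : par v = 1 ↔ Odd (ballW v) := by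
  rw [ballW_par, ZMod.natCast_eq_one_iff_odd]

theorem ballW_par_zero {d : ℕ} (v : V d) : par v = 0 ↔ Even (ballW v) := by
  rw [ballW_par, ZMod.natCast_eq_zero_iff_even]

theorem ballW_nb_le {d : ℕ} (i : Fin d) (v : V d) : ballW (nb i v) ≤ ballW v + 1 := by
  unfold ballW
  have h : (univ.filter fun j => nb i v j = 1) ⊆ insert i (univ.filter fun j => v j = 1) := by
    intro j hj
    rw [mem_filter] at hj
    rw [mem_insert, mem_filter]
    by_cases hij : j = i
    · exact Or.inl hij
    · right
      refine ⟨mem_univ _, ?_⟩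
      have := hj.2
      unfold nb at this
      simpa [hij] using this
  exact (card_le_card h).trans (card_insert_le _ _)

theorem ballW_le_nb {d : ℕ} (i : Fin d) (v : V d) : ballW v ≤ ballW (nb i v) + 1 := by
  have := ballW_nb_le i (nb i v)
  rwa [nb_nb] at this

theorem ballW_le {d : ℕ} (v : V d) : ballW v ≤ d := by
  unfold ballW
  exact (card_filter_le _ _).trans (by simp)

theorem ball_fibre (d j : ℕ) : (univ.filter fun v : V d => ballW v = j).card = d.choose j := by
  have h : (univ.filter fun v : V d => ballW v = j).card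
      = (powersetCard j (univ : Finset (Fin d))).card := by
    refine card_bij' (fun v _ => univ.filter fun i => v i = 1)
      (fun S _ => fun i => if i ∈ S then (1 : ZMod 2) else 0) ?_ ?_ ?_ ?_
    · intro v hv
      rw [mem_filter] at hv
      rw [mem_powersetCard]
      exact ⟨subset_univ _, hv.2⟩
    · intro S hS
      rw [mem_powersetCard] at hS
      rw [mem_filter]
      refine ⟨mem_univ _, ?_⟩
      unfold ballW
      rw [← hS.2]
      congr 1
      ext i
      simp
    · intro v _
      funext i
      rcases zmod2_cases (v i) with h | h <;> simp [h]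
    · intro S _
      ext i
      simp
  rw [h, card_powersetCard, card_univ, Fintype.card_fin]

theorem ball_count (d : ℕ) (P : ℕ → Prop) [DecidablePred P] :
    (univ.filter fun v : V d => P (ballW v)).card
      = ∑ j ∈ range (d + 1), if P j then d.choose j else 0 := by
  rw [card_eq_sum_card_fiberwise (f := ballW) (t := range (d + 1))]
  · refine sum_congr rfl fun j _ => ?_
    by_cases h : P j
    · rw [if_pos h, ← ball_fibre d j, filter_filter]
      congr 1
      ext v
      simp only [mem_filter, mem_univ, true_and]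
      constructor
      · exact fun h' => h'.2
      · exact fun h' => ⟨h' ▸ h, h'⟩
    · rw [if_neg h, filter_filter, card_eq_zero, filter_eq_empty_iff]
      intro v _ h'
      exact h (h'.2 ▸ h'.1)
  · intro v _
    simp only [coe_range, Set.mem_Iio]
    have := ballW_le v
    omega

theorem ball_even (n m : ℕ) : ∑ j ∈ range m, (if Even j then (n + 1).choose j else 0)
    = if Odd m then ∑ i ∈ range m, n.choose i else ∑ i ∈ range (m - 1), n.choose i := by
  induction m with
  | zero => simp
  | succ m ih =>
    rw [sum_range_succ, ih]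
    rcases Nat.even_or_odd m with h | h
    · have h1 : ¬ Odd m := Nat.not_odd_iff_even.2 h
      have h2 : Odd (m + 1) := h.add_one
      rw [if_neg h1, if_pos h, if_pos h2]
      rcases Nat.eq_zero_or_pos m with rfl | hm
      · simp
      · obtain ⟨k, rfl⟩ := Nat.exists_eq_add_of_le' hm
        rw [Nat.add_sub_cancel, sum_range_succ, sum_range_succ, Nat.choose_succ_succ, add_assoc]
    · have h1 : ¬ Even m := Nat.not_even_iff_odd.2 h
      have h2 : ¬ Odd (m + 1) := Nat.not_odd_iff_even.2 h.add_one
      rw [if_pos h, if_neg h1, if_neg h2, Nat.add_sub_cancel, add_zero]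

theorem ball_odd (n m : ℕ) : ∑ j ∈ range m, (if Odd j then (n + 1).choose j else 0)
    = if Even m then ∑ i ∈ range m, n.choose i else ∑ i ∈ range (m - 1), n.choose i := by
  induction m with
  | zero => simp
  | succ m ih =>
    rw [sum_range_succ, ih]
    rcases Nat.even_or_odd m with h | h
    · have h1 : ¬ Odd m := Nat.not_odd_iff_even.2 h
      have h2 : ¬ Even (m + 1) := Nat.not_even_iff_odd.2 h.add_one
      rw [if_pos h, if_neg h1, if_neg h2, Nat.add_sub_cancel, add_zero]
    · have h1 : ¬ Even m := Nat.not_even_iff_odd.2 h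
      have h2 : Even (m + 1) := h.add_one
      rw [if_neg h1, if_pos h, if_pos h2]
      rcases Nat.eq_zero_or_pos m with rfl | hm
      · simp at h
      · obtain ⟨k, rfl⟩ := Nat.exists_eq_add_of_le' hm
        rw [Nat.add_sub_cancel, sum_range_succ, sum_range_succ, Nat.choose_succ_succ, add_assoc]

theorem ball_even_le (n m : ℕ) : ∑ j ∈ range m, (if Even j then (n + 1).choose j else 0)
    ≤ ∑ i ∈ range m, n.choose i := by
  rw [ball_even]
  split_ifs
  · exact le_rfl
  · exact sum_le_sum_of_subset (range_subset_range.2 (by omega))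

theorem ball_odd_ge (n m : ℕ) : ∑ i ∈ range m, n.choose i
    ≤ ∑ j ∈ range (m + 1), (if Odd j then (n + 1).choose j else 0) := by
  rw [ball_odd]
  split_ifs
  · exact sum_le_sum_of_subset (range_subset_range.2 (by omega))
  · rw [Nat.add_sub_cancel]

/-- the lower half of the binomial coefficients -/
theorem ball_half (n : ℕ) : 2 * ∑ i ∈ range (n / 2), n.choose i
      + ∑ i ∈ Ico (n / 2) (n + 1 - n / 2), n.choose i = 2 ^ n := by
  have h := Nat.sum_range_choose n
  have h1 : n / 2 ≤ n + 1 - n / 2 := by omega
  have h2 : n + 1 - n / 2 ≤ n + 1 := by omega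
  rw [range_eq_Ico, ← sum_Ico_consecutive _ (Nat.zero_le (n / 2)) (h1.trans h2),
    ← sum_Ico_consecutive _ h1 h2, ← range_eq_Ico] at h
  have h3 : ∑ i ∈ Ico (n + 1 - n / 2) (n + 1), n.choose i = ∑ i ∈ range (n / 2), n.choose i := by
    rw [sum_Ico_eq_sum_range]
    have e : n + 1 - (n + 1 - n / 2) = n / 2 := by omega
    rw [e, ← sum_range_reflect]
    refine sum_congr rfl fun i hi => ?_
    rw [mem_range] at hi
    have e2 : n + 1 - n / 2 + (n / 2 - 1 - i) = n - i := by omega
    rw [e2, Nat.choose_symm (by omega)]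
  rw [h3] at h
  omega

/-- **BALL** -/
theorem exists_A {d : ℕ} (hd : 1000 ≤ d) : ∃ A : Finset (V d), Ind A ∧
    (2 : ℝ) ^ d / 2 - 2 ^ d / √d ≤ A.card ∧ ∀ p, 2 / 10 * (2 : ℝ) ^ d ≤ cnt p A := by
  obtain ⟨n, rfl⟩ : ∃ n, d = n + 1 := ⟨d - 1, by omega⟩
  set a := n / 2 with ha
  set A : Finset (V (n + 1)) := univ.filter fun v =>
    (Odd (ballW v) ∧ ballW v ≤ a) ∨ (Even (ballW v) ∧ a + 2 ≤ ballW v) with hA
  -- the two parts
  have hc1 : cnt 1 A = (univ.filter fun v : V (n + 1) => Odd (ballW v) ∧ ballW v ≤ a).card := by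
    unfold cnt
    rw [hA, filter_filter]
    congr 1
    ext v
    simp only [mem_filter, mem_univ, true_and, ballW_par_one]
    constructor
    · rintro ⟨h | h, h'⟩
      · exact h
      · exact absurd h.1 (Nat.not_even_iff_odd.2 h')
    · exact fun h => ⟨Or.inl h, h.1⟩
  have hc0 : cnt 0 A = (univ.filter fun v : V (n + 1) => Even (ballW v) ∧ a + 2 ≤ ballW v).card := by
    unfold cnt
    rw [hA, filter_filter]
    congr 1
    ext v
    simp only [mem_filter, mem_univ, true_and, ballW_par_zero]
    constructor
    · rintro ⟨h | h, h'⟩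
      · exact absurd h' (Nat.not_even_iff_odd.2 h.1)
      · exact h
    · exact fun h => ⟨Or.inr h, h.1⟩
  have hc1' : ∑ i ∈ range a, n.choose i ≤ cnt 1 A := by
    rw [hc1, ball_count (n + 1) (fun j => Odd j ∧ j ≤ a)]
    refine (ball_odd_ge n a).trans ?_
    calc ∑ j ∈ range (a + 1), (if Odd j then (n + 1).choose j else 0)
        = ∑ j ∈ range (a + 1), (if Odd j ∧ j ≤ a then (n + 1).choose j else 0) := by
          refine sum_congr rfl fun j hj => ?_
          rw [mem_range] at hj
          have : j ≤ a := by omega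
          simp [this]
      _ ≤ ∑ j ∈ range (n + 1 + 1), (if Odd j ∧ j ≤ a then (n + 1).choose j else 0) :=
          sum_le_sum_of_subset (range_subset_range.2 (by omega))
  have hc0' : 2 ^ n ≤ cnt 0 A + ∑ i ∈ range (a + 2), n.choose i := by
    have h1 : (univ.filter fun v : V (n + 1) => Even (ballW v)).card = 2 ^ n := by
      have := card_par (d := n + 1) (by omega) 0
      rw [Nat.add_sub_cancel] at this
      rw [← this]
      congr 1
      ext v
      simp only [mem_filter, mem_univ, true_and, ballW_par_zero]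
    have h2 : (univ.filter fun v : V (n + 1) => Even (ballW v)).card
        = cnt 0 A + (univ.filter fun v : V (n + 1) => Even (ballW v) ∧ ballW v < a + 2).card := by
      rw [hc0, ← card_union_of_disjoint]
      · congr 1
        ext v
        simp only [mem_filter, mem_univ, true_and, mem_union]
        constructor
        · intro h
          rcases le_or_gt (a + 2) (ballW v) with h' | h'
          · exact Or.inl ⟨h, h'⟩
          · exact Or.inr ⟨h, h'⟩
        · rintro (h | h)
          · exact h.1
          · exact h.1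
      · rw [disjoint_filter]
        rintro v _ ⟨_, h⟩ ⟨_, h'⟩
        omega
    have h3 : (univ.filter fun v : V (n + 1) => Even (ballW v) ∧ ballW v < a + 2).card
        ≤ ∑ i ∈ range (a + 2), n.choose i := by
      rw [ball_count (n + 1) (fun j => Even j ∧ j < a + 2)]
      refine le_trans ?_ (ball_even_le n (a + 2))
      have h4 : ∑ j ∈ range (a + 2), (if Even j then (n + 1).choose j else 0)
          = ∑ j ∈ range (a + 2), (if Even j ∧ j < a + 2 then (n + 1).choose j else 0) := by
        refine sum_congr rfl fun j hj => ?_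
        rw [mem_range] at hj
        simp [hj]
      rw [h4]
      refine le_of_eq (sum_subset (range_subset_range.2 (by omega)) fun j _ hj => ?_).symm
      rw [mem_range] at hj
      rw [if_neg (fun h => hj h.2)]
    omega
  have hn1 : (999 : ℝ) ≤ n := by
    have : 999 ≤ n := by omega
    exact_mod_cast this
  have hsq : (31 : ℝ) ≤ √n := Real.le_sqrt_of_sq_le (by norm_num; linarith)
  have hP : (0 : ℝ) < 2 ^ n := by positivity
  have hx : (2 : ℝ) ^ n / √n ≤ 2 ^ n / 31 := by gcongr
  have hmid : (∑ i ∈ Ico a (n + 1 - a), n.choose i : ℕ) ≤ 2 * ((2 : ℝ) ^ n / 31) := by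
    push_cast
    calc ∑ i ∈ Ico a (n + 1 - a), (n.choose i : ℝ) ≤ ∑ _i ∈ Ico a (n + 1 - a), (2 : ℝ) ^ n / 31 :=
          sum_le_sum fun i _ => (choose_le (by omega) i).trans hx
      _ = ((n + 1 - a - a : ℕ) : ℝ) * ((2 : ℝ) ^ n / 31) := by
          rw [sum_const, Nat.card_Ico, nsmul_eq_mul]
      _ ≤ 2 * ((2 : ℝ) ^ n / 31) := by
          gcongr
          have : n + 1 - a - a ≤ 2 := by omega
          exact_mod_cast this
  have hhalf := ball_half n
  rw [← ha] at hhalf
  have hhalf' : 2 * ((∑ i ∈ range a, n.choose i : ℕ) : ℝ)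
      + ((∑ i ∈ Ico a (n + 1 - a), n.choose i : ℕ) : ℝ) = 2 ^ n := by exact_mod_cast hhalf
  have hmid0 : (0 : ℝ) ≤ ((∑ i ∈ Ico a (n + 1 - a), n.choose i : ℕ) : ℝ) := Nat.cast_nonneg _
  have hr1 : ((∑ i ∈ range a, n.choose i : ℕ) : ℝ) ≤ cnt 1 A := by exact_mod_cast hc1'
  have hr0 : (2 : ℝ) ^ n ≤ cnt 0 A + ((∑ i ∈ range (a + 2), n.choose i : ℕ) : ℝ) := by
    exact_mod_cast hc0'
  have hs2 : ((∑ i ∈ range (a + 2), n.choose i : ℕ) : ℝ)
      = ((∑ i ∈ range a, n.choose i : ℕ) : ℝ) + n.choose a + n.choose (a + 1) := by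
    rw [sum_range_succ, sum_range_succ]
    push_cast
    ring
  have hca := (choose_le (n := n) (by omega) a).trans hx
  have hca1 := (choose_le (n := n) (by omega) (a + 1)).trans hx
  refine ⟨A, ?_, ?_, ?_⟩
  · -- independence
    intro v hv i hi
    rw [hA, mem_filter] at hv hi
    have hp := par_nb i v
    have h1 := ballW_nb_le i v
    have h2 := ballW_le_nb i v
    rcases hv.2 with hv | hv <;> rcases hi.2 with hi | hi
    · rw [(ballW_par_one v).2 hv.1, (ballW_par_one _).2 hi.1] at hp
      exact absurd hp (by decide)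
    · omega
    · omega
    · rw [(ballW_par_zero v).2 hv.1, (ballW_par_zero _).2 hi.1] at hp
      exact absurd hp (by decide)
  · have hcard := cnt_add A
    have hcard' : (A.card : ℝ) = cnt 0 A + cnt 1 A := by exact_mod_cast hcard.symm
    have hch := choose_le (n := n + 1) (by omega) (a + 1)
    have hpas : (((n + 1).choose (a + 1) : ℕ) : ℝ) = n.choose a + n.choose (a + 1) := by
      rw [Nat.choose_succ_succ]
      push_cast
      ring
    have hpow : (2 : ℝ) ^ (n + 1) / 2 = 2 ^ n := by
      rw [pow_succ]
      ring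
    rw [hcard', hpow]
    linarith
  · intro p
    have hpow : (2 : ℝ) ^ (n + 1) = 2 * 2 ^ n := by
      rw [pow_succ]
      ring
    rw [hpow]
    rcases zmod2_cases p with rfl | rfl
    · linarith
    · linarith

end Pool.Agent.Lib.MP_c6118e_pr
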