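import Pool.Agent.Lib.MP_c6118e_pr.ISO

/-! BDRY: `bdry_le` is proved in `ISO`. -/
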