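import Pool.Agent.Lib.MP_c6118e_pr.Basic

/-! BRDG: bridge to the Hamming distance -/

namespace Pool.Agent.Lib.MP_c6118e_pr

open Finset Real

theorem zmod2_ne_iff_brdg (a b : ZMod 2) : a ≠ b ↔ b = a + 1 := by
  revert a b; decide

/-- **BRDG** -/
theorem dist_one {d : ℕ} (u v : V d) : hammingDist u v = 1 ↔ ∃ i, v = nb i u := by
  unfold hammingDist
  rw [card_eq_one]
  constructor
  · rintro ⟨i, hi⟩
    refine ⟨i, ?_⟩
    funext j
    have hj : j ∈ (univ.filter fun k => u k ≠ v k) ↔ j ∈ ({i} : Finset (Fin d)) := by rw [hi]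
    rw [mem_filter, mem_singleton] at hj
    simp only [mem_univ, true_and] at hj
    unfold nb
    by_cases h : j = i
    · subst h
      have h1 := (zmod2_ne_iff_brdg _ _).1 (hj.2 rfl)
      simp [h1]
    · have h1 : u j = v j := by
        by_contra h2; exact h (hj.1 h2)
      simp [h, h1]
  · rintro ⟨i, rfl⟩
    refine ⟨i, ?_⟩
    ext j
    rw [mem_filter, mem_singleton]
    simp only [mem_univ, true_and]
    unfold nb
    by_cases h : j = i
    · subst h; simp
    · simp [h]

theorem even_norm {d : ℕ} (v : V d) : Even (hammingNorm v) ↔ par v = 0 := by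
  unfold hammingNorm par
  rw [← ZMod.natCast_eq_zero_iff_even]
  have : ((univ.filter fun i => v i ≠ 0).card : ZMod 2) = ∑ i, v i := by
    rw [card_filter]
    push_cast
    apply sum_congr rfl
    intro i _
    rcases zmod2_cases (v i) with h | h <;> rw [h] <;> simp
  rw [this]

end Pool.Agent.Lib.MP_c6118e_pr
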