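import Pool.Agent.Lib.MP_c6118e_pr.Defs

/-! basic facts about the hypercube and its independent sets -/

namespace Pool.Agent.Lib.MP_c6118e_pr

open Finset Real

variable {d : ℕ}

theorem zmod2_add_self (a : ZMod 2) : a + a = 0 := CharTwo.add_self_eq_zero a

theorem zmod2_cases (a : ZMod 2) : a = 0 ∨ a = 1 := by
  revert a; decide

@[simp] theorem nb_nb (i : Fin d) (v : V d) : nb i (nb i v) = v := by
  unfold nb
  rw [add_assoc, ← Pi.single_add]
  simp [zmod2_add_self]

theorem nb_comm (i j : Fin d) (v : V d) : nb i (nb j v) = nb j (nb i v) := by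
  unfold nb; rw [add_right_comm]

theorem nb_involutive (i : Fin d) : Function.Involutive (nb i) := nb_nb i

theorem nb_injective (i : Fin d) : Function.Injective (nb i) := (nb_involutive i).injective

theorem nb_bijective (i : Fin d) : Function.Bijective (nb i) := (nb_involutive i).bijective

/-- for fixed `v`, different directions give different neighbours -/
theorem nb_inj {i j : Fin d} {v : V d} (h : nb i v = nb j v) : i = j := by
  unfold nb at h
  have h1 := add_left_cancel h
  by_contra hij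
  have h2 := congrFun h1 i
  simp [hij] at h2

@[simp] theorem par_nb (i : Fin d) (v : V d) : par (nb i v) = par v + 1 := by
  unfold par nb
  simp [Finset.sum_add_distrib]

theorem par_nb_ne (i : Fin d) (v : V d) : par (nb i v) ≠ par v := by
  rw [par_nb]; intro h
  have := add_eq_left.mp h
  exact one_ne_zero this

theorem par_nb_iff (i : Fin d) (v : V d) (p : ZMod 2) : par (nb i v) = p ↔ par v = p + 1 := by
  rw [par_nb]
  rcases zmod2_cases (par v) with h | h <;> rcases zmod2_cases p with h' | h' <;> rw [h, h'] <;> decide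

theorem nb_ne (i : Fin d) (v : V d) : nb i v ≠ v := fun h => par_nb_ne i v (congrArg par h)

theorem eq_nb_iff (i : Fin d) (u v : V d) : u = nb i v ↔ nb i u = v :=
  ⟨fun h => by rw [h, nb_nb], fun h => by rw [← h, nb_nb]⟩

theorem card_V : Fintype.card (V d) = 2 ^ d := by
  simp [V, ZMod.card]

theorem nOcc_le (s : Finset (V d)) (v : V d) : nOcc s v ≤ d := by
  unfold nOcc
  exact (card_filter_le _ _).trans (by simp)

theorem nOcc_eq_zero {s : Finset (V d)} {v : V d} : nOcc s v = 0 ↔ ∀ i, nb i v ∉ s := by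
  unfold nOcc
  rw [card_eq_zero, filter_eq_empty_iff]
  simp

theorem nOcc_pos {s : Finset (V d)} {v : V d} : 1 ≤ nOcc s v ↔ ∃ i, nb i v ∈ s := by
  rw [Nat.one_le_iff_ne_zero, Ne, nOcc_eq_zero]; push Not; rfl

theorem nOcc_mono {s t : Finset (V d)} (h : s ⊆ t) (v : V d) : nOcc s v ≤ nOcc t v :=
  card_le_card (monotone_filter_right _ fun _ _ hi => h hi)

theorem mem_Om {s : Finset (V d)} : s ∈ Om d ↔ Ind s := by simp [Om]

theorem Ind.mono {s t : Finset (V d)} (ht : Ind t) (h : s ⊆ t) : Ind s :=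
  fun v hv i hi => ht v (h hv) i (h hi)

/-- occupied vertices have no occupied neighbours -/
theorem Ind.nOcc {s : Finset (V d)} (hs : Ind s) {v : V d} (hv : v ∈ s) : nOcc s v = 0 :=
  nOcc_eq_zero.2 fun i => hs v hv i

theorem ind_iff {s : Finset (V d)} : Ind s ↔ ∀ v ∈ s, MP_c6118e_pr.nOcc s v = 0 :=
  ⟨fun h _ hv => h.nOcc hv, fun h v hv => nOcc_eq_zero.1 (h v hv)⟩

theorem mem_Lset {s : Finset (V d)} {v : V d} : v ∈ Lset s ↔ nOcc s v = 0 := by simp [Lset]

theorem mem_phase {L : Finset (V d)} {v : V d} : v ∈ phase L ↔ (par v = 0 ↔ v ∈ L) := by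
  simp [phase]

theorem mem_Ex {L : Finset (V d)} {v : V d} : v ∈ Ex L ↔
    v ∉ L ∧ d ≤ 4 * (univ.filter fun i => nb i v ∉ L).card := by simp [Ex]

theorem mem_II {l : ℝ} {s : Finset (V d)} {v : V d} : v ∈ II l s ↔
    1 ≤ nOcc s v ∧ (nOcc s v : ℝ) ≤ 7 / 8 * (l / (1 + l)) * d := by simp [II]

theorem mem_Bx {x : ℝ} {s : Finset (V d)} : s ∈ Bx d x ↔
    Ind s ∧ x < (cnt 0 s : ℝ) ∧ x < (cnt 1 s : ℝ) := by
  unfold Bx; rw [mem_filter, mem_Om]

theorem Bx_sub_Om (x : ℝ) : Bx d x ⊆ Om d := filter_subset _ _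

theorem cnt_mono {s t : Finset (V d)} (h : s ⊆ t) (p : ZMod 2) : cnt p s ≤ cnt p t :=
  card_le_card (filter_subset_filter _ h)

theorem cnt_add (s : Finset (V d)) : cnt 0 s + cnt 1 s = s.card := by
  unfold cnt
  have : (s.filter fun v => par v = 1) = s.filter fun v => ¬ par v = 0 := by
    apply filter_congr
    intro v _
    rcases zmod2_cases (par v) with h | h <;> rw [h] <;> decide
  rw [this]
  exact card_filter_add_card_filter_not (fun v : V d => par v = 0)

/-- the parity classes have `2^(d-1)` elements -/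
theorem card_par (hd : 1 ≤ d) (p : ZMod 2) :
    (univ.filter fun v : V d => par v = p).card = 2 ^ (d - 1) := by
  have i0 : Fin d := ⟨0, hd⟩
  have h1 : (univ.filter fun v : V d => par v = p).card
      = (univ.filter fun v : V d => par v = p + 1).card := by
    apply card_bij' (fun v _ => nb i0 v) (fun v _ => nb i0 v)
    · intro v hv; simp only [mem_filter, mem_univ, true_and] at hv ⊢; rw [par_nb, hv]
    · intro v hv; simp only [mem_filter, mem_univ, true_and] at hv ⊢
      rw [par_nb, hv, add_assoc, zmod2_add_self, add_zero]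
    · intro v _; exact nb_nb i0 v
    · intro v _; exact nb_nb i0 v
  have h2 : (univ.filter fun v : V d => par v = p).card
      + (univ.filter fun v : V d => par v = p + 1).card = 2 ^ d := by
    have : (univ.filter fun v : V d => par v = p + 1) = univ.filter fun v => ¬ par v = p := by
      apply filter_congr
      intro v _
      rcases zmod2_cases (par v) with h | h <;> rcases zmod2_cases p with h' | h' <;>
        rw [h, h'] <;> decide
    rw [this, card_filter_add_card_filter_not, card_univ, card_V]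
  obtain ⟨k, rfl⟩ := Nat.exists_eq_add_of_le' hd
  rw [pow_succ] at h2
  simp only [Nat.add_sub_cancel]
  omega

theorem Zx_nonneg {l : ℝ} (hl : 0 < l) (x : ℝ) : 0 ≤ Zx d l x :=
  sum_nonneg fun _ _ => by positivity

theorem empty_mem_Om : (∅ : Finset (V d)) ∈ Om d := by
  rw [mem_Om]; intro v hv; simp at hv

theorem Zf_pos {l : ℝ} (hl : 0 < l) : 0 < Zf d l :=
  sum_pos (fun _ _ => by positivity) ⟨∅, empty_mem_Om⟩

theorem Bx_anti {x y : ℝ} (h : x ≤ y) : Bx d y ⊆ Bx d x := by
  intro s hs
  rw [mem_Bx] at hs ⊢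
  exact ⟨hs.1, h.trans_lt hs.2.1, h.trans_lt hs.2.2⟩

theorem Zx_anti {l : ℝ} (hl : 0 < l) {x y : ℝ} (h : x ≤ y) : Zx d l y ≤ Zx d l x :=
  sum_le_sum_of_subset_of_nonneg (Bx_anti h) fun _ _ _ => by positivity

theorem Zx_le_Zf {l : ℝ} (hl : 0 < l) (x : ℝ) : Zx d l x ≤ Zf d l :=
  sum_le_sum_of_subset_of_nonneg (Bx_sub_Om x) fun _ _ _ => by positivity

/-- adding a vertex without occupied neighbours keeps independence -/
theorem Ind.insert {s : Finset (V d)} (hs : Ind s) {w : V d} (hw : MP_c6118e_pr.nOcc s w = 0) :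
    Ind (insert w s) := by
  rw [nOcc_eq_zero] at hw
  intro v hv i hi
  rw [mem_insert] at hv hi
  rcases hv with rfl | hv
  · rcases hi with hi | hi
    · exact nb_ne i v hi
    · exact hw i hi
  · rcases hi with hi | hi
    · have : v = nb i w := by rw [← hi, nb_nb]
      exact hw i (this ▸ hv)
    · exact hs v hv i hi

/-- generating function of the subsets of a finite set -/
theorem sum_pow_card {α : Type*} [DecidableEq α] (F : Finset α) (l : ℝ) :
    ∑ B ∈ F.powerset, l ^ B.card = (1 + l) ^ F.card := by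
  rw [add_comm, ← Finset.sum_pow_mul_eq_add_pow]
  simp

end Pool.Agent.Lib.MP_c6118e_pr
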