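import Pool.Agent.Lib.MP_c6118e_pr.Model
import Pool.Agent.Lib.MP_c6118e_pr.BRDG

namespace Pool.Agent.Lib.MP_c6118e_pr

open Finset Real

theorem isHardCore_iff {d : ℕ} (s : Finset (V d)) : Model.IsHardCore s ↔ Ind s := by
  unfold Model.IsHardCore Ind Model.Adj
  constructor
  · intro h v hv i hi
    exact h v hv _ hi ((dist_one _ _).2 ⟨i, rfl⟩)
  · intro h u hu v hv huv
    obtain ⟨i, rfl⟩ := (dist_one _ _).1 huv
    exact h u hu i hv

theorem configs_eq (d : ℕ) : Model.configs d = Om d := by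
  ext s
  unfold Model.configs Om
  rw [mem_filter, mem_filter, isHardCore_iff]

theorem evenOcc_eq {d : ℕ} (s : Finset (V d)) : Model.evenOcc s = cnt 0 s := by
  unfold Model.evenOcc cnt
  congr 1
  apply filter_congr
  intro v _
  exact even_norm v

theorem oddOcc_eq {d : ℕ} (s : Finset (V d)) : Model.oddOcc s = cnt 1 s := by
  unfold Model.oddOcc cnt
  congr 1
  apply filter_congr
  intro v _
  rw [← Nat.not_even_iff_odd, even_norm]
  rcases zmod2_cases (par v) with h | h <;> rw [h] <;> decide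

theorem balanced_eq (d : ℕ) (l : ℝ) :
    Model.balanced d l = Bx d (1 / 10 * (l / (1 + l)) * 2 ^ d) := by
  ext s
  unfold Model.balanced
  rw [mem_filter, configs_eq, mem_Om, mem_Bx, evenOcc_eq, oddOcc_eq, lt_min_iff]

theorem muBal_eq (d : ℕ) (l : ℝ) :
    Model.muBal d l = Zx d l (1 / 10 * (l / (1 + l)) * 2 ^ d) / Zf d l := by
  unfold Model.muBal Model.Z Zx Zf
  rw [balanced_eq, configs_eq]

theorem min_ge {d : ℕ} {l : ℝ} (hd : 4 ≤ d) (hl : 0 < l) :
    (l ≤ 1 / √d → 1 / 4 * l ^ 2 ≤ log (1 + l) * min (l / (1 + l)) (1 / √d)) ∧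
    (1 / √d ≤ l → 1 / 2 * (log (1 + l) / √d) ≤ log (1 + l) * min (l / (1 + l)) (1 / √d)) := by
  have hd4 : (4 : ℝ) ≤ d := by exact_mod_cast hd
  have hs2 : (2 : ℝ) ≤ √d := by
    rw [le_sqrt (by norm_num) (by linarith)]; linarith
  have hs0 : 0 < √(d : ℝ) := by linarith
  have hs2' : 1 / √(d : ℝ) ≤ 1 / 2 := one_div_le_one_div_of_le (by norm_num) hs2
  have hlg : l / (1 + l) ≤ log (1 + l) := by
    have := one_sub_inv_le_log_of_pos (by linarith : 0 < 1 + l)
    refine le_trans (le_of_eq ?_) this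
    field_simp; ring
  have hlg0 : 0 ≤ log (1 + l) := log_nonneg (by linarith)
  constructor
  · intro h
    have h1 : l ≤ 1 / 2 := h.trans hs2'
    have h2 : l / 2 ≤ l / (1 + l) := by
      apply div_le_div_of_nonneg_left hl.le (by linarith) (by linarith)
    have h3 : l / 2 ≤ min (l / (1 + l)) (1 / √d) := le_min h2 (by linarith)
    calc 1 / 4 * l ^ 2 = l / 2 * (l / 2) := by ring
      _ ≤ _ := mul_le_mul (h2.trans hlg) h3 (by linarith) hlg0
  · intro h
    have h3 : 1 / 2 * (1 / √d) ≤ min (l / (1 + l)) (1 / √d) := by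
      apply le_min
      · have hi : 0 < 1 / √(d : ℝ) := by positivity
        have h5 : (1 / √(d : ℝ)) / (1 + 1 / √d) ≤ l / (1 + l) := by
          rw [div_le_div_iff₀ (by positivity) (by positivity)]
          nlinarith
        refine le_trans ?_ h5
        rw [le_div_iff₀ (by positivity)]
        nlinarith
      · have hi : 0 < 1 / √(d : ℝ) := by positivity
        linarith
    calc 1 / 2 * (log (1 + l) / √d) = log (1 + l) * (1 / 2 * (1 / √d)) := by ring
      _ ≤ _ := mul_le_mul_of_nonneg_left h3 hlg0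

end Pool.Agent.Lib.MP_c6118e_pr
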