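import Pool.Agent.Lib.MP_c6118e_pr.Basic

/-! tails of the binomial distribution -/

namespace Pool.Agent.Lib.MP_c6118e_pr

open Finset Real

theorem CHER_base {l θ : ℝ} (hl : 0 < l) :
    (1 + l * θ) ≤ (1 + l) * exp ((θ - 1) * (l / (1 + l))) := by
  have h1 : 1 + l * θ = (1 + l) * (1 + (θ - 1) * (l / (1 + l))) := by
    field_simp
    ring
  rw [h1]
  apply mul_le_mul_of_nonneg_left _ (by positivity)
  have := add_one_le_exp ((θ - 1) * (l / (1 + l)))
  linarith

theorem CHER_term {l θ m : ℝ} (hl : 0 < l) (hθ : 0 < θ) {k : ℕ} (h : 0 ≤ ((k : ℝ) - m) * log θ) :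
    l ^ k ≤ (l * θ) ^ k * exp (-(m * log θ)) := by
  rw [mul_pow, mul_assoc]
  apply le_mul_of_one_le_right (by positivity)
  have h1 : θ ^ k = exp (k * log θ) := by
    rw [mul_comm, exp_mul, exp_log hθ, rpow_natCast]
  rw [h1, ← exp_add]
  apply one_le_exp
  linarith

theorem CHER_sum {α : Type*} [DecidableEq α] (F : Finset α) {l θ m : ℝ} (hl : 0 < l)
    (hθ : 0 < θ) (S : Finset (Finset α)) (hS : S ⊆ F.powerset)
    (h : ∀ B ∈ S, 0 ≤ ((B.card : ℝ) - m) * log θ) :
    ∑ B ∈ S, l ^ B.card ≤ (1 + l) ^ F.card *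
      exp ((θ - 1) * (l / (1 + l)) * F.card - m * log θ) := by
  have hlθ : 0 < l * θ := mul_pos hl hθ
  calc ∑ B ∈ S, l ^ B.card ≤ ∑ B ∈ S, (l * θ) ^ B.card * exp (-(m * log θ)) :=
        sum_le_sum fun B hB => CHER_term hl hθ (h B hB)
    _ ≤ ∑ B ∈ F.powerset, (l * θ) ^ B.card * exp (-(m * log θ)) :=
        sum_le_sum_of_subset_of_nonneg hS fun _ _ _ => by positivity
    _ = (1 + l * θ) ^ F.card * exp (-(m * log θ)) := by rw [← sum_mul, sum_pow_card]
    _ ≤ ((1 + l) * exp ((θ - 1) * (l / (1 + l)))) ^ F.card * exp (-(m * log θ)) := by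
        apply mul_le_mul_of_nonneg_right _ (exp_pos _).le
        exact pow_le_pow_left₀ (by positivity) (CHER_base hl) _
    _ = (1 + l) ^ F.card * exp ((θ - 1) * (l / (1 + l)) * F.card - m * log θ) := by
        rw [mul_pow, ← exp_nat_mul, mul_assoc, ← exp_add]
        congr 2
        ring

/-- **CHER** upper tail -/
theorem bin_up {α : Type*} [DecidableEq α] (F : Finset α) {l θ m : ℝ} (hl : 0 < l) (hθ : 1 ≤ θ) :
    ∑ B ∈ F.powerset.filter (fun B => m ≤ (B.card : ℝ)), l ^ B.card
      ≤ (1 + l) ^ F.card * exp ((θ - 1) * (l / (1 + l)) * F.card - m * log θ) := by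
  refine CHER_sum F hl (by linarith) _ (filter_subset _ _) fun B hB => ?_
  exact mul_nonneg (sub_nonneg.2 (mem_filter.1 hB).2) (log_nonneg hθ)

/-- lower tail -/
theorem bin_low {α : Type*} [DecidableEq α] (F : Finset α) {l θ m : ℝ} (hl : 0 < l)
    (hθ0 : 0 < θ) (hθ : θ ≤ 1) :
    ∑ B ∈ F.powerset.filter (fun B => (B.card : ℝ) ≤ m), l ^ B.card
      ≤ (1 + l) ^ F.card * exp ((θ - 1) * (l / (1 + l)) * F.card - m * log θ) := by
  refine CHER_sum F hl hθ0 _ (filter_subset _ _) fun B hB => ?_
  exact mul_nonneg_of_nonpos_of_nonpos (sub_nonpos.2 (mem_filter.1 hB).2) (log_nonpos hθ0.le hθ)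

theorem CHER_log : log (8 / 7) ≤ 1336 / 10000 := by
  rw [log_le_iff_le_exp (by norm_num)]
  have h := sum_le_exp_of_nonneg (x := 1336 / 10000) (by norm_num) 4
  refine le_trans ?_ h
  simp [sum_range_succ, Nat.factorial]
  norm_num

theorem chern_low {d : ℕ} {l : ℝ} (hl : 0 < l) :
    ∑ k ∈ (range (d + 1)).filter (fun k : ℕ => (k : ℝ) ≤ 7 / 8 * (l / (1 + l)) * d),
      (d.choose k : ℝ) * l ^ k ≤ (1 + l) ^ d * exp (-(1 / 3000 * log (1 + l) * d)) := by
  have h1l : 0 < 1 + l := by linarith
  have hlog0 : 0 < log (1 + l) := log_pos (by linarith)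
  rcases le_or_gt l (2 ^ 16) with hsmall | hlarge
  · set m : ℝ := 7 / 8 * (l / (1 + l)) * d with hm
    have hθ : (0 : ℝ) < 7 / 8 := by norm_num
    have hterm : ∀ k ∈ (range (d + 1)).filter (fun k : ℕ => (k : ℝ) ≤ m),
        (d.choose k : ℝ) * l ^ k ≤
          (d.choose k : ℝ) * ((l * (7 / 8)) ^ k * exp (-(m * log (7 / 8)))) := by
      intro k hk
      apply mul_le_mul_of_nonneg_left _ (Nat.cast_nonneg _)
      apply CHER_term hl hθ
      exact mul_nonneg_of_nonpos_of_nonpos (sub_nonpos.2 (mem_filter.1 hk).2)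
        (log_nonpos (by norm_num) (by norm_num))
    have hbin : ∑ k ∈ range (d + 1), (d.choose k : ℝ) * (l * (7 / 8)) ^ k =
        (1 + l * (7 / 8)) ^ d := by
      rw [add_comm (1 : ℝ), add_pow]
      refine sum_congr rfl fun k _ => ?_
      rw [one_pow, mul_one, mul_comm]
    have hl' : 0 < l / (1 + l) := by positivity
    calc ∑ k ∈ (range (d + 1)).filter (fun k : ℕ => (k : ℝ) ≤ m), (d.choose k : ℝ) * l ^ k
        ≤ ∑ k ∈ (range (d + 1)).filter (fun k : ℕ => (k : ℝ) ≤ m),
          (d.choose k : ℝ) * ((l * (7 / 8)) ^ k * exp (-(m * log (7 / 8)))) := sum_le_sum hterm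
      _ ≤ ∑ k ∈ range (d + 1),
          (d.choose k : ℝ) * ((l * (7 / 8)) ^ k * exp (-(m * log (7 / 8)))) :=
          sum_le_sum_of_subset_of_nonneg (filter_subset _ _) fun _ _ _ => by positivity
      _ = (1 + l * (7 / 8)) ^ d * exp (-(m * log (7 / 8))) := by
          rw [← hbin, sum_mul]
          exact sum_congr rfl fun k _ => by ring
      _ ≤ ((1 + l) * exp ((7 / 8 - 1) * (l / (1 + l)))) ^ d * exp (-(m * log (7 / 8))) := by
          apply mul_le_mul_of_nonneg_right _ (exp_pos _).le
          exact pow_le_pow_left₀ (by positivity) (CHER_base hl) _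
      _ = (1 + l) ^ d * exp (d * ((7 / 8 - 1) * (l / (1 + l))) - m * log (7 / 8)) := by
          rw [mul_pow, ← exp_nat_mul, mul_assoc, ← exp_add]
          congr 2
      _ ≤ (1 + l) ^ d * exp (-(1 / 3000 * log (1 + l) * d)) := by
          apply mul_le_mul_of_nonneg_left _ (by positivity)
          apply exp_le_exp.2
          have h87 : log (7 / 8) = -log (8 / 7) := by
            rw [← log_inv]
            norm_num
          have h2 := CHER_log
          have key : 1 / 3000 * log (1 + l) ≤ 81 / 10000 * (l / (1 + l)) := by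
            rcases le_or_gt l 1 with h1 | h1
            · have e1 : log (1 + l) ≤ l := by
                have := log_le_sub_one_of_pos h1l
                linarith
              have e2 : l ≤ 2 * (l / (1 + l)) := by
                rw [← mul_div_assoc, le_div_iff₀ h1l]
                nlinarith
              linarith
            · have e1 : log (1 + l) ≤ 17 * log 2 := by
                have e3 : (17 : ℝ) * log 2 = log (2 ^ 17) := by
                  rw [log_pow]
                  norm_num
                rw [e3]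
                apply log_le_log h1l
                norm_num at hsmall ⊢
                linarith
              have e2 : 1 / 2 ≤ l / (1 + l) := by
                rw [div_le_div_iff₀ (by norm_num) h1l]
                linarith
              have e4 := log_two_lt_d9
              linarith
          have hd0 : (0 : ℝ) ≤ d := Nat.cast_nonneg d
          have key2 := mul_le_mul_of_nonneg_right key hd0
          have e5 : 0 ≤ l / (1 + l) * d := by positivity
          rw [h87, hm]
          have e6 : 7 / 8 * (l / (1 + l)) * d * log (8 / 7) ≤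
              7 / 8 * (l / (1 + l)) * d * (1336 / 10000) :=
            mul_le_mul_of_nonneg_left h2 (by positivity)
          linarith
  · have hl1 : l / (1 + l) ≤ 1 := by
      rw [div_le_one h1l]
      linarith
    have hd0 : (0 : ℝ) ≤ d := Nat.cast_nonneg d
    have hterm : ∀ k ∈ (range (d + 1)).filter (fun k : ℕ => (k : ℝ) ≤ 7 / 8 * (l / (1 + l)) * d),
        (d.choose k : ℝ) * l ^ k ≤ (d.choose k : ℝ) * exp (7 / 8 * d * log (1 + l)) := by
      intro k hk
      apply mul_le_mul_of_nonneg_left _ (Nat.cast_nonneg _)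
      have h1 := (mem_filter.1 hk).2
      have h2 : (k : ℝ) ≤ 7 / 8 * d := by nlinarith
      calc l ^ k ≤ (1 + l) ^ k := pow_le_pow_left₀ hl.le (by linarith) k
        _ = exp (k * log (1 + l)) := by
            rw [mul_comm, exp_mul, exp_log h1l, rpow_natCast]
        _ ≤ exp (7 / 8 * d * log (1 + l)) := by
            apply exp_le_exp.2
            exact mul_le_mul_of_nonneg_right h2 hlog0.le
    have hsum2 : ∑ k ∈ range (d + 1), (d.choose k : ℝ) = 2 ^ d := by
      have := Nat.sum_range_choose d
      exact_mod_cast this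
    have hlog2 : log 2 ≤ 1 / 16 * log (1 + l) := by
      have e3 : (16 : ℝ) * log 2 = log (2 ^ 16) := by
        rw [log_pow]
        norm_num
      have e4 : log (2 ^ 16) ≤ log (1 + l) := by
        apply log_le_log (by norm_num)
        linarith
      linarith
    calc ∑ k ∈ (range (d + 1)).filter (fun k : ℕ => (k : ℝ) ≤ 7 / 8 * (l / (1 + l)) * d),
          (d.choose k : ℝ) * l ^ k
        ≤ ∑ k ∈ (range (d + 1)).filter (fun k : ℕ => (k : ℝ) ≤ 7 / 8 * (l / (1 + l)) * d),
          (d.choose k : ℝ) * exp (7 / 8 * d * log (1 + l)) := sum_le_sum hterm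
      _ ≤ ∑ k ∈ range (d + 1), (d.choose k : ℝ) * exp (7 / 8 * d * log (1 + l)) :=
          sum_le_sum_of_subset_of_nonneg (filter_subset _ _) fun _ _ _ => by positivity
      _ = exp (d * log 2) * exp (7 / 8 * d * log (1 + l)) := by
          rw [← sum_mul, hsum2]
          congr 1
          rw [mul_comm (d : ℝ) (log 2), exp_mul, exp_log (by norm_num), rpow_natCast]
      _ ≤ exp (d * log (1 + l)) * exp (-(1 / 3000 * log (1 + l) * d)) := by
          rw [← exp_add, ← exp_add]
          apply exp_le_exp.2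
          have e1 := mul_le_mul_of_nonneg_left hlog2 hd0
          have e2 : 0 ≤ d * log (1 + l) := mul_nonneg hd0 hlog0.le
          nlinarith
      _ = (1 + l) ^ d * exp (-(1 / 3000 * log (1 + l) * d)) := by
          rw [mul_comm (d : ℝ) (log (1 + l)), exp_mul, exp_log h1l, rpow_natCast]

end Pool.Agent.Lib.MP_c6118e_pr
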