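import Pool.Agent.Lib.MP_c6118e_pr.Basic

/-! product Hamming codes -/

namespace Pool.Agent.Lib.MP_c6118e_pr

open Finset Real

/-- the group of syndromes -/
abbrev CODE_W (r : ℕ) := Fin r → ZMod 2

variable {d r : ℕ}

/-- the syndrome -/
def CODE_s (e : {a : CODE_W r // a ≠ 0} → Fin d) (x : V d) : CODE_W r :=
  ∑ a : {a : CODE_W r // a ≠ 0}, x (e a) • a.1

/-- the correction -/
def CODE_c (e : {a : CODE_W r // a ≠ 0} → Fin d) (a : CODE_W r) : V d :=
  if h : a = 0 then 0 else Pi.single (e ⟨a, h⟩) 1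

lemma CODE_s_add (e : {a : CODE_W r // a ≠ 0} → Fin d) (x y : V d) :
    CODE_s e (x + y) = CODE_s e x + CODE_s e y := by
  simp only [CODE_s, Pi.add_apply, add_smul, sum_add_distrib]

lemma CODE_s_zero (e : {a : CODE_W r // a ≠ 0} → Fin d) : CODE_s e 0 = 0 := by
  simp [CODE_s]

lemma CODE_s_c {e : {a : CODE_W r // a ≠ 0} → Fin d} (he : Function.Injective e)
    (a : CODE_W r) : CODE_s e (CODE_c e a) = a := by
  unfold CODE_c
  split_ifs with h
  · rw [h, CODE_s_zero]
  · unfold CODE_s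
    rw [sum_eq_single ⟨a, h⟩]
    · simp
    · intro b _ hb
      have : e b ≠ e ⟨a, h⟩ := fun h' => hb (he h')
      simp [this]
    · intro h'
      exact absurd (mem_univ _) h'

lemma CODE_s_c' {e e' : {a : CODE_W r // a ≠ 0} → Fin d} (he : ∀ a b, e a ≠ e' b)
    (a : CODE_W r) : CODE_s e (CODE_c e' a) = 0 := by
  unfold CODE_c
  split_ifs with h
  · rw [CODE_s_zero]
  · unfold CODE_s
    apply sum_eq_zero
    intro b _
    simp [he b ⟨a, h⟩]

lemma CODE_self (x : V d) : x + x = 0 := by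
  funext i
  exact zmod2_add_self _

lemma CODE_selfW (x : CODE_W r) : x + x = 0 := by
  funext i
  exact zmod2_add_self _

/-- number of vertices separated from their translate -/
def CODE_D (S : Finset (V d)) (c : V d) : ℕ :=
  ∑ v : V d, if ¬ (v ∈ S ↔ v + c ∈ S) then 1 else 0

lemma CODE_D_zero (S : Finset (V d)) : CODE_D S 0 = 0 := by
  simp [CODE_D]

lemma CODE_D_add (S : Finset (V d)) (c c' : V d) :
    CODE_D S (c + c') ≤ CODE_D S c + CODE_D S c' := by
  have h1 : CODE_D S c' = ∑ v : V d, if ¬ (v + c ∈ S ↔ v + c + c' ∈ S) then 1 else 0 := by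
    unfold CODE_D
    exact (Equiv.sum_comp (Equiv.addRight c)
      (fun v => if ¬ (v ∈ S ↔ v + c' ∈ S) then 1 else 0)).symm
  rw [h1, CODE_D, CODE_D, ← sum_add_distrib]
  apply sum_le_sum
  intro v _
  rw [← add_assoc]
  by_cases h2 : v ∈ S <;> by_cases h3 : v + c ∈ S <;> by_cases h4 : v + c + c' ∈ S <;>
    simp [h2, h3, h4]

lemma CODE_D_single (S : Finset (V d)) (i : Fin d) :
    CODE_D S (Pi.single i 1) = 2 * (S.filter fun v => nb i v ∉ S).card := by
  have h1 : CODE_D S (Pi.single i 1) =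
      (univ.filter fun v : V d => ¬ (v ∈ S ↔ nb i v ∈ S)).card := by
    rw [CODE_D, card_filter]
    rfl
  have h2 : (univ.filter fun v : V d => ¬ (v ∈ S ↔ nb i v ∈ S)) =
      (S.filter fun v => nb i v ∉ S) ∪ (S.filter fun v => nb i v ∉ S).image (nb i) := by
    ext v
    simp only [mem_filter, mem_univ, true_and, mem_union, mem_image]
    constructor
    · intro h
      by_cases hv : v ∈ S
      · exact Or.inl ⟨hv, fun h' => h ⟨fun _ => h', fun _ => hv⟩⟩
      · right
        refine ⟨nb i v, ⟨?_, ?_⟩, nb_nb i v⟩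
        · by_contra h'
          exact h ⟨fun h'' => absurd h'' hv, fun h'' => absurd h'' h'⟩
        · rwa [nb_nb]
    · rintro (⟨hv, h⟩ | ⟨w, ⟨hw, h⟩, rfl⟩)
      · exact fun h' => h (h'.1 hv)
      · rw [nb_nb]
        exact fun h' => h (h'.2 hw)
  have h3 : Disjoint (S.filter fun v => nb i v ∉ S)
      ((S.filter fun v => nb i v ∉ S).image (nb i)) := by
    rw [disjoint_left]
    intro v hv hv'
    obtain ⟨w, hw, rfl⟩ := mem_image.1 hv'
    exact (mem_filter.1 hw).2 (mem_filter.1 hv).1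
  rw [h1, h2, card_union_of_disjoint h3, card_image_of_injective _ (nb_injective i), two_mul]

lemma CODE_bdry (S : Finset (V d)) : ∑ i, (S.filter fun v => nb i v ∉ S).card = bdry S := by
  unfold bdry
  simp only [card_filter]
  exact sum_comm

lemma CODE_D_sum (S : Finset (V d)) (e : {a : CODE_W r // a ≠ 0} → Fin d) :
    ∑ a : CODE_W r, CODE_D S (CODE_c e a) =
      ∑ a : {a : CODE_W r // a ≠ 0}, CODE_D S (Pi.single (e a) 1) := by
  rw [Fintype.sum_eq_add_sum_subtype_ne _ (0 : CODE_W r)]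
  have h1 : CODE_c e (0 : CODE_W r) = 0 := by simp [CODE_c]
  rw [h1, CODE_D_zero, zero_add]
  refine sum_congr rfl fun a _ => ?_
  rw [CODE_c, dif_neg a.2]

/-- the combinatorial core -/
lemma CODE_core {e₁ e₂ : {a : CODE_W r // a ≠ 0} → Fin d} (h1 : Function.Injective e₁)
    (h2 : Function.Injective e₂) (h12 : ∀ a b, e₁ a ≠ e₂ b) :
    ∃ (U : V d → Finset (V d)) (q : V d → V d → V d), (∀ t v, q t v ∈ U t) ∧
      (∀ t, (U t).card * (2 ^ r * 2 ^ r) ≤ 2 ^ d) ∧
      ∀ S : Finset (V d), (∑ t, (wrong S (q t)).card) * (2 ^ r) ≤ 2 ^ d * (2 * bdry S) := by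
  classical
  have h21 : ∀ a b, e₂ a ≠ e₁ b := fun a b h => h12 b a h.symm
  set κ : V d → V d := fun x => CODE_c e₁ (CODE_s e₁ x) + CODE_c e₂ (CODE_s e₂ x) with hκ
  set U : V d → Finset (V d) := fun t =>
    univ.filter fun u => CODE_s e₁ (u + t) = 0 ∧ CODE_s e₂ (u + t) = 0 with hU
  set U0 : ℕ := (univ.filter fun u : V d => CODE_s e₁ u = 0 ∧ CODE_s e₂ u = 0).card with hU0
  have hcardW : Fintype.card (CODE_W r) = 2 ^ r := by
    simp [CODE_W, ZMod.card]
  have hsyn : ∀ x : V d, CODE_s e₁ (x + κ x) = 0 ∧ CODE_s e₂ (x + κ x) = 0 := by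
    intro x
    constructor
    · rw [hκ]
      simp only [CODE_s_add, CODE_s_c h1, CODE_s_c' h12, add_zero]
      exact CODE_selfW _
    · rw [hκ]
      simp only [CODE_s_add, CODE_s_c h2, CODE_s_c' h21, zero_add]
      exact CODE_selfW _
  have hUcard : ∀ t, (U t).card = U0 := by
    intro t
    apply card_bij' (fun u _ => u + t) (fun u _ => u + t)
    · intro u hu
      simp only [hU, mem_filter, mem_univ, true_and] at hu ⊢
      exact hu
    · intro u hu
      simp only [hU, mem_filter, mem_univ, true_and] at hu ⊢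
      rw [add_assoc, CODE_self, add_zero]
      exact hu
    · intro u _
      rw [add_assoc, CODE_self, add_zero]
    · intro u _
      rw [add_assoc, CODE_self, add_zero]
  -- the number of vectors with given syndromes
  have hfib : ∀ p : CODE_W r × CODE_W r,
      (univ.filter fun x : V d => (CODE_s e₁ x, CODE_s e₂ x) = p).card = U0 := by
    rintro ⟨a, b⟩
    have hs1 : CODE_s e₁ (CODE_c e₁ a + CODE_c e₂ b) = a := by
      rw [CODE_s_add, CODE_s_c h1, CODE_s_c' h12, add_zero]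
    have hs2 : CODE_s e₂ (CODE_c e₁ a + CODE_c e₂ b) = b := by
      rw [CODE_s_add, CODE_s_c h2, CODE_s_c' h21, zero_add]
    apply card_bij' (fun x _ => x + (CODE_c e₁ a + CODE_c e₂ b))
      (fun x _ => x + (CODE_c e₁ a + CODE_c e₂ b))
    · intro x hx
      simp only [mem_filter, mem_univ, true_and, Prod.mk.injEq] at hx ⊢
      rw [CODE_s_add e₁ x, CODE_s_add e₂ x, hs1, hs2, hx.1, hx.2]
      exact ⟨CODE_selfW a, CODE_selfW b⟩
    · intro x hx
      simp only [mem_filter, mem_univ, true_and, Prod.mk.injEq] at hx ⊢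
      rw [CODE_s_add e₁ x, CODE_s_add e₂ x, hs1, hs2, hx.1, hx.2]
      exact ⟨zero_add a, zero_add b⟩
    · intro x _
      rw [add_assoc, CODE_self, add_zero]
    · intro x _
      rw [add_assoc, CODE_self, add_zero]
  have hcount : U0 * (2 ^ r * 2 ^ r) = 2 ^ d := by
    have h3 : ∑ p : CODE_W r × CODE_W r,
        (univ.filter fun x : V d => (CODE_s e₁ x, CODE_s e₂ x) = p).card = 2 ^ d := by
      rw [← card_eq_sum_card_fiberwise (fun _ _ => by simp), card_univ, card_V]
    rw [sum_congr rfl fun p _ => hfib p, sum_const, card_univ, Fintype.card_prod, hcardW,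
      smul_eq_mul] at h3
    rw [mul_comm]
    exact h3
  refine ⟨U, fun t v => v + κ (v + t), ?_, ?_, ?_⟩
  · intro t v
    simp only [hU, mem_filter, mem_univ, true_and]
    have h3 : v + κ (v + t) + t = (v + t) + κ (v + t) := by abel
    rw [h3]
    exact hsyn _
  · intro t
    rw [hUcard, hcount]
  · intro S
    have h3 : ∑ t, (wrong S (fun v => v + κ (v + t))).card = ∑ x, CODE_D S (κ x) := by
      have h4 : ∀ t, (wrong S (fun v => v + κ (v + t))).card =
          ∑ v : V d, if ¬ (v ∈ S ↔ v + κ (v + t) ∈ S) then 1 else 0 := by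
        intro t
        rw [wrong, card_filter]
      rw [sum_congr rfl fun t _ => h4 t, sum_comm]
      have h5 : ∀ v : V d, (∑ t, if ¬ (v ∈ S ↔ v + κ (v + t) ∈ S) then 1 else 0) =
          ∑ x, if ¬ (v ∈ S ↔ v + κ x ∈ S) then 1 else 0 := by
        intro v
        exact Equiv.sum_comp (Equiv.addLeft v)
          (fun x => if ¬ (v ∈ S ↔ v + κ x ∈ S) then 1 else 0)
      rw [sum_congr rfl fun v _ => h5 v, sum_comm]
      rfl
    have h6 : ∑ x, CODE_D S (κ x) =
        ∑ p : CODE_W r × CODE_W r, U0 * CODE_D S (CODE_c e₁ p.1 + CODE_c e₂ p.2) := by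
      have h7 := sum_fiberwise' (univ : Finset (V d)) (fun x => (CODE_s e₁ x, CODE_s e₂ x))
        (fun p : CODE_W r × CODE_W r => CODE_D S (CODE_c e₁ p.1 + CODE_c e₂ p.2))
      rw [hκ]
      refine h7.symm.trans ?_
      refine sum_congr rfl fun p _ => ?_
      rw [sum_const, smul_eq_mul, hfib p]
    have h8 : ∑ p : CODE_W r × CODE_W r, CODE_D S (CODE_c e₁ p.1 + CODE_c e₂ p.2) ≤
        2 ^ r * (2 * bdry S) := by
      calc ∑ p : CODE_W r × CODE_W r, CODE_D S (CODE_c e₁ p.1 + CODE_c e₂ p.2)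
          ≤ ∑ p : CODE_W r × CODE_W r, (CODE_D S (CODE_c e₁ p.1) + CODE_D S (CODE_c e₂ p.2)) :=
            sum_le_sum fun p _ => CODE_D_add _ _ _
        _ = 2 ^ r * (∑ a : CODE_W r, CODE_D S (CODE_c e₁ a)) +
            2 ^ r * (∑ a : CODE_W r, CODE_D S (CODE_c e₂ a)) := by
            rw [sum_add_distrib, Fintype.sum_prod_type, Fintype.sum_prod_type_right]
            simp only [sum_const, card_univ, hcardW, smul_eq_mul]
            rw [mul_sum, mul_sum]
        _ = 2 ^ r * (∑ z : {a : CODE_W r // a ≠ 0} ⊕ {a : CODE_W r // a ≠ 0},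
              CODE_D S (Pi.single (Sum.elim e₁ e₂ z) 1)) := by
            rw [CODE_D_sum, CODE_D_sum, ← mul_add, Fintype.sum_sum_type]
            rfl
        _ ≤ 2 ^ r * ∑ i, CODE_D S (Pi.single i 1) := by
            apply Nat.mul_le_mul_left
            have hinj : Function.Injective (Sum.elim e₁ e₂) :=
              h1.sumElim h2 h12
            calc ∑ z : {a : CODE_W r // a ≠ 0} ⊕ {a : CODE_W r // a ≠ 0},
                  CODE_D S (Pi.single (Sum.elim e₁ e₂ z) 1)
                = ∑ i ∈ univ.map ⟨Sum.elim e₁ e₂, hinj⟩, CODE_D S (Pi.single i 1) := by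
                  rw [sum_map]
                  rfl
              _ ≤ ∑ i, CODE_D S (Pi.single i 1) := sum_le_sum_of_subset (subset_univ _)
        _ = 2 ^ r * (2 * bdry S) := by
            rw [sum_congr rfl fun i _ => CODE_D_single S i, ← mul_sum, CODE_bdry]
    rw [h3, h6, ← mul_sum, ← hcount]
    calc U0 * (∑ p : CODE_W r × CODE_W r, CODE_D S (CODE_c e₁ p.1 + CODE_c e₂ p.2)) * 2 ^ r
        ≤ U0 * (2 ^ r * (2 * bdry S)) * 2 ^ r := by
          apply Nat.mul_le_mul_right
          exact Nat.mul_le_mul_left _ h8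
      _ = U0 * (2 ^ r * 2 ^ r) * (2 * bdry S) := by ring

/-- **CODE** -/
theorem code {d : ℕ} (hd : 8 ≤ d) :
    ∃ (U : V d → Finset (V d)) (q : V d → V d → V d), (∀ t v, q t v ∈ U t) ∧
      (∀ t, ((U t).card : ℝ) ≤ 16 * 2 ^ d / (d : ℝ) ^ 2) ∧
      ∀ S : Finset (V d), (∑ t, ((wrong S (q t)).card : ℝ)) ≤ 2 ^ d * (8 / d * bdry S) := by
  classical
  set r : ℕ := Nat.log 2 (d / 2 + 1) with hr
  have hr1 : 2 ^ r ≤ d / 2 + 1 := Nat.pow_log_le_self 2 (by omega)
  have hr2 : d / 2 + 1 < 2 ^ (r + 1) := Nat.lt_pow_succ_log_self (by norm_num) _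
  have hcard : Fintype.card ({a : CODE_W r // a ≠ 0} ⊕ {a : CODE_W r // a ≠ 0}) ≤
      Fintype.card (Fin d) := by
    have h1 : Fintype.card {a : CODE_W r // a ≠ 0} = 2 ^ r - 1 := by
      rw [Fintype.card_subtype_compl, Fintype.card_subtype_eq]
      simp [CODE_W, ZMod.card]
    rw [Fintype.card_sum, h1, Fintype.card_fin]
    omega
  obtain ⟨c⟩ := Function.Embedding.nonempty_of_card_le hcard
  have e1 : Function.Injective fun a => c (Sum.inl a) := fun a b h =>
    Sum.inl_injective (c.injective h)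
  have e2 : Function.Injective fun a => c (Sum.inr a) := fun a b h =>
    Sum.inr_injective (c.injective h)
  have e12 : ∀ a b, c (Sum.inl a) ≠ c (Sum.inr b) := fun a b h => by
    have := c.injective h
    exact absurd this (by simp)
  obtain ⟨U, q, hq, hU, hw⟩ := CODE_core e1 e2 e12
  have hd0 : (0 : ℝ) < d := by
    have : (8 : ℝ) ≤ d := by exact_mod_cast hd
    linarith
  have hR : (d : ℝ) ≤ 4 * 2 ^ r := by
    have h1 : d ≤ 4 * 2 ^ r := by
      rw [pow_succ] at hr2
      omega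
    exact_mod_cast h1
  have hR0 : (0 : ℝ) < 2 ^ r := by positivity
  refine ⟨U, q, hq, ?_, ?_⟩
  · intro t
    have h1 : ((U t).card : ℝ) * (2 ^ r * 2 ^ r) ≤ 2 ^ d := by exact_mod_cast hU t
    rw [le_div_iff₀ (by positivity)]
    have h2 : (d : ℝ) ^ 2 ≤ 16 * (2 ^ r * 2 ^ r) := by nlinarith
    have h3 : (0 : ℝ) ≤ (U t).card := Nat.cast_nonneg _
    nlinarith [mul_le_mul_of_nonneg_left h2 h3]
  · intro S
    have h1 : (∑ t, ((wrong S (q t)).card : ℝ)) * 2 ^ r ≤ 2 ^ d * (2 * bdry S) := by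
      exact_mod_cast hw S
    have h2 : (0 : ℝ) ≤ ∑ t, ((wrong S (q t)).card : ℝ) := sum_nonneg fun _ _ => Nat.cast_nonneg _
    have h3 : (∑ t, ((wrong S (q t)).card : ℝ)) * d ≤ 2 ^ d * (8 * bdry S) := by
      have h4 := mul_le_mul_of_nonneg_left hR h2
      linarith
    have h5 : (2 : ℝ) ^ d * (8 / d * bdry S) = 2 ^ d * (8 * bdry S) / d := by
      field_simp
    rw [h5, le_div_iff₀ hd0]
    exact h3

end Pool.Agent.Lib.MP_c6118e_pr
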