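import Mathlib

/-!
# MP_c6118e_pr : balanced hard-core configurations on the hypercube, definitions
-/

namespace Pool.Agent.Lib.MP_c6118e_pr

open Finset Real

/-- vertices of the hypercube `Q_d` -/
abbrev V (d : ℕ) := Fin d → ZMod 2

/-- the neighbour of `v` in direction `i` -/
def nb {d : ℕ} (i : Fin d) (v : V d) : V d := v + Pi.single i 1

/-- parity of the Hamming weight -/
def par {d : ℕ} (v : V d) : ZMod 2 := ∑ i, v i

/-- number of occupied neighbours of `v` -/
def nOcc {d : ℕ} (s : Finset (V d)) (v : V d) : ℕ := (univ.filter fun i => nb i v ∈ s).card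

/-- `s` is an independent set -/
def Ind {d : ℕ} (s : Finset (V d)) : Prop := ∀ v ∈ s, ∀ i, nb i v ∉ s

instance {d : ℕ} : DecidablePred (Ind (d := d)) := fun s => by unfold Ind; infer_instance

/-- the hard-core configurations -/
def Om (d : ℕ) : Finset (Finset (V d)) := univ.filter Ind

/-- number of occupied vertices of parity `p` -/
def cnt {d : ℕ} (p : ZMod 2) (s : Finset (V d)) : ℕ := (s.filter fun v => par v = p).card

/-- configurations with more than `x` occupied vertices of each parity -/
noncomputable def Bx (d : ℕ) (x : ℝ) : Finset (Finset (V d)) :=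
  (Om d).filter fun s => x < (cnt 0 s : ℝ) ∧ x < (cnt 1 s : ℝ)

/-- the partition function -/
noncomputable def Zf (d : ℕ) (l : ℝ) : ℝ := ∑ s ∈ Om d, l ^ s.card

/-- the partition function of `Bx d x` -/
noncomputable def Zx (d : ℕ) (l x : ℝ) : ℝ := ∑ s ∈ Bx d x, l ^ s.card

/-- the set `L` of vertices without occupied neighbour -/
def Lset {d : ℕ} (s : Finset (V d)) : Finset (V d) := univ.filter fun v => nOcc s v = 0

/-- for a set `L`: the phase set `{v : v even ↔ v ∈ L}` -/
def phase {d : ℕ} (L : Finset (V d)) : Finset (V d) := univ.filter fun v => (par v = 0 ↔ v ∈ L)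

/-- number of edges inside `L` (counted from their even end) -/
def eLL {d : ℕ} (L : Finset (V d)) : ℕ :=
  ∑ v ∈ L.filter (fun v => par v = 0), (univ.filter fun i => nb i v ∈ L).card

/-- vertices outside `L` with at least `d/4` neighbours outside `L` -/
def Ex {d : ℕ} (L : Finset (V d)) : Finset (V d) :=
  univ.filter fun v => v ∉ L ∧ d ≤ 4 * (univ.filter fun i => nb i v ∉ L).card

/-- number of boundary edges of `S` (counted from their end in `S`) -/
def bdry {d : ℕ} (S : Finset (V d)) : ℕ := ∑ v ∈ S, (univ.filter fun i => nb i v ∉ S).card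

/-- intermediate vertices: `1 ≤ N_v ≤ (7/8) l' d`, `l' = l/(1+l)` -/
noncomputable def II {d : ℕ} (l : ℝ) (s : Finset (V d)) : Finset (V d) :=
  univ.filter fun v => 1 ≤ nOcc s v ∧ (nOcc s v : ℝ) ≤ 7 / 8 * (l / (1 + l)) * d

/-- vertices whose status is mispredicted by `q` -/
def wrong {d : ℕ} (S : Finset (V d)) (q : V d → V d) : Finset (V d) :=
  univ.filter fun v => ¬ (v ∈ S ↔ q v ∈ S)

end Pool.Agent.Lib.MP_c6118e_pr
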