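import Pool.Agent.Lib.MP_c6118e_pr.Basic

/-! fibre lemma used by GIB2 and GIB3 -/

namespace Pool.Agent.Lib.MP_c6118e_pr

open Finset Real

/-- upper tail (own copy of `bin_up`) -/
theorem tail_up {α : Type*} [DecidableEq α] (F : Finset α) {l θ m : ℝ} (hl : 0 < l)
    (hθ : 1 ≤ θ) :
    ∑ B ∈ F.powerset.filter (fun B => m ≤ (B.card : ℝ)), l ^ B.card
      ≤ (1 + l) ^ F.card * exp ((θ - 1) * (l / (1 + l)) * F.card - m * log θ) := by
  have hθ0 : 0 < θ := by linarith
  have h1 : ∑ B ∈ F.powerset.filter (fun B => m ≤ (B.card : ℝ)), l ^ B.card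
      ≤ ∑ B ∈ F.powerset, (l * θ) ^ B.card * exp (- (m * log θ)) := by
    refine (sum_le_sum ?_).trans (sum_le_sum_of_subset_of_nonneg (filter_subset _ _)
      fun _ _ _ => by positivity)
    intro B hB
    rw [mem_filter] at hB
    rw [mul_pow, mul_assoc]
    refine le_mul_of_one_le_right (by positivity) ?_
    rw [← Real.exp_log (pow_pos hθ0 B.card), ← Real.exp_add, Real.log_pow]
    apply Real.one_le_exp
    have := mul_le_mul_of_nonneg_right hB.2 (Real.log_nonneg hθ)
    linarith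
  refine h1.trans ?_
  rw [← sum_mul, sum_pow_card, sub_eq_add_neg, Real.exp_add, ← mul_assoc]
  refine mul_le_mul_of_nonneg_right ?_ (Real.exp_nonneg _)
  have h2 : (θ - 1) * (l / (1 + l)) * F.card = F.card * ((θ - 1) * (l / (1 + l))) := by ring
  rw [h2, Real.exp_nat_mul, ← mul_pow]
  refine pow_le_pow_left₀ (by positivity) ?_ _
  have h3 := Real.add_one_le_exp ((θ - 1) * (l / (1 + l)))
  have h4 : 1 + l * θ = (1 + l) * ((θ - 1) * (l / (1 + l)) + 1) := by
    field_simp
    ring
  rw [h4]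
  exact mul_le_mul_of_nonneg_left h3 (by positivity)

variable {d : ℕ}

/-- for `u` in an independent set `T`, the neighbours of `u` are outside `T` -/
theorem nOcc_sdiff {T : Finset (V d)} (hT : ∀ u ∈ T, ∀ i, nb i u ∉ T) (s : Finset (V d))
    {u : V d} (hu : u ∈ T) : nOcc (s \ T) u = nOcc s u := by
  unfold nOcc
  congr 1
  apply filter_congr
  intro i _
  rw [mem_sdiff]
  exact ⟨fun h => h.1, fun h => ⟨h, hT u hu i⟩⟩

/-- gluing a part of the free vertices of `T` to a configuration outside `T` -/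
theorem glue_ind {T : Finset (V d)} (hT : ∀ u ∈ T, ∀ i, nb i u ∉ T) {s : Finset (V d)}
    (hs : Ind s) {B : Finset (V d)} (hB : B ⊆ T.filter fun u => nOcc (s \ T) u = 0) :
    Ind ((s \ T) ∪ B) := by
  intro v hv i hi
  rw [mem_union] at hv hi
  have hBT : ∀ u ∈ B, u ∈ T := fun u hu => (mem_filter.1 (hB hu)).1
  have hB0 : ∀ u ∈ B, ∀ i, nb i u ∉ s \ T := fun u hu =>
    nOcc_eq_zero.1 (mem_filter.1 (hB hu)).2
  rcases hv with hv | hv
  · rcases hi with hi | hi
    · exact hs v (mem_sdiff.1 hv).1 i (mem_sdiff.1 hi).1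
    · have := hB0 _ hi i
      rw [nb_nb] at this
      exact this hv
  · rcases hi with hi | hi
    · exact hB0 v hv i hi
    · exact hT v (hBT v hv) i (hBT _ hi)

/-- **fibre lemma** -/
theorem fibre_le {l θ m K : ℝ} (hl : 0 < l) (hθ : 1 ≤ θ) {T : Finset (V d)}
    (hT : ∀ u ∈ T, ∀ i, nb i u ∉ T) (S S' : Finset (Finset (V d)))
    (hS : ∀ s ∈ S, Ind s) (hm : ∀ s ∈ S, m ≤ ((s ∩ T).card : ℝ))
    (hK : ∀ s ∈ S, ((T.filter fun u => nOcc (s \ T) u = 0).card : ℝ) ≤ K)
    (hS' : ∀ s ∈ S, ∀ B ⊆ T.filter (fun u => nOcc (s \ T) u = 0), (s \ T) ∪ B ∈ S') :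
    ∑ s ∈ S, l ^ s.card ≤
      exp ((θ - 1) * (l / (1 + l)) * K - m * log θ) * ∑ s ∈ S', l ^ s.card := by
  classical
  set F : Finset (V d) → Finset (V d) := fun r => T.filter fun u => nOcc r u = 0 with hF
  set R : Finset (Finset (V d)) := S.image fun s => s \ T with hR
  have hmaps : ∀ s ∈ S, s \ T ∈ R := fun s hs => mem_image_of_mem _ hs
  rw [← sum_fiberwise_of_maps_to hmaps]
  -- every fibre
  have hfib : ∀ r ∈ R, ∑ s ∈ S.filter (fun s => s \ T = r), l ^ s.card
      ≤ exp ((θ - 1) * (l / (1 + l)) * K - m * log θ) *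
        ∑ B ∈ (F r).powerset, l ^ (r ∪ B).card := by
    intro r hr
    obtain ⟨s₀, hs₀, rfl⟩ := mem_image.1 hr
    have hdisj : ∀ B ⊆ F (s₀ \ T), Disjoint (s₀ \ T) B := by
      intro B hB
      rw [disjoint_left]
      intro u hu hu'
      exact (mem_sdiff.1 hu).2 (mem_filter.1 (hB hu')).1
    have e1 : ∑ B ∈ (F (s₀ \ T)).powerset, l ^ ((s₀ \ T) ∪ B).card
        = l ^ (s₀ \ T).card * (1 + l) ^ (F (s₀ \ T)).card := by
      rw [← sum_pow_card, mul_sum]
      refine sum_congr rfl fun B hB => ?_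
      rw [card_union_of_disjoint (hdisj B (mem_powerset.1 hB)), pow_add]
    have e2 : ∑ s ∈ S.filter (fun s => s \ T = s₀ \ T), l ^ s.card
        ≤ l ^ (s₀ \ T).card *
          ∑ B ∈ (F (s₀ \ T)).powerset.filter (fun B => m ≤ (B.card : ℝ)), l ^ B.card := by
      have hcard : ∀ s ∈ S.filter (fun s => s \ T = s₀ \ T),
          l ^ s.card = l ^ (s₀ \ T).card * l ^ (s ∩ T).card := by
        intro s hs
        rw [mem_filter] at hs
        rw [← hs.2, ← pow_add, card_sdiff_add_card_inter]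
      rw [sum_congr rfl hcard, ← mul_sum]
      refine mul_le_mul_of_nonneg_left ?_ (by positivity)
      have hinj : Set.InjOn (fun s : Finset (V d) => s ∩ T)
          (S.filter (fun s => s \ T = s₀ \ T) : Finset (Finset (V d))) := by
        intro a ha b hb hab
        simp only [coe_filter, Set.mem_ofPred_eq] at ha hb
        have hab' : a ∩ T = b ∩ T := hab
        rw [← sdiff_union_inter a T, ← sdiff_union_inter b T, ha.2, hb.2, hab']
      rw [← sum_image (f := fun B : Finset (V d) => l ^ B.card) hinj]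
      refine sum_le_sum_of_subset_of_nonneg ?_ fun _ _ _ => by positivity
      intro B hB
      obtain ⟨s, hs, rfl⟩ := mem_image.1 hB
      rw [mem_filter] at hs
      rw [mem_filter, mem_powerset]
      refine ⟨?_, hm s hs.1⟩
      intro u hu
      rw [mem_inter] at hu
      rw [hF, mem_filter]
      refine ⟨hu.2, ?_⟩
      rw [← hs.2, nOcc_sdiff hT s hu.2]
      exact (hS s hs.1).nOcc hu.1
    rw [e1]
    refine e2.trans ?_
    have e3 := tail_up (F (s₀ \ T)) (m := m) hl hθ
    have e4 : exp ((θ - 1) * (l / (1 + l)) * (F (s₀ \ T)).card - m * log θ)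
        ≤ exp ((θ - 1) * (l / (1 + l)) * K - m * log θ) := by
      apply Real.exp_le_exp.2
      have h5 : (θ - 1) * (l / (1 + l)) * (F (s₀ \ T)).card ≤ (θ - 1) * (l / (1 + l)) * K :=
        mul_le_mul_of_nonneg_left (hK s₀ hs₀)
          (mul_nonneg (by linarith) (by positivity))
      linarith
    calc _ ≤ l ^ (s₀ \ T).card * ((1 + l) ^ (F (s₀ \ T)).card *
          exp ((θ - 1) * (l / (1 + l)) * (F (s₀ \ T)).card - m * log θ)) :=
            mul_le_mul_of_nonneg_left e3 (by positivity)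
      _ ≤ l ^ (s₀ \ T).card * ((1 + l) ^ (F (s₀ \ T)).card *
          exp ((θ - 1) * (l / (1 + l)) * K - m * log θ)) := by gcongr
      _ = _ := by ring
  refine (sum_le_sum hfib).trans ?_
  rw [← mul_sum]
  refine mul_le_mul_of_nonneg_left ?_ (Real.exp_nonneg _)
  rw [sum_sigma']
  have hinj : Set.InjOn (fun a : (_ : Finset (V d)) × Finset (V d) => a.1 ∪ a.2)
      (R.sigma fun r => (F r).powerset : Finset ((_ : Finset (V d)) × Finset (V d))) := by
    rintro ⟨r, B⟩ ha ⟨r', B'⟩ hb hab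
    simp only [coe_sigma, Set.mem_sigma_iff, mem_coe, mem_powerset] at ha hb
    obtain ⟨s, hs, hsr⟩ := mem_image.1 ha.1
    obtain ⟨s', hs', hsr'⟩ := mem_image.1 hb.1
    have h1 : ∀ u ∈ r, u ∉ T := by intro u hu; rw [← hsr] at hu; exact (mem_sdiff.1 hu).2
    have h1' : ∀ u ∈ r', u ∉ T := by intro u hu; rw [← hsr'] at hu; exact (mem_sdiff.1 hu).2
    have h2 : ∀ u ∈ B, u ∈ T := fun u hu => (mem_filter.1 (ha.2 hu)).1
    have h2' : ∀ u ∈ B', u ∈ T := fun u hu => (mem_filter.1 (hb.2 hu)).1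
    have hab' : r ∪ B = r' ∪ B' := hab
    have hr : r = r' := by
      ext u
      have h3 : u ∈ r ∪ B ↔ u ∈ r' ∪ B' := by rw [hab']
      rw [mem_union, mem_union] at h3
      constructor
      · intro hu
        rcases h3.1 (Or.inl hu) with h | h
        · exact h
        · exact absurd (h2' u h) (h1 u hu)
      · intro hu
        rcases h3.2 (Or.inl hu) with h | h
        · exact h
        · exact absurd (h2 u h) (h1' u hu)
    have hB : B = B' := by
      ext u
      have h3 : u ∈ r ∪ B ↔ u ∈ r' ∪ B' := by rw [hab']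
      rw [mem_union, mem_union] at h3
      constructor
      · intro hu
        rcases h3.1 (Or.inr hu) with h | h
        · exact absurd (h2 u hu) (h1' u h)
        · exact h
      · intro hu
        rcases h3.2 (Or.inr hu) with h | h
        · exact absurd (h2' u hu) (h1 u h)
        · exact h
    subst hr; subst hB; rfl
  rw [← sum_image (f := fun s : Finset (V d) => l ^ s.card) hinj]
  refine sum_le_sum_of_subset_of_nonneg ?_ fun _ _ _ => by positivity
  intro t ht
  obtain ⟨⟨r, B⟩, ha, rfl⟩ := mem_image.1 ht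
  rw [mem_sigma, mem_powerset] at ha
  obtain ⟨s, hs, hsr⟩ := mem_image.1 ha.1
  simp only at ha hsr
  subst hsr
  exact hS' s hs B ha.2

end Pool.Agent.Lib.MP_c6118e_pr
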