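import Pool.Agent.Lib.MP_c6118e_pr.Basic

/-! # MP_c6118e_pr, module FINN: Finner's inequality on the cube `{0,1}^E` -/

namespace Pool.Agent.Lib.MP_c6118e_pr

open Finset Real

/-- two-point inequality -/
theorem finn_two_point {κ : Type*} (O : Finset κ) (d : ℕ) (hd : 0 < d) (hO : O.card = d)
    (x y : κ → ℝ) (hx : ∀ v, 0 ≤ x v) (hy : ∀ v, 0 ≤ y v) :
    ∏ v ∈ O, (x v) ^ (1 / d : ℝ) + ∏ v ∈ O, (y v) ^ (1 / d : ℝ)
      ≤ ∏ v ∈ O, (x v + y v) ^ (1 / d : ℝ) := by
  have hd' : (0 : ℝ) < d := by exact_mod_cast hd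
  have hdd : (1 / d : ℝ) ≠ 0 := by positivity
  by_cases h : ∃ v ∈ O, x v + y v = 0
  · obtain ⟨v, hv, h0⟩ := h
    have hx0 : x v = 0 := by linarith [hx v, hy v]
    have hy0 : y v = 0 := by linarith [hx v, hy v]
    rw [prod_eq_zero hv (by rw [hx0, zero_rpow hdd]), prod_eq_zero hv (by rw [hy0, zero_rpow hdd]),
      prod_eq_zero hv (by rw [h0, zero_rpow hdd])]
    simp
  · push Not at h
    have hpos : ∀ v ∈ O, 0 < x v + y v := fun v hv =>
      lt_of_le_of_ne (add_nonneg (hx v) (hy v)) (Ne.symm (h v hv))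
    have key : ∀ z : κ → ℝ, (∀ v, 0 ≤ z v) →
        ∏ v ∈ O, (z v) ^ (1 / d : ℝ)
          ≤ (∑ v ∈ O, (1 / d : ℝ) * (z v / (x v + y v))) * ∏ v ∈ O, (x v + y v) ^ (1 / d : ℝ) := by
      intro z hz
      have h1 : ∏ v ∈ O, (z v / (x v + y v)) ^ (1 / d : ℝ)
          ≤ ∑ v ∈ O, (1 / d : ℝ) * (z v / (x v + y v)) := by
        apply Real.geom_mean_le_arith_mean_weighted O (fun _ => (1 / d : ℝ))
          (fun v => z v / (x v + y v))
        · intro i _; positivity
        · rw [sum_const, hO, nsmul_eq_mul]; field_simp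
        · intro i hi; exact div_nonneg (hz i) (hpos i hi).le
      have h2 : ∏ v ∈ O, (z v) ^ (1 / d : ℝ)
          = (∏ v ∈ O, (z v / (x v + y v)) ^ (1 / d : ℝ)) * ∏ v ∈ O, (x v + y v) ^ (1 / d : ℝ) := by
        rw [← prod_mul_distrib]
        apply prod_congr rfl
        intro v hv
        rw [← mul_rpow (div_nonneg (hz v) (hpos v hv).le) (hpos v hv).le,
          div_mul_cancel₀ _ (hpos v hv).ne']
      rw [h2]
      exact mul_le_mul_of_nonneg_right h1 (prod_nonneg fun v hv => rpow_nonneg (hpos v hv).le _)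
    have h3 := add_le_add (key x hx) (key y hy)
    refine h3.trans (le_of_eq ?_)
    rw [← add_mul, ← sum_add_distrib]
    have h4 : ∑ v ∈ O, ((1 / d : ℝ) * (x v / (x v + y v)) + (1 / d : ℝ) * (y v / (x v + y v))) = 1 := by
      have : ∀ v ∈ O, ((1 / d : ℝ) * (x v / (x v + y v)) + (1 / d : ℝ) * (y v / (x v + y v)))
          = 1 / d := by
        intro v hv
        rw [← mul_add, ← add_div, div_self (hpos v hv).ne', mul_one]
      rw [sum_congr rfl this, sum_const, hO, nsmul_eq_mul]; field_simp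
    rw [h4, one_mul]

/-- **FINN** (Finner's inequality on the cube `{0,1}^E`) -/
theorem finner {ι κ : Type*} [DecidableEq ι] [DecidableEq κ] (O : Finset κ) (T : κ → Finset ι)
    (d : ℕ) (hd : 0 < d) (E : Finset ι) (hTE : ∀ v ∈ O, T v ⊆ E)
    (hT : ∀ e ∈ E, (O.filter fun v => e ∈ T v).card = d)
    (G : κ → Finset ι → ℝ) (hG : ∀ v B, 0 ≤ G v B) :
    ∑ A ∈ E.powerset, ∏ v ∈ O, (G v (A ∩ T v)) ^ (1 / d : ℝ)
      ≤ ∏ v ∈ O, (∑ B ∈ (T v).powerset, G v B) ^ (1 / d : ℝ) := by
  induction E using Finset.induction_on generalizing T G with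
  | empty =>
    rw [powerset_empty, sum_singleton]
    apply le_of_eq
    apply prod_congr rfl
    intro v hv
    have : T v = ∅ := subset_empty.1 (hTE v hv)
    rw [this]; simp
  | insert e E' he ih =>
    rw [sum_powerset_insert he, ← sum_add_distrib]
    set T' : κ → Finset ι := fun v => (T v).erase e with hT'
    set G' : κ → Finset ι → ℝ := fun v B => if e ∈ T v then G v B + G v (insert e B) else G v B
      with hG'
    have hstep : ∀ A ∈ E'.powerset,
        ∏ v ∈ O, (G v (A ∩ T v)) ^ (1 / d : ℝ) + ∏ v ∈ O, (G v (insert e A ∩ T v)) ^ (1 / d : ℝ)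
          ≤ ∏ v ∈ O, (G' v (A ∩ T' v)) ^ (1 / d : ℝ) := by
      intro A hA
      rw [mem_powerset] at hA
      have heA : e ∉ A := fun h => he (hA h)
      have hAT : ∀ v, A ∩ T' v = A ∩ T v := by
        intro v; ext a
        simp only [hT', mem_inter, mem_erase]
        constructor
        · rintro ⟨h1, _, h2⟩; exact ⟨h1, h2⟩
        · rintro ⟨h1, h2⟩; exact ⟨h1, fun h => heA (h ▸ h1), h2⟩
      rw [← prod_filter_mul_prod_filter_not O (fun v => e ∈ T v)
          (fun v => (G v (A ∩ T v)) ^ (1 / d : ℝ)),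
        ← prod_filter_mul_prod_filter_not O (fun v => e ∈ T v)
          (fun v => (G v (insert e A ∩ T v)) ^ (1 / d : ℝ)),
        ← prod_filter_mul_prod_filter_not O (fun v => e ∈ T v)
          (fun v => (G' v (A ∩ T' v)) ^ (1 / d : ℝ))]
      have e1 : ∏ v ∈ O.filter (fun v => ¬ e ∈ T v), (G v (insert e A ∩ T v)) ^ (1 / d : ℝ)
          = ∏ v ∈ O.filter (fun v => ¬ e ∈ T v), (G v (A ∩ T v)) ^ (1 / d : ℝ) := by
        apply prod_congr rfl
        intro v hv
        rw [mem_filter] at hv
        rw [insert_inter_of_notMem hv.2]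
      have e2 : ∏ v ∈ O.filter (fun v => ¬ e ∈ T v), (G' v (A ∩ T' v)) ^ (1 / d : ℝ)
          = ∏ v ∈ O.filter (fun v => ¬ e ∈ T v), (G v (A ∩ T v)) ^ (1 / d : ℝ) := by
        apply prod_congr rfl
        intro v hv
        rw [mem_filter] at hv
        simp only [hG']
        rw [if_neg hv.2, hAT]
      have e3 : ∏ v ∈ O.filter (fun v => e ∈ T v), (G' v (A ∩ T' v)) ^ (1 / d : ℝ)
          = ∏ v ∈ O.filter (fun v => e ∈ T v),
            (G v (A ∩ T v) + G v (insert e A ∩ T v)) ^ (1 / d : ℝ) := by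
        apply prod_congr rfl
        intro v hv
        rw [mem_filter] at hv
        simp only [hG']
        rw [if_pos hv.2, hAT, insert_inter_of_mem hv.2]
      rw [e1, e2, e3, ← add_mul]
      apply mul_le_mul_of_nonneg_right
      · exact finn_two_point _ d hd (hT e (mem_insert_self _ _)) _ _ (fun v => hG _ _)
          (fun v => hG _ _)
      · exact prod_nonneg fun v _ => rpow_nonneg (hG _ _) _
    refine (sum_le_sum hstep).trans ((ih T' ?_ ?_ G' ?_).trans (le_of_eq ?_))
    · intro v hv a ha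
      rw [hT', mem_erase] at ha
      rcases mem_insert.1 (hTE v hv ha.2) with h | h
      · exact absurd h ha.1
      · exact h
    · intro e' he'
      rw [← hT e' (mem_insert_of_mem he')]
      congr 1
      apply filter_congr
      intro v _
      have hne : e' ≠ e := fun h => he (h ▸ he')
      simp [hT', mem_erase, hne]
    · intro v B
      simp only [hG']
      split_ifs
      · exact add_nonneg (hG _ _) (hG _ _)
      · exact hG _ _
    · apply prod_congr rfl
      intro v hv
      congr 1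
      by_cases hev : e ∈ T v
      · have h1 : T v = insert e (T' v) := (insert_erase hev).symm
        have h2 : e ∉ T' v := notMem_erase _ _
        conv_rhs => rw [h1]
        rw [sum_powerset_insert h2, ← sum_add_distrib]
        apply sum_congr rfl
        intro B _
        simp only [hG']
        rw [if_pos hev]
      · have h1 : T' v = T v := erase_eq_of_notMem hev
        rw [h1]
        apply sum_congr rfl
        intro B _
        simp only [hG']
        rw [if_neg hev]

end Pool.Agent.Lib.MP_c6118e_pr
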