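import Pool.Agent.Lib.MP_c6118e_pr.ZBD
import Pool.Agent.Lib.MP_c6118e_pr.CHER
import Pool.Agent.Lib.MP_c6118e_pr.BALL

/-!
# LBL: lower bound for large fugacity
-/

namespace Pool.Agent.Lib.MP_c6118e_pr

open Finset Real

theorem ten_thousand_le {d : ℕ} (hd : 24 ≤ d) : 10000 * d ≤ 2 ^ d := by
  induction d, hd using Nat.le_induction with
  | base => norm_num
  | succ n hn ih =>
    rw [pow_succ]
    omega

/-- the subsets of `A` with few points of parity `p` -/
theorem few_parity {d : ℕ} {l : ℝ} (hl : 0 < l) (A : Finset (V d)) (p : ZMod 2) (x : ℝ) :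
    ∑ B ∈ A.powerset.filter (fun B => (cnt p B : ℝ) ≤ x), l ^ B.card ≤
      (1 + l) ^ A.card * exp (x * log 2 - 1 / 2 * (l / (1 + l)) * cnt p A) := by
  classical
  set A1 := A.filter fun v => par v = p with hA1
  set A0 := A.filter fun v => ¬ par v = p with hA0
  have hcard : A.card = A1.card + A0.card := by
    rw [hA1, hA0, Finset.card_filter_add_card_filter_not]
  have h1 : ∑ B ∈ A.powerset.filter (fun B => (cnt p B : ℝ) ≤ x), l ^ B.card ≤
      ∑ q ∈ (A1.powerset.filter fun B => (B.card : ℝ) ≤ x) ×ˢ A0.powerset,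
        l ^ q.1.card * l ^ q.2.card := by
    have h2 : ∀ B ∈ A.powerset.filter (fun B => (cnt p B : ℝ) ≤ x), l ^ B.card =
        l ^ (B.filter fun v => par v = p).card * l ^ (B.filter fun v => ¬ par v = p).card := by
      intro B _
      rw [← pow_add, Finset.card_filter_add_card_filter_not]
    rw [Finset.sum_congr rfl h2,
      ← Finset.sum_image (s := A.powerset.filter (fun B => (cnt p B : ℝ) ≤ x))
      (g := fun B : Finset (V d) => (((B.filter fun v => par v = p),
        (B.filter fun v => ¬ par v = p)) : Finset (V d) × Finset (V d)))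
      (f := fun q => l ^ q.1.card * l ^ q.2.card)]
    · refine Finset.sum_le_sum_of_subset_of_nonneg ?_ fun _ _ _ => by positivity
      intro q hq
      rw [Finset.mem_image] at hq
      obtain ⟨B, hB, rfl⟩ := hq
      rw [Finset.mem_filter, Finset.mem_powerset] at hB
      rw [Finset.mem_product, Finset.mem_filter, Finset.mem_powerset, Finset.mem_powerset]
      exact ⟨⟨Finset.filter_subset_filter _ hB.1, hB.2⟩, Finset.filter_subset_filter _ hB.1⟩
    · intro B _ B' _ hBB
      have h3 := congrArg Prod.fst hBB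
      have h4 := congrArg Prod.snd hBB
      simp only at h3 h4
      rw [← Finset.filter_union_filter_not_eq (fun v => par v = p) B, h3, h4,
        Finset.filter_union_filter_not_eq]
  refine h1.trans ?_
  rw [Finset.sum_product]
  have h2 : ∀ B ∈ A1.powerset.filter (fun B => (B.card : ℝ) ≤ x),
      ∑ C ∈ A0.powerset, l ^ (B, C).1.card * l ^ (B, C).2.card = l ^ B.card * (1 + l) ^ A0.card := by
    intro B _
    show ∑ C ∈ A0.powerset, l ^ B.card * l ^ C.card = _
    rw [← Finset.mul_sum, sum_pow_card]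
  rw [Finset.sum_congr rfl h2, ← Finset.sum_mul]
  have h3 := bin_low A1 (l := l) (θ := 1 / 2) (m := x) hl (by norm_num) (by norm_num)
  calc (∑ B ∈ A1.powerset.filter (fun B => (B.card : ℝ) ≤ x), l ^ B.card) * (1 + l) ^ A0.card
      ≤ ((1 + l) ^ A1.card * exp ((1 / 2 - 1) * (l / (1 + l)) * A1.card - x * log (1 / 2))) *
          (1 + l) ^ A0.card := mul_le_mul_of_nonneg_right h3 (by positivity)
    _ = (1 + l) ^ A.card * exp (x * log 2 - 1 / 2 * (l / (1 + l)) * cnt p A) := by
        rw [hcard, pow_add, one_div, Real.log_inv]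
        have h4 : (cnt p A : ℝ) = A1.card := rfl
        rw [h4, show ((2 : ℝ)⁻¹ - 1) * (l / (1 + l)) * A1.card - x * -log 2 =
          x * log 2 - 2⁻¹ * (l / (1 + l)) * A1.card by ring]
        ring

/-- **LBL** -/
theorem lower_large : ∃ c : ℝ, ∃ d₀ : ℕ, 0 < c ∧ ∀ d ≥ d₀, ∀ l : ℝ, 1 / √d ≤ l →
    exp (-(c * (log (1 + l) / √d) * 2 ^ d)) * Zf d l ≤ Zx d l (1 / 10 * (l / (1 + l)) * 2 ^ d) := by
  classical
  refine ⟨3, 1000, by norm_num, ?_⟩
  intro d hd l hl'
  have hd0 : (1000 : ℝ) ≤ d := by exact_mod_cast hd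
  have hdpos : (0 : ℝ) < d := by linarith
  set r : ℝ := √d with hr
  have hr0 : 0 < r := Real.sqrt_pos.2 hdpos
  have hr1 : 1 ≤ r := by
    rw [hr]
    exact Real.one_le_sqrt.2 (by linarith)
  have hrr : r * r = d := Real.mul_self_sqrt hdpos.le
  have hl : 0 < l := lt_of_lt_of_le (by positivity) hl'
  set N : ℝ := 2 ^ d with hN
  have hN0 : 0 < N := by positivity
  -- `N` is large
  have hNd : 10000 * (d : ℝ) ≤ N := by
    have h1 : 10000 * d ≤ 2 ^ d := ten_thousand_le (by omega)
    rw [hN]
    exact_mod_cast h1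
  set p : ℝ := l / (1 + l) with hp
  have hp0 : 0 < p := by positivity
  have hpr : 1 / (2 * r) ≤ p := by
    rw [hp, div_le_div_iff₀ (by positivity) (by positivity)]
    rw [div_le_iff₀ hr0] at hl'
    nlinarith
  obtain ⟨A, hA, hAc, hAp⟩ := exists_A hd
  set x : ℝ := 1 / 10 * p * N with hx
  -- bad subsets
  have hlog2 : log 2 ≤ 0.6932 := by
    have := Real.log_two_lt_d9
    linarith
  have hlog2' : 0 < log 2 := Real.log_pos (by norm_num)
  have hpN : 1000 ≤ p * N := by
    have h1 : 1 / (2 * r) * (10000 * d) ≤ p * N :=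
      mul_le_mul hpr hNd (by positivity) hp0.le
    have h2 : 1 / (2 * r) * (10000 * d) = 5000 * r := by
      rw [← hrr]
      field_simp
      ring
    rw [h2] at h1
    linarith
  have hbad : ∀ q : ZMod 2, ∑ B ∈ A.powerset.filter (fun B => (cnt q B : ℝ) ≤ x), l ^ B.card ≤
      1 / 4 * (1 + l) ^ A.card := by
    intro q
    refine (few_parity hl A q x).trans ?_
    rw [mul_comm (1 / 4 : ℝ)]
    refine mul_le_mul_of_nonneg_left ?_ (by positivity)
    have h1 : x * log 2 - 1 / 2 * (l / (1 + l)) * cnt q A ≤ -3 := by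
      rw [← hp]
      have h2 : 1 / 2 * p * (2 / 10 * N) ≤ 1 / 2 * p * cnt q A :=
        mul_le_mul_of_nonneg_left (hAp q) (by positivity)
      have h3 : x * log 2 ≤ x * 0.6932 := mul_le_mul_of_nonneg_left hlog2 (by positivity)
      have h4 : x = 1 / 10 * (p * N) := by rw [hx]; ring
      have h5 : 1 / 2 * p * (2 / 10 * N) = 1 / 10 * (p * N) := by ring
      rw [h4] at h3 ⊢
      linarith
    calc exp (x * log 2 - 1 / 2 * (l / (1 + l)) * cnt q A) ≤ exp (-3) := Real.exp_le_exp.2 h1
      _ ≤ 1 / 4 := by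
        rw [Real.exp_neg, one_div]
        apply inv_anti₀ (by norm_num)
        have := Real.add_one_le_exp (3 : ℝ)
        linarith
  -- good subsets
  have hgood : 1 / 2 * (1 + l) ^ A.card ≤ Zx d l x := by
    have h1 : ∑ B ∈ A.powerset, l ^ B.card = (1 + l) ^ A.card := sum_pow_card A l
    have h2 : ∑ B ∈ A.powerset, l ^ B.card ≤
        ∑ B ∈ A.powerset.filter (fun B => x < (cnt 0 B : ℝ) ∧ x < (cnt 1 B : ℝ)), l ^ B.card +
        (∑ B ∈ A.powerset.filter (fun B => (cnt 0 B : ℝ) ≤ x), l ^ B.card +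
        ∑ B ∈ A.powerset.filter (fun B => (cnt 1 B : ℝ) ≤ x), l ^ B.card) := by
      rw [Finset.sum_filter, Finset.sum_filter, Finset.sum_filter, ← Finset.sum_add_distrib,
        ← Finset.sum_add_distrib]
      refine Finset.sum_le_sum fun B _ => ?_
      have h3 : 0 ≤ l ^ B.card := by positivity
      by_cases ha : (cnt 0 B : ℝ) ≤ x
      · rw [if_neg (fun h => absurd h.1 (not_lt.2 ha)), if_pos ha]
        split_ifs <;> linarith
      · by_cases hb : (cnt 1 B : ℝ) ≤ x
        · rw [if_neg (fun h => absurd h.2 (not_lt.2 hb)), if_neg ha, if_pos hb]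
          linarith
        · rw [if_pos ⟨not_le.1 ha, not_le.1 hb⟩, if_neg ha, if_neg hb]
          linarith
    have h3 : ∑ B ∈ A.powerset.filter (fun B => x < (cnt 0 B : ℝ) ∧ x < (cnt 1 B : ℝ)),
        l ^ B.card ≤ Zx d l x := by
      unfold Zx
      refine Finset.sum_le_sum_of_subset_of_nonneg ?_ fun _ _ _ => by positivity
      intro B hB
      rw [Finset.mem_filter, Finset.mem_powerset] at hB
      rw [mem_Bx]
      exact ⟨hA.mono hB.1, hB.2⟩
    have h4 := hbad 0
    have h5 := hbad 1
    rw [h1] at h2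
    linarith
  -- comparison with `Zf`
  obtain ⟨k, hk⟩ : ∃ k, d = k + 1 := ⟨d - 1, by omega⟩
  have hZ := Zf_le (d := d) (by omega) hl
  set M : ℕ := 2 ^ (d - 1) with hM
  have hMN : (M : ℝ) = N / 2 := by
    rw [hM, hN, hk]
    simp only [Nat.add_sub_cancel]
    push_cast
    rw [pow_succ]
    ring
  set a : ℝ := log (1 + l) with ha
  have ha0 : 0 < a := Real.log_pos (by linarith)
  have hpow : ∀ n : ℕ, (1 + l) ^ n = exp (n * a) := by
    intro n
    rw [Real.exp_nat_mul, ha, Real.exp_log (by linarith)]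
  have hage : 1 / (2 * r) ≤ a := by
    have h1 : 1 / (1 + 1 / l) ≤ a := by
      have h2 := Real.one_sub_inv_le_log_of_pos (show 0 < 1 + l by linarith)
      refine le_trans (le_of_eq ?_) h2
      field_simp
      ring
    refine le_trans ?_ h1
    have h3 : 1 / l ≤ r := by
      rw [div_le_iff₀ hl]
      rw [div_le_iff₀ hr0] at hl'
      linarith
    apply one_div_le_one_div_of_le (by positivity)
    linarith
  refine le_trans ?_ hgood
  calc exp (-(3 * (a / r) * N)) * Zf d l
      ≤ exp (-(3 * (a / r) * N)) * ((1 + l) ^ M * exp (log 2 * 2 ^ d / (2 * d))) :=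
        mul_le_mul_of_nonneg_left hZ (Real.exp_pos _).le
    _ = exp (-(3 * (a / r) * N) + (M * a + log 2 * N / (2 * d))) := by
        rw [hpow, Real.exp_add, Real.exp_add]
    _ ≤ exp (-log 2 + A.card * a) := by
        apply Real.exp_le_exp.2
        rw [hMN]
        have h1 : (N / 2 - N / r) * a ≤ A.card * a := mul_le_mul_of_nonneg_right hAc ha0.le
        have h2 : 1 / (2 * r) * (N / r) ≤ a * (N / r) :=
          mul_le_mul_of_nonneg_right hage (by positivity)
        have h3 : 1 / (2 * r) * (N / r) = N / (2 * d) := by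
          rw [← hrr]
          field_simp
        rw [h3] at h2
        have h4 : log 2 * N / (2 * d) ≤ 0.6932 * (N / (2 * d)) := by
          rw [mul_div_assoc]
          exact mul_le_mul_of_nonneg_right hlog2 (by positivity)
        have h5 : 1 ≤ N / (2 * d) := by
          rw [le_div_iff₀ (by positivity)]
          linarith
        have h6 : a / r * N = a * (N / r) := by ring
        have h7 : (N / 2 - N / r) * a = N / 2 * a - a * (N / r) := by ring
        rw [h7] at h1
        rw [show 3 * (a / r) * N = 3 * (a / r * N) by ring, h6]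
        linarith
    _ = 1 / 2 * (1 + l) ^ A.card := by
        rw [hpow, Real.exp_add, Real.exp_neg, Real.exp_log (by norm_num)]
        norm_num

end Pool.Agent.Lib.MP_c6118e_pr
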