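import Pool.Agent.Lib.MP_c6118e_pr.Basic

/-!
# MARG: marginals, symmetry, removal
-/

namespace Pool.Agent.Lib.MP_c6118e_pr

open Finset Real

/-- **MARG** -/
theorem marg {d : ℕ} {l : ℝ} (hl : 0 < l) (v : V d) :
    ∑ s ∈ (Om d).filter (fun s => v ∈ s), l ^ s.card ≤ l / (1 + l) * Zf d l := by
  classical
  set Z1 := ∑ s ∈ (Om d).filter (fun s => v ∈ s), l ^ s.card with hZ1
  set Z0 := ∑ s ∈ (Om d).filter (fun s => v ∉ s), l ^ s.card with hZ0
  have h1 : Zf d l = Z1 + Z0 := by
    unfold Zf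
    rw [hZ1, hZ0, Finset.sum_filter_add_sum_filter_not]
  have h2 : Z1 ≤ l * Z0 := by
    have h3 : Z1 = l * ∑ s ∈ (Om d).filter (fun s => v ∈ s), l ^ (s.erase v).card := by
      rw [hZ1, Finset.mul_sum]
      refine Finset.sum_congr rfl fun s hs => ?_
      have hv := (Finset.mem_filter.1 hs).2
      rw [← Finset.card_erase_add_one hv, pow_succ]
      ring
    rw [h3]
    refine mul_le_mul_of_nonneg_left ?_ hl.le
    rw [hZ0, ← Finset.sum_image (s := (Om d).filter (fun s => v ∈ s))
      (g := fun s : Finset (V d) => s.erase v) (f := fun s => l ^ s.card)]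
    · refine Finset.sum_le_sum_of_subset_of_nonneg ?_ fun _ _ _ => by positivity
      intro r hr
      rw [Finset.mem_image] at hr
      obtain ⟨s, hs, rfl⟩ := hr
      rw [Finset.mem_filter, mem_Om] at hs ⊢
      exact ⟨hs.1.mono (Finset.erase_subset _ _), Finset.notMem_erase _ _⟩
    · intro s hs t ht hst
      have hs' := (Finset.mem_filter.1 (Finset.mem_coe.1 hs)).2
      have ht' := (Finset.mem_filter.1 (Finset.mem_coe.1 ht)).2
      have h4 : insert v (s.erase v) = insert v (t.erase v) := by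
        simp only at hst
        rw [hst]
      rwa [Finset.insert_erase hs', Finset.insert_erase ht'] at h4
  rw [h1, div_mul_eq_mul_div, le_div_iff₀ (by positivity)]
  nlinarith

/-- the reflection in direction `i` -/
def refl {d : ℕ} (i : Fin d) (s : Finset (V d)) : Finset (V d) := s.map ⟨nb i, nb_injective i⟩

theorem mem_refl {d : ℕ} {i : Fin d} {s : Finset (V d)} {v : V d} : v ∈ refl i s ↔ nb i v ∈ s := by
  unfold refl
  rw [Finset.mem_map]
  constructor
  · rintro ⟨w, hw, rfl⟩
    show nb i (nb i w) ∈ s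
    rwa [nb_nb]
  · intro h
    exact ⟨nb i v, h, nb_nb i v⟩

theorem card_refl {d : ℕ} (i : Fin d) (s : Finset (V d)) : (refl i s).card = s.card :=
  Finset.card_map _

theorem refl_refl {d : ℕ} (i : Fin d) (s : Finset (V d)) : refl i (refl i s) = s := by
  ext v
  rw [mem_refl, mem_refl, nb_nb]

theorem Ind.refl {d : ℕ} {s : Finset (V d)} (hs : Ind s) (i : Fin d) :
    Ind (MP_c6118e_pr.refl i s) := by
  intro v hv j hj
  rw [mem_refl] at hv hj
  rw [nb_comm] at hj
  exact hs _ hv j hj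

theorem cnt_refl {d : ℕ} (i : Fin d) (s : Finset (V d)) (p : ZMod 2) :
    cnt p (refl i s) = cnt (p + 1) s := by
  unfold cnt
  apply Finset.card_bij' (fun v _ => nb i v) (fun v _ => nb i v)
  · intro v hv
    rw [Finset.mem_filter, mem_refl] at hv
    rw [Finset.mem_filter]
    exact ⟨hv.1, by rw [par_nb, hv.2]⟩
  · intro v hv
    rw [Finset.mem_filter] at hv
    rw [Finset.mem_filter, mem_refl, nb_nb]
    exact ⟨hv.1, by rw [par_nb, hv.2, add_assoc, zmod2_add_self, add_zero]⟩
  · intro v _; exact nb_nb i v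
  · intro v _; exact nb_nb i v

theorem half {d : ℕ} (hd : 1 ≤ d) {l : ℝ} (hl : 0 < l) :
    Zf d l / 2 ≤ ∑ s ∈ (Om d).filter (fun s => cnt 1 s ≤ cnt 0 s), l ^ s.card := by
  have i0 : Fin d := ⟨0, hd⟩
  have h1 : ∑ s ∈ (Om d).filter (fun s => cnt 0 s ≤ cnt 1 s), l ^ s.card =
      ∑ s ∈ (Om d).filter (fun s => cnt 1 s ≤ cnt 0 s), l ^ s.card := by
    refine Finset.sum_nbij' (fun s => refl i0 s) (fun s => refl i0 s) ?_ ?_ ?_ ?_ ?_
    · intro s hs
      rw [Finset.mem_filter, mem_Om] at hs ⊢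
      refine ⟨hs.1.refl i0, ?_⟩
      rw [cnt_refl, cnt_refl, zmod2_add_self, zero_add]
      exact hs.2
    · intro s hs
      rw [Finset.mem_filter, mem_Om] at hs ⊢
      refine ⟨hs.1.refl i0, ?_⟩
      rw [cnt_refl, cnt_refl, zmod2_add_self, zero_add]
      exact hs.2
    · intro s _; exact refl_refl i0 s
    · intro s _; exact refl_refl i0 s
    · intro s _
      rw [card_refl]
  have h2 : Zf d l ≤ ∑ s ∈ (Om d).filter (fun s => cnt 0 s ≤ cnt 1 s), l ^ s.card +
      ∑ s ∈ (Om d).filter (fun s => cnt 1 s ≤ cnt 0 s), l ^ s.card := by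
    unfold Zf
    rw [← Finset.sum_filter_add_sum_filter_not (Om d) (fun s => cnt 0 s ≤ cnt 1 s)]
    refine add_le_add_right ?_ _
    refine Finset.sum_le_sum_of_subset_of_nonneg ?_ fun _ _ _ => by positivity
    intro s hs
    rw [Finset.mem_filter] at hs ⊢
    exact ⟨hs.1, by omega⟩
  linarith

theorem removal {d : ℕ} {l : ℝ} (hl : 0 < l) (S : Finset (V d)) (A : Finset (Finset (V d))) :
    ∑ s ∈ A, l ^ s.card ≤ (1 + l) ^ S.card * ∑ r ∈ A.image (fun s => s \ S), l ^ r.card := by
  classical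
  have h1 : ∑ s ∈ A, l ^ s.card = ∑ s ∈ A, l ^ (s \ S).card * l ^ (s ∩ S).card := by
    refine Finset.sum_congr rfl fun s _ => ?_
    rw [← pow_add, Finset.card_sdiff_add_card_inter]
  have h2 : ∑ s ∈ A, l ^ (s \ S).card * l ^ (s ∩ S).card ≤
      ∑ p ∈ (A.image (fun s => s \ S)) ×ˢ S.powerset, l ^ p.1.card * l ^ p.2.card := by
    rw [← Finset.sum_image (s := A)
      (g := fun s : Finset (V d) => ((s \ S, s ∩ S) : Finset (V d) × Finset (V d)))
      (f := fun p => l ^ p.1.card * l ^ p.2.card)]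
    · refine Finset.sum_le_sum_of_subset_of_nonneg ?_ fun _ _ _ => by positivity
      intro p hp
      rw [Finset.mem_image] at hp
      obtain ⟨s, hs, rfl⟩ := hp
      rw [Finset.mem_product]
      exact ⟨Finset.mem_image_of_mem _ hs, Finset.mem_powerset.2 Finset.inter_subset_right⟩
    · intro s _ t _ hst
      have h3 := congrArg Prod.fst hst
      have h4 := congrArg Prod.snd hst
      simp only at h3 h4
      rw [← Finset.sdiff_union_inter s S, h3, h4, Finset.sdiff_union_inter]
  rw [h1]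
  refine h2.trans (le_of_eq ?_)
  rw [Finset.sum_product, Finset.mul_sum]
  refine Finset.sum_congr rfl fun r _ => ?_
  show ∑ B ∈ S.powerset, l ^ r.card * l ^ B.card = _
  rw [← Finset.mul_sum, sum_pow_card, mul_comm]

end Pool.Agent.Lib.MP_c6118e_pr
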