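import Pool.Agent.Lib.MP_c6118e_pr.ZBD

/-!
# MASS: configurations with few occupied vertices
-/

namespace Pool.Agent.Lib.MP_c6118e_pr

open Finset Real

theorem two_pow_ge {d : ℕ} (hd : 20 ≤ d) : 40 * d ≤ 2 ^ (d - 1) := by
  induction d, hd using Nat.le_induction with
  | base => norm_num
  | succ d hd ih =>
    obtain ⟨k, rfl⟩ : ∃ k, d = k + 1 := ⟨d - 1, by omega⟩
    simp only [Nat.add_sub_cancel] at ih ⊢
    rw [pow_succ]
    omega

theorem log_ratio_le : log (20 / 19) ≤ 0.0514 := by
  rw [Real.log_le_iff_le_exp (by norm_num)]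
  have h := Real.quadratic_le_exp_of_nonneg (show (0 : ℝ) ≤ 0.0514 by norm_num)
  refine le_trans ?_ h
  norm_num

/-- **MASS** -/
theorem small_mass {d : ℕ} (hd : 20 ≤ d) {l : ℝ} (hl : 0 < l) (h : 250 ≤ l / (1 + l) * d) :
    ∑ s ∈ (Om d).filter (fun s => (s.card : ℝ) ≤ 9 / 10 * (l / (1 + l)) * 2 ^ d / 2), l ^ s.card
      ≤ 1 / 10 * Zf d l := by
  set p : ℝ := l / (1 + l) with hp
  have hp0 : 0 < p := by positivity
  set θ : ℝ := 19 / 20 with hθ
  have hθ0 : 0 < θ := by norm_num
  have hd0 : (0 : ℝ) < d := by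
    have : (20 : ℝ) ≤ d := by exact_mod_cast hd
    linarith
  obtain ⟨k, hk⟩ : ∃ k, d = k + 1 := ⟨d - 1, by omega⟩
  set M : ℕ := 2 ^ (d - 1) with hM
  have hMd : (2 : ℝ) ^ d = 2 * M := by
    rw [hM, hk]
    simp only [Nat.add_sub_cancel]
    push_cast
    rw [pow_succ]
    ring
  have hM40 : 40 * (d : ℝ) ≤ M := by exact_mod_cast two_pow_ge hd
  have hM0 : (0 : ℝ) < M := by linarith
  set m : ℝ := 9 / 10 * p * 2 ^ d / 2 with hm
  have hmM : m = 9 / 10 * p * M := by rw [hm, hMd]; ring
  -- tilting
  have h1 : ∑ s ∈ (Om d).filter (fun s => (s.card : ℝ) ≤ m), l ^ s.card ≤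
      exp (m * log (20 / 19)) * Zf d (θ * l) := by
    have h2 : ∀ s ∈ (Om d).filter (fun s => (s.card : ℝ) ≤ m), l ^ s.card ≤
        exp (m * log (20 / 19)) * (θ * l) ^ s.card := by
      intro s hs
      have hsm := (Finset.mem_filter.1 hs).2
      have h3 : (1 : ℝ) ≤ exp (m * log (20 / 19)) * θ ^ s.card := by
        have h4 : θ ^ s.card = exp (-(s.card * log (20 / 19))) := by
          rw [show -((s.card : ℝ) * log (20 / 19)) = s.card * log θ by
            rw [show (20 / 19 : ℝ) = θ⁻¹ by norm_num [hθ], Real.log_inv]; ring,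
            Real.exp_nat_mul, Real.exp_log hθ0]
        rw [h4, ← Real.exp_add]
        apply Real.one_le_exp
        have h5 : 0 ≤ log (20 / 19 : ℝ) := Real.log_nonneg (by norm_num)
        nlinarith
      rw [mul_pow, ← mul_assoc]
      calc l ^ s.card = 1 * l ^ s.card := (one_mul _).symm
        _ ≤ exp (m * log (20 / 19)) * θ ^ s.card * l ^ s.card :=
          mul_le_mul_of_nonneg_right h3 (by positivity)
    refine (Finset.sum_le_sum h2).trans ?_
    rw [← Finset.mul_sum]
    refine mul_le_mul_of_nonneg_left ?_ (Real.exp_pos _).le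
    unfold Zf
    exact Finset.sum_le_sum_of_subset_of_nonneg (Finset.filter_subset _ _)
      fun _ _ _ => by positivity
  have h2 := Zf_le (d := d) (by omega) (show 0 < θ * l by positivity)
  have h3 := Zf_ge (d := d) (by omega) hl
  have h4 : (1 + θ * l) ^ M ≤ (1 + l) ^ M * exp (-(p / 20 * M)) := by
    have h5 : (1 + θ * l) = (1 + l) * (1 - p / 20) := by
      rw [hp, hθ]
      field_simp
      ring
    rw [h5, mul_pow]
    refine mul_le_mul_of_nonneg_left ?_ (by positivity)
    have h6 : 1 - p / 20 ≤ exp (-(p / 20)) := by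
      have := Real.add_one_le_exp (-(p / 20))
      linarith
    have h7 : 0 ≤ 1 - p / 20 := by
      have : p ≤ 1 := by
        rw [hp, div_le_one (by positivity)]
        linarith
      linarith
    calc (1 - p / 20) ^ M ≤ (exp (-(p / 20))) ^ M := pow_le_pow_left₀ h7 h6 M
      _ = exp (-(p / 20 * M)) := by
        rw [← Real.exp_nat_mul]
        congr 1
        ring
  refine h1.trans ?_
  calc exp (m * log (20 / 19)) * Zf d (θ * l)
      ≤ exp (m * log (20 / 19)) * ((1 + θ * l) ^ M * exp (log 2 * 2 ^ d / (2 * d))) :=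
        mul_le_mul_of_nonneg_left h2 (Real.exp_pos _).le
    _ ≤ exp (m * log (20 / 19)) * ((1 + l) ^ M * exp (-(p / 20 * M)) *
          exp (log 2 * 2 ^ d / (2 * d))) := by
        refine mul_le_mul_of_nonneg_left ?_ (Real.exp_pos _).le
        exact mul_le_mul_of_nonneg_right h4 (Real.exp_pos _).le
    _ = exp (m * log (20 / 19) - p / 20 * M + log 2 * 2 ^ d / (2 * d)) * (1 + l) ^ M := by
        rw [sub_eq_add_neg, Real.exp_add, Real.exp_add]
        ring
    _ ≤ 1 / 10 * (1 + l) ^ M := by
        refine mul_le_mul_of_nonneg_right ?_ (by positivity)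
        have h5 := log_ratio_le
        have h6 : log 2 ≤ 0.6932 := by
          have := Real.log_two_lt_d9
          linarith
        have h7 : log 2 * 2 ^ d / (2 * d) ≤ 0.6932 * (p / 250) * M := by
          rw [hMd, div_le_iff₀ (by positivity)]
          have h8 : 1 ≤ p / 250 * d := by linarith
          calc log 2 * (2 * M) ≤ 0.6932 * (2 * M) :=
                mul_le_mul_of_nonneg_right h6 (by positivity)
            _ = 0.6932 * (2 * M) * 1 := by ring
            _ ≤ 0.6932 * (2 * M) * (p / 250 * d) :=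
                mul_le_mul_of_nonneg_left h8 (by positivity)
            _ = 0.6932 * (p / 250) * M * (2 * d) := by ring
        have h8 : m * log (20 / 19) ≤ 9 / 10 * 0.0514 * (p * M) := by
          rw [hmM]
          have h9 : 0 ≤ 9 / 10 * p * M := by positivity
          calc 9 / 10 * p * M * log (20 / 19) ≤ 9 / 10 * p * M * 0.0514 :=
                mul_le_mul_of_nonneg_left h5 h9
            _ = 9 / 10 * 0.0514 * (p * M) := by ring
        have h9 : 10000 ≤ p * M := by
          calc (10000 : ℝ) = 250 * 40 := by norm_num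
            _ ≤ (p * d) * 40 := by linarith
            _ = p * (40 * d) := by ring
            _ ≤ p * M := mul_le_mul_of_nonneg_left hM40 hp0.le
        have h10 : m * log (20 / 19) - p / 20 * M + log 2 * 2 ^ d / (2 * d) ≤ -9 := by
          nlinarith
        have h11 : exp (m * log (20 / 19) - p / 20 * M + log 2 * 2 ^ d / (2 * d)) ≤ exp (-9) :=
          Real.exp_le_exp.2 h10
        refine h11.trans ?_
        rw [Real.exp_neg, one_div]
        apply inv_anti₀ (by norm_num)
        have := Real.add_one_le_exp (9 : ℝ)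
        linarith
    _ ≤ 1 / 10 * Zf d l := by
        refine mul_le_mul_of_nonneg_left h3 (by norm_num)

end Pool.Agent.Lib.MP_c6118e_pr
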