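import Pool.Agent.Lib.MP_c6118e_pr.SUCC
import Pool.Agent.Lib.MP_c6118e_pr.MARG
import Pool.Agent.Lib.MP_c6118e_pr.MASS

/-! LBS: lower bound for small `l` -/

namespace Pool.Agent.Lib.MP_c6118e_pr

open Finset Real

/-- expected number of occupied vertices in a set -/
theorem mean_le {n : ℕ} {l : ℝ} (hl : 0 < l) (S : Finset (V n)) :
    ∑ s ∈ Om n, l ^ s.card * ((s ∩ S).card : ℝ) ≤ S.card * (l / (1 + l) * Zf n l) := by
  have h1 : ∀ s : Finset (V n), ((s ∩ S).card : ℝ) = ∑ v ∈ S, if v ∈ s then (1 : ℝ) else 0 := by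
    intro s
    rw [sum_boole, inter_comm]
    congr 2
  calc ∑ s ∈ Om n, l ^ s.card * ((s ∩ S).card : ℝ)
      = ∑ s ∈ Om n, ∑ v ∈ S, (if v ∈ s then l ^ s.card else 0) := by
        apply sum_congr rfl
        intro s _
        rw [h1, mul_sum]
        apply sum_congr rfl
        intro v _
        split_ifs <;> simp
    _ = ∑ v ∈ S, ∑ s ∈ (Om n).filter (fun s => v ∈ s), l ^ s.card := by
        rw [sum_comm]
        apply sum_congr rfl
        intro v _
        rw [sum_filter]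
    _ ≤ ∑ _v ∈ S, l / (1 + l) * Zf n l := sum_le_sum fun v _ => marg hl v
    _ = S.card * (l / (1 + l) * Zf n l) := by rw [sum_const, nsmul_eq_mul]

/-- Markov's inequality -/
theorem markov {n : ℕ} {l : ℝ} (hl : 0 < l) (S : Finset (V n)) :
    ∑ s ∈ (Om n).filter (fun s => ¬ ((s ∩ S).card : ℝ) ≤ 10 * (l / (1 + l)) * S.card), l ^ s.card
      ≤ 1 / 10 * Zf n l := by
  have hl' : 0 < l / (1 + l) := by positivity
  by_cases hS : S.card = 0
  · have : (Om n).filter (fun s => ¬ ((s ∩ S).card : ℝ) ≤ 10 * (l / (1 + l)) * S.card) = ∅ := by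
      rw [filter_eq_empty_iff]
      intro s _
      rw [card_eq_zero] at hS
      subst hS
      simp
    rw [this, sum_empty]
    have := (Zf_pos (d := n) hl).le
    positivity
  · have hS' : (0 : ℝ) < S.card := by exact_mod_cast Nat.pos_of_ne_zero hS
    have h1 : 10 * (l / (1 + l)) * S.card *
        ∑ s ∈ (Om n).filter (fun s => ¬ ((s ∩ S).card : ℝ) ≤ 10 * (l / (1 + l)) * S.card),
          l ^ s.card ≤ S.card * (l / (1 + l) * Zf n l) := by
      have h00 : ∑ s ∈ (Om n).filter (fun s => ¬ ((s ∩ S).card : ℝ) ≤ 10 * (l / (1 + l)) * S.card),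
          l ^ s.card * ((s ∩ S).card : ℝ) ≤ ∑ s ∈ Om n, l ^ s.card * ((s ∩ S).card : ℝ) :=
        sum_le_sum_of_subset_of_nonneg (filter_subset _ _) fun s _ _ => by positivity
      refine le_trans ?_ (h00.trans (mean_le hl S))
      rw [mul_sum]
      apply sum_le_sum
      intro s hs
      rw [mem_filter, not_le] at hs
      rw [mul_comm]
      exact mul_le_mul_of_nonneg_left hs.2.le (by positivity)
    have h2 : 0 < 10 * (l / (1 + l)) * S.card := by positivity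
    have h3 : S.card * (l / (1 + l) * Zf n l) = 10 * (l / (1 + l)) * S.card * (1 / 10 * Zf n l) := by
      ring
    rw [h3] at h1
    exact le_of_mul_le_mul_left h1 h2

/-- the set of good configurations has a large weight -/
theorem good_weight {n : ℕ} (hn : 20 ≤ n) {l : ℝ} (hl : 0 < l) (h : 250 ≤ l / (1 + l) * n)
    (S : Finset (V n)) :
    3 / 10 * Zf n l ≤ ∑ s ∈ (Om n).filter (fun s => cnt 1 s ≤ cnt 0 s ∧
      9 / 10 * (l / (1 + l)) * 2 ^ n / 2 < (s.card : ℝ) ∧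
      ((s ∩ S).card : ℝ) ≤ 10 * (l / (1 + l)) * S.card), l ^ s.card := by
  have h1 := half (d := n) (by omega) hl
  have h2 := small_mass hn hl h
  have h3 := markov hl S
  have h4 : ∑ s ∈ (Om n).filter (fun s => cnt 1 s ≤ cnt 0 s), l ^ s.card
      ≤ ∑ s ∈ (Om n).filter (fun s => cnt 1 s ≤ cnt 0 s ∧
          9 / 10 * (l / (1 + l)) * 2 ^ n / 2 < (s.card : ℝ) ∧
          ((s ∩ S).card : ℝ) ≤ 10 * (l / (1 + l)) * S.card), l ^ s.card
        + ∑ s ∈ (Om n).filter (fun s => (s.card : ℝ) ≤ 9 / 10 * (l / (1 + l)) * 2 ^ n / 2),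
            l ^ s.card
        + ∑ s ∈ (Om n).filter (fun s => ¬ ((s ∩ S).card : ℝ) ≤ 10 * (l / (1 + l)) * S.card),
            l ^ s.card := by
    simp only [sum_filter]
    rw [← sum_add_distrib, ← sum_add_distrib]
    apply sum_le_sum
    intro s _
    have hp : 0 < l ^ s.card := by positivity
    by_cases a : cnt 1 s ≤ cnt 0 s
    · by_cases b : (s.card : ℝ) ≤ 9 / 10 * (l / (1 + l)) * 2 ^ n / 2
      · rw [if_pos a, if_pos b]
        have := ite_nonneg (p := cnt 1 s ≤ cnt 0 s ∧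
          9 / 10 * (l / (1 + l)) * 2 ^ n / 2 < (s.card : ℝ) ∧
          ((s ∩ S).card : ℝ) ≤ 10 * (l / (1 + l)) * S.card) hp.le le_rfl
        have := ite_nonneg (p := ¬ ((s ∩ S).card : ℝ) ≤ 10 * (l / (1 + l)) * S.card) hp.le le_rfl
        linarith
      · rw [if_pos a, if_neg b]
        rw [not_le] at b
        by_cases c : ((s ∩ S).card : ℝ) ≤ 10 * (l / (1 + l)) * S.card
        · rw [if_pos ⟨a, b, c⟩, if_neg (not_not.2 c)]
          simp
        · rw [if_pos c, if_neg (fun h => c h.2.2)]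
          simp
    · rw [if_neg a]
      have := ite_nonneg (p := cnt 1 s ≤ cnt 0 s ∧
          9 / 10 * (l / (1 + l)) * 2 ^ n / 2 < (s.card : ℝ) ∧
          ((s ∩ S).card : ℝ) ≤ 10 * (l / (1 + l)) * S.card) hp.le le_rfl
      have := ite_nonneg (p := ¬ ((s ∩ S).card : ℝ) ≤ 10 * (l / (1 + l)) * S.card) hp.le le_rfl
      have := ite_nonneg (p := (s.card : ℝ) ≤ 9 / 10 * (l / (1 + l)) * 2 ^ n / 2) hp.le le_rfl
      linarith
  linarith

theorem half_card_le {n : ℕ} {s : Finset (V n)} (h : cnt 1 s ≤ cnt 0 s) :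
    (s.card : ℝ) / 2 ≤ cnt 0 s := by
  have h1 := cnt_add s
  have h2 : s.card ≤ 2 * cnt 0 s := by omega
  have h3 : (s.card : ℝ) ≤ 2 * cnt 0 s := by exact_mod_cast h2
  linarith

theorem cnt_sdiff_ge {n : ℕ} (s S : Finset (V n)) (p : ZMod 2) :
    (cnt p s : ℝ) ≤ cnt p (s \ S) + (s ∩ S).card := by
  have : cnt p s ≤ cnt p (s \ S) + (s ∩ S).card := by
    unfold cnt
    have h : s.filter (fun v => par v = p) ⊆ ((s \ S).filter fun v => par v = p) ∪ (s ∩ S) := by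
      intro v hv
      rw [mem_filter] at hv
      rw [mem_union, mem_filter, mem_sdiff, mem_inter]
      by_cases hvS : v ∈ S
      · exact Or.inr ⟨hv.1, hvS⟩
      · exact Or.inl ⟨⟨hv.1, hvS⟩, hv.2⟩
    exact (card_le_card h).trans (card_union_le _ _)
  exact_mod_cast this

/-- the main step, in dimension `n + 1` -/
theorem lower_succ {n : ℕ} (hn : 20 ≤ n) {l : ℝ} (hl : 0 < l) (h : 250 ≤ l / (1 + l) * n)
    (hs : l ≤ 1 / 4000) :
    9 / 100 * exp (-(10 * l ^ 2 * 2 ^ n)) * Zf (n + 1) l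
      ≤ Zx (n + 1) l (1 / 10 * (l / (1 + l)) * 2 ^ (n + 1)) := by
  set q := l / (1 + l) with hq
  have hq0 : 0 < q := by positivity
  have hql : q ≤ l := by
    rw [hq]
    exact div_le_self hl.le (by linarith)
  have hN : (0 : ℝ) < 2 ^ n := by positivity
  -- the good sets
  let A1 : Finset (Finset (V n)) := (Om n).filter (fun s => cnt 1 s ≤ cnt 0 s ∧
      9 / 10 * q * 2 ^ n / 2 < (s.card : ℝ) ∧
      ((s ∩ univ).card : ℝ) ≤ 10 * q * (univ : Finset (V n)).card)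
  let A2 : Finset (V n) → Finset (Finset (V n)) := fun S =>
    (Om n).filter (fun s => cnt 1 s ≤ cnt 0 s ∧
      9 / 10 * q * 2 ^ n / 2 < (s.card : ℝ) ∧ ((s ∩ S).card : ℝ) ≤ 10 * q * S.card)
  let R : Finset (V n) → Finset (Finset (V n)) := fun S => (A2 S).image (fun s => s \ S)
  let P : Finset (Finset (V n) × Finset (V n)) := univ.filter (fun a => a.1 ∈ A1 ∧ a.2 ∈ R a.1)
  have hA1 : 3 / 10 * Zf n l ≤ ∑ s ∈ A1, l ^ s.card := good_weight hn hl h univ
  have hA2 : ∀ S, 3 / 10 * Zf n l ≤ ∑ s ∈ A2 S, l ^ s.card := fun S => good_weight hn hl h S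
  have hZ : 0 < Zf n l := Zf_pos hl
  have hA1c : ∀ S ∈ A1, (S.card : ℝ) ≤ 10 * q * 2 ^ n := by
    intro S hS
    have := (mem_filter.1 hS).2.2.2
    rw [inter_univ, card_univ, card_V] at this
    push_cast at this
    exact this
  have hR : ∀ S ∈ A1, 3 / 10 * Zf n l * exp (-(10 * l ^ 2 * 2 ^ n)) ≤ ∑ r ∈ R S, l ^ r.card := by
    intro S hS
    have h1 := removal hl S (A2 S)
    have h2 := hA2 S
    have h3 : (1 + l) ^ S.card ≤ exp (10 * l ^ 2 * 2 ^ n) := by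
      calc (1 + l) ^ S.card ≤ (exp l) ^ S.card := by
            apply pow_le_pow_left₀ (by positivity)
            rw [add_comm]; exact add_one_le_exp l
        _ = exp (S.card * l) := (Real.exp_nat_mul l S.card).symm
        _ ≤ exp (10 * l ^ 2 * 2 ^ n) := by
            apply exp_le_exp.2
            have := hA1c S hS
            calc (S.card : ℝ) * l ≤ (10 * q * 2 ^ n) * l := mul_le_mul_of_nonneg_right this hl.le
              _ ≤ (10 * l * 2 ^ n) * l := by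
                  apply mul_le_mul_of_nonneg_right _ hl.le
                  apply mul_le_mul_of_nonneg_right _ hN.le
                  linarith
              _ = 10 * l ^ 2 * 2 ^ n := by ring
    have h4 : 0 ≤ ∑ r ∈ R S, l ^ r.card := sum_nonneg fun _ _ => by positivity
    have h5 : 3 / 10 * Zf n l ≤ exp (10 * l ^ 2 * 2 ^ n) * ∑ r ∈ R S, l ^ r.card :=
      h2.trans (h1.trans (mul_le_mul_of_nonneg_right h3 h4))
    calc 3 / 10 * Zf n l * exp (-(10 * l ^ 2 * 2 ^ n))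
        ≤ (exp (10 * l ^ 2 * 2 ^ n) * ∑ r ∈ R S, l ^ r.card) * exp (-(10 * l ^ 2 * 2 ^ n)) :=
          mul_le_mul_of_nonneg_right h5 (exp_pos _).le
      _ = (exp (10 * l ^ 2 * 2 ^ n) * exp (-(10 * l ^ 2 * 2 ^ n))) * ∑ r ∈ R S, l ^ r.card := by
          ring
      _ = ∑ r ∈ R S, l ^ r.card := by rw [← exp_add, add_neg_cancel, exp_zero, one_mul]
  have hP : ∀ a ∈ P, a.1 ∈ Om n ∧ a.2 ∈ Om n ∧ Disjoint a.1 a.2 ∧
      1 / 10 * q * 2 ^ (n + 1) < (cnt 0 a.1 : ℝ) + cnt 1 a.2 ∧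
      1 / 10 * q * 2 ^ (n + 1) < (cnt 1 a.1 : ℝ) + cnt 0 a.2 := by
    intro a ha
    have ha' := (mem_filter.1 ha).2
    have hS := ha'.1
    obtain ⟨s', hs', hr⟩ := mem_image.1 ha'.2
    have hS2 := mem_filter.1 hS
    have hs2 := mem_filter.1 hs'
    have e1 : (1 : ℝ) / 10 * q * 2 ^ (n + 1) = 2 / 10 * q * 2 ^ n := by rw [pow_succ]; ring
    have hqN : 0 < q * 2 ^ n := by positivity
    refine ⟨hS2.1, ?_, ?_, ?_, ?_⟩
    · rw [← hr]
      rw [mem_Om]
      exact (mem_Om.1 hs2.1).mono sdiff_subset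
    · rw [← hr]
      exact disjoint_sdiff
    · have h1 := half_card_le hS2.2.1
      have h2 := hS2.2.2.1
      have h3 : (0 : ℝ) ≤ cnt 1 a.2 := by positivity
      rw [e1]
      have : 2 / 10 * q * 2 ^ n ≤ 9 / 10 * q * 2 ^ n / 2 / 2 := by
        have : 9 / 10 * q * 2 ^ n / 2 / 2 - 2 / 10 * q * 2 ^ n = 1 / 40 * (q * 2 ^ n) := by ring
        linarith
      linarith
    · have h1 := half_card_le hs2.2.1
      have h2 := hs2.2.2.1
      have h3 : (0 : ℝ) ≤ cnt 1 a.1 := by positivity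
      have h4 := cnt_sdiff_ge s' a.1 0
      rw [hr] at h4
      have h5 := hs2.2.2.2
      have h6 := hA1c a.1 hS
      have h7 : 10 * q * (a.1.card : ℝ) ≤ 1 / 40 * (q * 2 ^ n) := by
        calc 10 * q * (a.1.card : ℝ) ≤ 10 * q * (10 * q * 2 ^ n) :=
              mul_le_mul_of_nonneg_left h6 (by positivity)
          _ = (100 * q) * (q * 2 ^ n) := by ring
          _ ≤ 1 / 40 * (q * 2 ^ n) := by
              apply mul_le_mul_of_nonneg_right _ hqN.le
              linarith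
      rw [e1]
      have e2 : 9 / 10 * q * 2 ^ n / 2 / 2 - 1 / 40 * (q * 2 ^ n) = 2 / 10 * q * 2 ^ n := by ring
      linarith
  have h1 := Zx_succ_ge hl (1 / 10 * q * 2 ^ (n + 1)) P hP
  have h2 : ∑ a ∈ P, l ^ (a.1.card + a.2.card)
      = ∑ S ∈ A1, ∑ r ∈ R S, l ^ (S.card + r.card) :=
    Finset.sum_finset_product P A1 R (by intro p; simp [P])
  have h3 : (3 / 10 * Zf n l) * (3 / 10 * Zf n l * exp (-(10 * l ^ 2 * 2 ^ n)))
      ≤ ∑ S ∈ A1, ∑ r ∈ R S, l ^ (S.card + r.card) := by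
    calc (3 / 10 * Zf n l) * (3 / 10 * Zf n l * exp (-(10 * l ^ 2 * 2 ^ n)))
        ≤ (∑ S ∈ A1, l ^ S.card) * (3 / 10 * Zf n l * exp (-(10 * l ^ 2 * 2 ^ n))) :=
          mul_le_mul_of_nonneg_right hA1 (by positivity)
      _ = ∑ S ∈ A1, l ^ S.card * (3 / 10 * Zf n l * exp (-(10 * l ^ 2 * 2 ^ n))) := by
          rw [sum_mul]
      _ ≤ ∑ S ∈ A1, ∑ r ∈ R S, l ^ (S.card + r.card) := by
          apply sum_le_sum
          intro S hS
          have : ∑ r ∈ R S, l ^ (S.card + r.card) = l ^ S.card * ∑ r ∈ R S, l ^ r.card := by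
            rw [mul_sum]
            apply sum_congr rfl
            intro r _
            rw [pow_add]
          rw [this]
          exact mul_le_mul_of_nonneg_left (hR S hS) (by positivity)
  have h4 := Zf_succ_le (d := n) hl
  calc 9 / 100 * exp (-(10 * l ^ 2 * 2 ^ n)) * Zf (n + 1) l
      ≤ 9 / 100 * exp (-(10 * l ^ 2 * 2 ^ n)) * (Zf n l) ^ 2 :=
        mul_le_mul_of_nonneg_left h4 (by positivity)
    _ = (3 / 10 * Zf n l) * (3 / 10 * Zf n l * exp (-(10 * l ^ 2 * 2 ^ n))) := by ring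
    _ ≤ ∑ S ∈ A1, ∑ r ∈ R S, l ^ (S.card + r.card) := h3
    _ = ∑ a ∈ P, l ^ (a.1.card + a.2.card) := h2.symm
    _ ≤ _ := h1

theorem sq_le_two_pow {n : ℕ} (hn : 4 ≤ n) : n ^ 2 ≤ 2 ^ n := by
  induction n, hn using Nat.le_induction with
  | base => norm_num
  | succ k hk ih =>
    rw [pow_succ 2 k]
    nlinarith

/-- **LBS** -/
theorem lower_small : ∃ C c : ℝ, ∃ d₀ : ℕ, 0 < C ∧ 0 < c ∧ ∀ d ≥ d₀, ∀ l : ℝ, C / d ≤ l →
    l ≤ 1 / √d →
    exp (-(c * l ^ 2 * 2 ^ d)) * Zf d l ≤ Zx d l (1 / 10 * (l / (1 + l)) * 2 ^ d) := by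
  refine ⟨1000, 6, 16000000, by norm_num, by norm_num, ?_⟩
  intro d hd l h1 h2
  obtain ⟨n, rfl⟩ : ∃ n, d = n + 1 := ⟨d - 1, by omega⟩
  have hD : (16000000 : ℝ) ≤ ((n + 1 : ℕ) : ℝ) := by exact_mod_cast hd
  have hD0 : (0 : ℝ) < ((n + 1 : ℕ) : ℝ) := by linarith
  have hl : 0 < l := lt_of_lt_of_le (by positivity) h1
  have hsq : (4000 : ℝ) ≤ √((n + 1 : ℕ) : ℝ) := by
    apply Real.le_sqrt_of_sq_le
    linarith
  have hs : l ≤ 1 / 4000 := h2.trans (one_div_le_one_div_of_le (by norm_num) hsq)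
  have h3 : 250 ≤ l / (1 + l) * n := by
    rw [div_le_iff₀ hD0] at h1
    push_cast at h1 hD
    have e : l * (n : ℝ) = l * ((n : ℝ) + 1) - l := by ring
    rw [div_mul_eq_mul_div, le_div_iff₀ (by positivity), e]
    linarith
  have h4 := lower_succ (n := n) (by omega) hl h3 hs
  refine le_trans ?_ h4
  apply mul_le_mul_of_nonneg_right _ (Zf_pos hl).le
  have h5 : (3 : ℝ) ≤ l ^ 2 * 2 ^ (n + 1) := by
    have h6 : (((n + 1) ^ 2 : ℕ) : ℝ) ≤ ((2 ^ (n + 1) : ℕ) : ℝ) := by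
      exact_mod_cast sq_le_two_pow (n := n + 1) (by omega)
    have h7 : (1000 : ℝ) ≤ l * ((n + 1 : ℕ) : ℝ) := by rwa [div_le_iff₀ hD0] at h1
    have h8 : (1000 : ℝ) ^ 2 ≤ (l * ((n + 1 : ℕ) : ℝ)) ^ 2 := pow_le_pow_left₀ (by norm_num) h7 2
    rw [mul_pow] at h8
    have h9 : l ^ 2 * ((n + 1 : ℕ) : ℝ) ^ 2 ≤ l ^ 2 * 2 ^ (n + 1) := by
      apply mul_le_mul_of_nonneg_left _ (by positivity)
      exact_mod_cast sq_le_two_pow (n := n + 1) (by omega)
    linarith
  have h10 : exp (-(6 * l ^ 2 * 2 ^ (n + 1)))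
      = exp (-(l ^ 2 * 2 ^ (n + 1))) * exp (-(10 * l ^ 2 * 2 ^ n)) := by
    rw [← exp_add]
    congr 1
    rw [pow_succ]
    ring
  rw [h10]
  apply mul_le_mul_of_nonneg_right _ (exp_pos _).le
  have h11 : exp (-(l ^ 2 * 2 ^ (n + 1))) ≤ exp (-3) := exp_le_exp.2 (by linarith)
  refine h11.trans ?_
  have h12 : (exp (-1)) ^ 3 = exp (-3) := by
    rw [← Real.exp_nat_mul]; norm_num
  rw [← h12]
  have h13 : exp (-1) ≤ 0.37 := by
    have := Real.exp_neg_one_lt_d9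
    linarith
  have h14 : (exp (-1)) ^ 3 ≤ (0.37 : ℝ) ^ 3 := pow_le_pow_left₀ (exp_pos _).le h13 3
  refine h14.trans ?_
  norm_num

end Pool.Agent.Lib.MP_c6118e_pr
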