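import Pool.Agent.Lib.MP_c6118e_pr.Basic

/-! # GIB1: edges inside `L` against intermediate vertices -/

namespace Pool.Agent.Lib.MP_c6118e_pr

open Finset Real

/-- the condition for a triple `(s, v, i)` -/
def gib1C {d : ℕ} (t : Finset (V d) × V d × Fin d) : Prop :=
  par t.2.1 = 0 ∧ nOcc t.1 t.2.1 = 0 ∧ nOcc t.1 (nb t.2.2 t.2.1) = 0

instance {d : ℕ} : DecidablePred (gib1C (d := d)) := fun t => by unfold gib1C; infer_instance

theorem gib1_eLL {d : ℕ} (s : Finset (V d)) :
    (eLL (Lset s) : ℝ) = ∑ v : V d, ∑ i : Fin d, if gib1C (s, v, i) then (1 : ℝ) else 0 := by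
  unfold eLL
  push_cast
  rw [sum_filter]
  have h1 : ∀ v : V d, (∑ i : Fin d, if gib1C (s, v, i) then (1 : ℝ) else 0) =
      if v ∈ Lset s then (if par v = 0 then
        (((univ.filter fun i => nb i v ∈ Lset s).card : ℕ) : ℝ) else 0) else 0 := by
    intro v
    rw [card_filter]
    push_cast
    split_ifs with h2 h3
    · refine sum_congr rfl fun i _ => ?_
      unfold gib1C
      simp only [h3, mem_Lset.mp h2, mem_Lset, true_and]
    · refine sum_eq_zero fun i _ => if_neg ?_
      rintro ⟨h4, -, -⟩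
      exact h3 h4
    · refine sum_eq_zero fun i _ => if_neg ?_
      rintro ⟨-, h4, -⟩
      exact h2 (mem_Lset.mpr h4)
  rw [sum_congr rfl fun v _ => h1 v, Finset.sum_ite_mem, univ_inter]

/-- **GIB1** -/
theorem eLL_le {d : ℕ} {l : ℝ} (hl : 0 < l) (h1 : 1 ≤ 7 / 8 * (l / (1 + l)) * d) (x : ℝ) :
    l * ∑ s ∈ Bx d x, l ^ s.card * (eLL (Lset s) : ℝ)
      ≤ ∑ s ∈ Bx d x, l ^ s.card * ((II l s).card : ℝ) := by
  classical
  set T : Finset (Finset (V d) × V d × Fin d) :=
    (Bx d x ×ˢ (univ ×ˢ univ)).filter gib1C with hT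
  set P : Finset (Finset (V d) × V d) :=
    (Bx d x ×ˢ univ).filter (fun p => p.2 ∈ II l p.1) with hP
  have hleft : l * ∑ s ∈ Bx d x, l ^ s.card * (eLL (Lset s) : ℝ) =
      ∑ t ∈ T, l ^ (insert (nb t.2.2 t.2.1) t.1).card := by
    have h2 : ∀ t ∈ T, l ^ (insert (nb t.2.2 t.2.1) t.1).card = l * l ^ t.1.card := by
      intro t ht
      have h3 := (mem_filter.mp ht).2
      have h4 : nb t.2.2 t.2.1 ∉ t.1 := nOcc_eq_zero.mp h3.2.1 _
      rw [card_insert_of_notMem h4, pow_succ']
    rw [sum_congr rfl h2, hT, sum_filter, sum_product, mul_sum]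
    refine sum_congr rfl fun s _ => ?_
    rw [sum_product, gib1_eLL, mul_sum, mul_sum]
    refine sum_congr rfl fun v _ => ?_
    rw [mul_sum, mul_sum]
    refine sum_congr rfl fun i _ => ?_
    split_ifs <;> simp
  have hright : ∑ s ∈ Bx d x, l ^ s.card * ((II l s).card : ℝ) = ∑ p ∈ P, l ^ p.1.card := by
    rw [hP, sum_filter, sum_product]
    refine sum_congr rfl fun s _ => ?_
    rw [← sum_filter]
    simp only [filter_mem_eq_inter, univ_inter, sum_const, nsmul_eq_mul]
    ring
  set φ : Finset (V d) × V d × Fin d → Finset (V d) × V d :=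
    fun t => (insert (nb t.2.2 t.2.1) t.1, t.2.1) with hφ
  have hinj : Set.InjOn φ T := by
    intro a ha b hb hab
    obtain ⟨s, v, i⟩ := a
    obtain ⟨s', v', j⟩ := b
    have h3 := (mem_filter.mp ha).2
    have h4 := (mem_filter.mp hb).2
    simp only [gib1C] at h3 h4
    simp only [hφ, Prod.mk.injEq] at hab
    obtain ⟨h5, rfl⟩ := hab
    have h6 : nb i v ∈ insert (nb j v) s' := by rw [← h5]; exact mem_insert_self _ _
    have h7 : nb i v ∉ s' := nOcc_eq_zero.mp h4.2.1 i
    have h8 : nb i v = nb j v := (mem_insert.mp h6).resolve_right h7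
    have h9 : i = j := nb_inj h8
    subst h9
    have h10 : nb i v ∉ s := nOcc_eq_zero.mp h3.2.1 i
    have h11 : s = s' := by
      have := congrArg (fun A : Finset (V d) => A.erase (nb i v)) h5
      simpa [erase_insert h10, erase_insert h7] using this
    rw [h11]
  have himg : T.image φ ⊆ P := by
    intro p hp
    obtain ⟨⟨s, v, i⟩, ht, rfl⟩ := mem_image.mp hp
    have h3 := (mem_filter.mp ht).2
    have h4 := mem_product.mp (mem_filter.mp ht).1
    simp only [gib1C] at h3
    have h5 : s ∈ Bx d x := h4.1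
    rw [mem_Bx] at h5
    simp only [hφ, hP, mem_filter, mem_product, mem_univ, and_true]
    refine ⟨mem_Bx.mpr ⟨h5.1.insert h3.2.2, ?_, ?_⟩, ?_⟩
    · exact h5.2.1.trans_le (by exact_mod_cast cnt_mono (subset_insert _ _) 0)
    · exact h5.2.2.trans_le (by exact_mod_cast cnt_mono (subset_insert _ _) 1)
    · have h6 : nOcc (insert (nb i v) s) v = 1 := by
        unfold nOcc
        rw [card_eq_one]
        refine ⟨i, ?_⟩
        ext j
        simp only [mem_filter, mem_univ, true_and, mem_singleton, mem_insert]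
        constructor
        · rintro (h | h)
          · exact nb_inj h
          · exact absurd h (nOcc_eq_zero.mp h3.2.1 j)
        · rintro rfl
          exact Or.inl rfl
      rw [mem_II, h6]
      exact ⟨le_rfl, by push_cast; exact h1⟩
  rw [hleft, hright]
  calc ∑ t ∈ T, l ^ (insert (nb t.2.2 t.2.1) t.1).card = ∑ t ∈ T, l ^ (φ t).1.card := rfl
    _ = ∑ p ∈ T.image φ, l ^ p.1.card :=
        (sum_image (f := fun p : Finset (V d) × V d => l ^ p.1.card) hinj).symm
    _ ≤ ∑ p ∈ P, l ^ p.1.card :=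
        sum_le_sum_of_subset_of_nonneg himg fun _ _ _ => by positivity

end Pool.Agent.Lib.MP_c6118e_pr
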