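import Pool.Agent.Lib.MP_c6118e_pr.FIBR

/-! GIB2: exposed vertices are mostly intermediate -/

namespace Pool.Agent.Lib.MP_c6118e_pr

open Finset Real

variable {d : ℕ}

/-- the neighbourhood of `v` -/
def nbh (v : V d) : Finset (V d) := univ.image fun i => nb i v

theorem mem_nbh {u v : V d} : u ∈ nbh v ↔ ∃ i, nb i v = u := by simp [nbh]

theorem nbh_indep (v : V d) : ∀ u ∈ nbh v, ∀ i, nb i u ∉ nbh v := by
  intro u hu i hi
  obtain ⟨j, rfl⟩ := mem_nbh.1 hu
  obtain ⟨k, hk⟩ := mem_nbh.1 hi
  have h := congrArg par hk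
  rw [par_nb, par_nb, par_nb] at h
  exact par_nb_ne k v (by rw [par_nb, h, add_assoc, zmod2_add_self, add_zero])

theorem card_nbh (v : V d) : (nbh v).card = d := by
  unfold nbh
  rw [card_image_of_injective _ (fun i j h => nb_inj h)]
  simp

theorem card_nbh_filter (v : V d) (P : V d → Prop) [DecidablePred P] :
    ((nbh v).filter P).card = (univ.filter fun i => P (nb i v)).card := by
  unfold nbh
  rw [filter_image, card_image_of_injective _ (fun i j h => nb_inj h)]

/-- the number of directions into `L` and out of `L` -/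
theorem card_dir (L : Finset (V d)) (v : V d) :
    (univ.filter fun i => nb i v ∈ L).card + (univ.filter fun i => nb i v ∉ L).card = d := by
  rw [card_filter_add_card_filter_not]
  simp

/-- occupied neighbours are free of occupied neighbours -/
theorem nOcc_le_dir {s : Finset (V d)} (hs : Ind s) (v : V d) :
    nOcc s v ≤ (univ.filter fun i => nb i v ∈ Lset s).card := by
  unfold nOcc
  refine card_le_card (monotone_filter_right _ fun i _ hi => ?_)
  exact mem_Lset.2 (hs.nOcc hi)

/-- **GIB2** (first part) -/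
theorem Ex_sub_II {d : ℕ} {l : ℝ} (hl : 6 < l) {s : Finset (V d)} (hs : s ∈ Om d) :
    Ex (Lset s) ⊆ II l s := by
  intro v hv
  rw [mem_Ex, mem_Lset] at hv
  rw [mem_II]
  refine ⟨Nat.one_le_iff_ne_zero.2 hv.1, ?_⟩
  have h1 := nOcc_le_dir (mem_Om.1 hs) v
  have h2 := card_dir (Lset s) v
  have h3 : 4 * nOcc s v ≤ 3 * d := by omega
  have h4 : (4 : ℝ) * nOcc s v ≤ 3 * d := by exact_mod_cast h3
  have h5 : (6 : ℝ) / 7 ≤ l / (1 + l) := by
    rw [div_le_div_iff₀ (by norm_num) (by linarith)]
    linarith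
  have h6 : (0 : ℝ) ≤ d := Nat.cast_nonneg d
  have h7 := mul_le_mul_of_nonneg_right h5 h6
  nlinarith

/-- the weight of the configurations for which `v` is exposed, but not intermediate -/
theorem Ex_one {l : ℝ} (hl : 0 < l) (x : ℝ) (v : V d) :
    ∑ s ∈ (Bx d x).filter (fun s => v ∈ Ex (Lset s) ∧ v ∉ II l s), l ^ s.card
      ≤ exp (-(l / (1 + l) * d / 110)) * Zx d l (x - d) := by
  classical
  have hF : ∀ s : Finset (V d), ((nbh v).filter fun u => nOcc (s \ nbh v) u = 0).card
        = (univ.filter fun i => nb i v ∈ Lset s).card := by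
    intro s
    have h1 : ((nbh v).filter fun u => nOcc (s \ nbh v) u = 0)
        = (nbh v).filter fun u => u ∈ Lset s := by
      apply filter_congr
      intro u hu
      rw [nOcc_sdiff (nbh_indep v) s hu, mem_Lset]
    rw [h1, card_nbh_filter]
  have key := fibre_le (θ := 7 / 6) (m := 7 / 8 * (l / (1 + l)) * d)
    (K := 3 / 4 * d) hl (by norm_num) (nbh_indep v)
    ((Bx d x).filter (fun s => v ∈ Ex (Lset s) ∧ v ∉ II l s)) (Bx d (x - d))
    (fun s hs => (mem_Bx.1 (mem_filter.1 hs).1).1)
    (by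
      intro s hs
      have h1 := (mem_filter.1 hs).2
      have h2 : (s ∩ nbh v).card = nOcc s v := by
        have : s ∩ nbh v = (nbh v).filter fun u => u ∈ s := by
          ext u; simp [and_comm]
        rw [this, card_nbh_filter]
        rfl
      rw [h2]
      by_contra h3
      push Not at h3
      apply h1.2
      rw [mem_II]
      refine ⟨?_, h3.le⟩
      have h4 := (mem_Ex.1 h1.1).1
      rw [mem_Lset] at h4
      exact Nat.one_le_iff_ne_zero.2 h4)
    (by
      intro s hs
      have h1 := (mem_filter.1 hs).2.1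
      rw [mem_Ex] at h1
      rw [hF]
      have h2 := card_dir (Lset s) v
      have h3 : 4 * (univ.filter fun i => nb i v ∈ Lset s).card ≤ 3 * d := by omega
      have h4 : (4 : ℝ) * (univ.filter fun i => nb i v ∈ Lset s).card ≤ 3 * d := by
        exact_mod_cast h3
      linarith)
    (by
      intro s hs B hB
      have h1 := mem_Bx.1 (mem_filter.1 hs).1
      have hc : ∀ p, (cnt p s : ℝ) - d ≤ cnt p ((s \ nbh v) ∪ B) := by
        intro p
        have h2 : cnt p (s \ nbh v) ≤ cnt p ((s \ nbh v) ∪ B) := cnt_mono subset_union_left p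
        have h3 : cnt p s ≤ cnt p (s \ nbh v) + d := by
          unfold cnt
          have h4 : (s.filter fun v => par v = p) ⊆
              ((s \ nbh v).filter fun v => par v = p) ∪ nbh v := by
            intro u hu
            rw [mem_filter] at hu
            rw [mem_union, mem_filter, mem_sdiff]
            by_cases h : u ∈ nbh v
            · exact Or.inr h
            · exact Or.inl ⟨⟨hu.1, h⟩, hu.2⟩
          have h5 := (card_le_card h4).trans (card_union_le _ _)
          rwa [card_nbh] at h5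
        have h4 : (cnt p s : ℝ) ≤ cnt p (s \ nbh v) + d := by exact_mod_cast h3
        have h5 : (cnt p (s \ nbh v) : ℝ) ≤ cnt p ((s \ nbh v) ∪ B) := by exact_mod_cast h2
        linarith
      rw [mem_Bx]
      refine ⟨glue_ind (nbh_indep v) h1.1 hB, ?_, ?_⟩
      · have := hc 0; linarith [h1.2.1]
      · have := hc 1; linarith [h1.2.2])
  refine key.trans ?_
  refine mul_le_mul_of_nonneg_right ?_ (Zx_nonneg hl _)
  apply Real.exp_le_exp.2
  have h2 : (2 : ℝ) / 13 ≤ log (7 / 6) := by
    have h := Real.log_le_sub_one_of_pos (show (0 : ℝ) < 6 / 7 by norm_num)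
    have h' := Real.sum_range_le_log_div (x := 1 / 13) (by norm_num) (by norm_num) 1
    have e : ((1 : ℝ) + 1 / 13) / (1 - 1 / 13) = 7 / 6 := by norm_num
    rw [e] at h'
    simp at h'
    linarith
  have h3 : 0 ≤ l / (1 + l) * d := by positivity
  have h4 : (7 / 6 - 1) * (l / (1 + l)) * (3 / 4 * d) - 7 / 8 * (l / (1 + l)) * d * log (7 / 6)
      = (l / (1 + l) * d) * (1 / 8 - 7 / 8 * log (7 / 6)) := by ring
  rw [h4]
  have h5 : 1 / 8 - 7 / 8 * log (7 / 6) ≤ -(1 / 110) := by linarith
  have h6 := mul_le_mul_of_nonneg_left h5 h3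
  linarith

/-- **GIB2** (second part) -/
theorem Ex_le {d : ℕ} {l : ℝ} (hl : 0 < l) (x : ℝ) :
    ∑ s ∈ Bx d x, l ^ s.card * ((Ex (Lset s)).card : ℝ)
      ≤ ∑ s ∈ Bx d x, l ^ s.card * ((II l s).card : ℝ)
        + 2 ^ d * exp (-(l / (1 + l) * d / 110)) * Zx d l (x - d) := by
  classical
  have h1 : ∀ s ∈ Bx d x, l ^ s.card * ((Ex (Lset s)).card : ℝ)
      ≤ l ^ s.card * ((II l s).card : ℝ) +
        ∑ v : V d, if v ∈ Ex (Lset s) ∧ v ∉ II l s then l ^ s.card else 0 := by
    intro s _
    have e1 : ∑ v : V d, (if v ∈ Ex (Lset s) ∧ v ∉ II l s then l ^ s.card else 0)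
        = l ^ s.card * ((Ex (Lset s) \ II l s).card : ℝ) := by
      rw [← sum_filter, sum_const, nsmul_eq_mul, mul_comm]
      congr 3
      ext v; simp
    rw [e1, ← mul_add]
    refine mul_le_mul_of_nonneg_left ?_ (by positivity)
    have h2 : (Ex (Lset s)).card ≤ (II l s).card + (Ex (Lset s) \ II l s).card := by
      rw [← card_union_of_disjoint disjoint_sdiff]
      exact card_le_card (by intro v hv; by_cases h : v ∈ II l s <;> simp [h, hv])
    exact_mod_cast h2
  refine (sum_le_sum h1).trans ?_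
  rw [sum_add_distrib, sum_comm]
  have h3 : ∑ v : V d, ∑ s ∈ Bx d x, (if v ∈ Ex (Lset s) ∧ v ∉ II l s then l ^ s.card else 0)
      ≤ ∑ _v : V d, exp (-(l / (1 + l) * d / 110)) * Zx d l (x - d) := by
    refine sum_le_sum fun v _ => ?_
    rw [← sum_filter]
    exact Ex_one hl x v
  rw [sum_const, card_univ, card_V, nsmul_eq_mul] at h3
  push_cast at h3
  linarith

end Pool.Agent.Lib.MP_c6118e_pr
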