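import Pool.Agent.Lib.MP_c6118e_pr.FIBR

/-! GIB3: density of the free vertices of one parity -/

namespace Pool.Agent.Lib.MP_c6118e_pr

open Finset Real

/-- **GIB3** -/
theorem dens {d : ℕ} {l : ℝ} (hl : 0 < l) (p : ZMod 2) :
    ∑ s ∈ (Om d).filter (fun s => 9 / 100 * (l / (1 + l)) * 2 ^ d < (cnt p s : ℝ) ∧
        (((Lset s).filter fun v => par v = p).card : ℝ) < 4 / 100 * 2 ^ d), l ^ s.card
      ≤ exp (-(l / (1 + l) * 2 ^ d / 50)) * Zf d l := by
  classical
  have hT : ∀ u ∈ (univ.filter fun v : V d => par v = p), ∀ i,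
      nb i u ∉ (univ.filter fun v : V d => par v = p) := by
    intro u hu i hi
    rw [mem_filter] at hu hi
    exact par_nb_ne i u (hi.2.trans hu.2.symm)
  have hF : ∀ s : Finset (V d), ((univ.filter fun v : V d => par v = p).filter
      fun u => nOcc (s \ (univ.filter fun v : V d => par v = p)) u = 0)
        = (Lset s).filter fun v => par v = p := by
    intro s
    ext u
    rw [mem_filter (s := Lset s), mem_Lset, mem_filter]
    constructor
    · rintro ⟨h1, h2⟩
      rw [nOcc_sdiff hT s h1] at h2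
      exact ⟨h2, (mem_filter.1 h1).2⟩
    · rintro ⟨h1, h2⟩
      have h3 : u ∈ (univ.filter fun v : V d => par v = p) := by simp [h2]
      refine ⟨h3, ?_⟩
      rw [nOcc_sdiff hT s h3]
      exact h1
  have key := fibre_le (θ := 2) (m := 9 / 100 * (l / (1 + l)) * 2 ^ d)
    (K := 4 / 100 * 2 ^ d) hl (by norm_num) hT
    ((Om d).filter (fun s => 9 / 100 * (l / (1 + l)) * 2 ^ d < (cnt p s : ℝ) ∧
        (((Lset s).filter fun v => par v = p).card : ℝ) < 4 / 100 * 2 ^ d)) (Om d)
    (fun s hs => mem_Om.1 (mem_filter.1 hs).1)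
    (by
      intro s hs
      have h1 := (mem_filter.1 hs).2.1
      have h2 : (s ∩ univ.filter fun v : V d => par v = p) = s.filter fun v => par v = p := by
        ext u; simp
      rw [h2]
      exact h1.le)
    (by
      intro s hs
      rw [hF]
      exact (mem_filter.1 hs).2.2.le)
    (by
      intro s hs B hB
      rw [mem_Om]
      exact glue_ind hT (mem_Om.1 (mem_filter.1 hs).1) hB)
  refine key.trans ?_
  refine mul_le_mul_of_nonneg_right ?_ (Zf_pos hl).le
  apply Real.exp_le_exp.2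
  have h2 := Real.log_two_gt_d9
  have h3 : 0 ≤ l / (1 + l) * 2 ^ d := by positivity
  have h4 : (2 - 1) * (l / (1 + l)) * (4 / 100 * 2 ^ d) - 9 / 100 * (l / (1 + l)) * 2 ^ d * log 2
      = (l / (1 + l) * 2 ^ d) * (4 / 100 - 9 / 100 * log 2) := by ring
  rw [h4]
  have h5 : 4 / 100 - 9 / 100 * log 2 ≤ -(1 / 50) := by linarith
  have h6 := mul_le_mul_of_nonneg_left h5 h3
  linarith

end Pool.Agent.Lib.MP_c6118e_pr
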