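import Pool.Agent.Lib.MP_c6118e_pr.KAHN

/-! # MP_c6118e_pr, module KINF -/

namespace Pool.Agent.Lib.MP_c6118e_pr

open Finset Real

/-- the two-sided version for a fixed family of weights -/
theorem kahn_two {d : ℕ} (hd : 0 < d) {l : ℝ} (hl : 0 < l) (g : V d → ℕ → ℝ)
    (hg : ∀ v k, 0 ≤ g v k)
    (hloc : ∀ v, ∑ k ∈ range (d + 1),
      (d.choose k : ℝ) * l ^ k * (if k = 0 then (1 + l) ^ d else 1) * g v k ≤ (1 + l) ^ d) :
    ∑ s ∈ Om d, l ^ s.card * ∏ v, (g v (nOcc s v)) ^ (1 / (2 * d) : ℝ)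
      ≤ (1 + l) ^ (2 ^ (d - 1)) := by
  have hd' : (0 : ℝ) < d := by exact_mod_cast hd
  set P : ZMod 2 → Finset (V d) → ℝ := fun p s =>
    ∏ v ∈ univ.filter (fun v : V d => par v = p), (g v (nOcc s v)) ^ (1 / (2 * d) : ℝ) with hP
  have hP0 : ∀ p s, 0 ≤ P p s := fun p s => prod_nonneg fun v _ => rpow_nonneg (hg _ _) _
  have hPsq : ∀ p s, (P p s) ^ 2
      = ∏ v ∈ univ.filter (fun v : V d => par v = p), (g v (nOcc s v)) ^ (1 / d : ℝ) := by
    intro p s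
    simp only [hP]
    rw [← prod_pow]
    apply prod_congr rfl
    intro v _
    rw [← rpow_natCast, ← rpow_mul (hg _ _)]
    congr 1
    push_cast
    field_simp
  have hprod : ∀ s, ∏ v, (g v (nOcc s v)) ^ (1 / (2 * d) : ℝ) = P 0 s * P 1 s := by
    intro s
    simp only [hP]
    rw [← prod_filter_mul_prod_filter_not univ (fun v : V d => par v = 0)]
    congr 1
    apply prod_congr _ (fun _ _ => rfl)
    apply filter_congr
    intro v _
    rcases zmod2_cases (par v) with h | h <;> rw [h] <;> decide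
  have hQ : ∀ p, ∑ s ∈ Om d, l ^ s.card * (P p s) ^ 2 ≤ (1 + l) ^ (2 ^ (d - 1)) := by
    intro p
    simp_rw [hPsq]
    exact kahn_side hd hl p g hg hloc
  have hcs := sum_mul_sq_le_sq_mul_sq (Om d) (fun s => √(l ^ s.card) * P 0 s)
    (fun s => √(l ^ s.card) * P 1 s)
  have e1 : ∑ s ∈ Om d, (√(l ^ s.card) * P 0 s) * (√(l ^ s.card) * P 1 s)
      = ∑ s ∈ Om d, l ^ s.card * ∏ v, (g v (nOcc s v)) ^ (1 / (2 * d) : ℝ) := by
    apply sum_congr rfl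
    intro s _
    rw [hprod]
    have : √(l ^ s.card) * √(l ^ s.card) = l ^ s.card := mul_self_sqrt (by positivity)
    calc (√(l ^ s.card) * P 0 s) * (√(l ^ s.card) * P 1 s)
        = (√(l ^ s.card) * √(l ^ s.card)) * (P 0 s * P 1 s) := by ring
      _ = _ := by rw [this]
  have e2 : ∀ p, ∑ s ∈ Om d, (√(l ^ s.card) * P p s) ^ 2 = ∑ s ∈ Om d, l ^ s.card * (P p s) ^ 2 := by
    intro p
    apply sum_congr rfl
    intro s _
    rw [mul_pow, sq_sqrt (by positivity)]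
  rw [e1, e2, e2] at hcs
  have h0 : 0 ≤ ∑ s ∈ Om d, l ^ s.card * (P 0 s) ^ 2 :=
    sum_nonneg fun s _ => by positivity
  have hbd : (∑ s ∈ Om d, l ^ s.card * (P 0 s) ^ 2) * ∑ s ∈ Om d, l ^ s.card * (P 1 s) ^ 2
      ≤ ((1 + l) ^ (2 ^ (d - 1))) ^ 2 := by
    rw [sq]
    exact mul_le_mul (hQ 0) (hQ 1) (sum_nonneg fun s _ => by positivity) (by positivity)
  exact abs_le_of_sq_le_sq' (hcs.trans hbd) (by positivity) |>.2

/-- **KINF** -/
theorem kahn_info {d : ℕ} (hd : 0 < d) {l : ℝ} (hl : 0 < l) {α : Type*} [DecidableEq α]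
    (Y : Finset α) (y : Finset (V d) → α) (hy : ∀ s ∈ Om d, y s ∈ Y)
    (g : α → V d → ℕ → ℝ) (hg : ∀ a v k, 0 ≤ g a v k)
    (hloc : ∀ a ∈ Y, ∀ v, ∑ k ∈ range (d + 1),
      (d.choose k : ℝ) * l ^ k * (if k = 0 then (1 + l) ^ d else 1) * g a v k ≤ (1 + l) ^ d) :
    ∑ s ∈ Om d, l ^ s.card * ∏ v, (g (y s) v (nOcc s v)) ^ (1 / (2 * d) : ℝ)
      ≤ Y.card * (1 + l) ^ (2 ^ (d - 1)) := by
  have h1 : ∀ s ∈ Om d, l ^ s.card * ∏ v, (g (y s) v (nOcc s v)) ^ (1 / (2 * d) : ℝ)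
      ≤ ∑ a ∈ Y, l ^ s.card * ∏ v, (g a v (nOcc s v)) ^ (1 / (2 * d) : ℝ) := by
    intro s hs
    exact single_le_sum (f := fun a => l ^ s.card * ∏ v, (g a v (nOcc s v)) ^ (1 / (2 * d) : ℝ))
      (fun a _ => mul_nonneg (by positivity) (prod_nonneg fun v _ => rpow_nonneg (hg _ _ _) _))
      (hy s hs)
  refine (sum_le_sum h1).trans ?_
  rw [sum_comm, ← nsmul_eq_mul]
  exact sum_le_card_nsmul _ _ _ fun a ha => kahn_two hd hl (g a) (hg a) (hloc a ha)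

end Pool.Agent.Lib.MP_c6118e_pr
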