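import Pool.Agent.Lib.MP_c6118e_pr.LOCB
import Pool.Agent.Lib.MP_c6118e_pr.KINF

/-! MP_c6118e_pr, module KEY (helper37) -/

namespace Pool.Agent.Lib.MP_c6118e_pr

open Finset Real

theorem KEY_log_ge {d : ℕ} (hd : 2 ≤ d) :
    -(1 / (d : ℝ) ^ 3) ≤ log (1 - 1 / (d : ℝ) ^ 2) * (1 / (2 * d) : ℝ) := by
  have hd' : (2 : ℝ) ≤ d := by exact_mod_cast hd
  have hd0 : (0 : ℝ) < d := by linarith
  have hx : 1 / (d : ℝ) ^ 2 ≤ 1 / 4 := by
    apply one_div_le_one_div_of_le (by norm_num)
    nlinarith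
  have hx0 : 0 < 1 / (d : ℝ) ^ 2 := by positivity
  have hpos : 0 < 1 - 1 / (d : ℝ) ^ 2 := by linarith
  have h1 := Real.one_sub_inv_le_log_of_pos hpos
  have h2 : -(2 * (1 / (d : ℝ) ^ 2)) ≤ 1 - (1 - 1 / (d : ℝ) ^ 2)⁻¹ := by
    have h3 : (1 - 1 / (d : ℝ) ^ 2)⁻¹ ≤ 1 + 2 * (1 / (d : ℝ) ^ 2) := by
      rw [inv_le_iff_one_le_mul₀ hpos]
      nlinarith
    linarith
  have h4 : -(2 * (1 / (d : ℝ) ^ 2)) * (1 / (2 * d) : ℝ) = -(1 / (d : ℝ) ^ 3) := by
    field_simp
  rw [← h4]
  apply mul_le_mul_of_nonneg_right (h2.trans h1) (by positivity)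

theorem KEY_log_small {d : ℕ} (hd : 2 ≤ d) :
    log (1 / (d : ℝ) ^ 2) * (1 / (2 * d) : ℝ) = -(log d / d) := by
  have hd' : (2 : ℝ) ≤ d := by exact_mod_cast hd
  have hd0 : (0 : ℝ) < d := by linarith
  rw [one_div, log_inv, log_pow]
  push_cast
  field_simp

/-- **KEY** -/
theorem key_ineq {d : ℕ} (hd : 2 ≤ d) {l : ℝ} (hl : 0 < l) (U : Finset (V d)) (q : V d → V d)
    (hq : ∀ v, q v ∈ U) :
    ∑ s ∈ Om d, l ^ s.card *
      exp ((1 / 6000 * log (1 + l) - log d / d) * (II l s).card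
        - log d / d * (wrong (phase (Lset s)) q).card)
      ≤ 2 ^ U.card * exp (2 * 2 ^ d / (d : ℝ) ^ 3) * (1 + l) ^ (2 ^ (d - 1)) := by
  have hd' : (2 : ℝ) ≤ d := by exact_mod_cast hd
  have hd0 : (0 : ℝ) < d := by linarith
  set a : ℝ := 1 / (d : ℝ) ^ 2 with ha
  have ha0 : 0 < a := by positivity
  have ha1 : a ≤ 1 / 4 := by
    rw [ha]
    apply one_div_le_one_div_of_le (by norm_num)
    nlinarith
  have hinfo := kahn_info (by omega : 0 < d) hl U.powerset (fun s => phase (Lset s) ∩ U)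
    (fun s _ => mem_powerset.2 inter_subset_right)
    (fun b v k => gw d l (univ.filter fun v => q v ∈ b) v k)
    (by
      intro b v k
      have h1 : 0 ≤ 1 - 1 / (d : ℝ) ^ 2 := by rw [← ha]; linarith
      simp only [gw]
      apply mul_nonneg
      · split_ifs
        · exact h1
        · positivity
      · split_ifs
        · positivity
        · exact h1)
    (fun b _ v => gw_loc hd hl _ v)
  rw [card_powerset] at hinfo
  push_cast at hinfo
  have hpt : ∀ s ∈ Om d, l ^ s.card *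
      exp ((1 / 6000 * log (1 + l) - log d / d) * (II l s).card
        - log d / d * (wrong (phase (Lset s)) q).card) ≤ exp (2 * 2 ^ d / (d : ℝ) ^ 3) *
      (l ^ s.card * ∏ v, (gw d l (univ.filter fun v => q v ∈ phase (Lset s) ∩ U) v (nOcc s v))
        ^ (1 / (2 * d) : ℝ)) := by
    intro s _
    set W := univ.filter (fun v => q v ∈ phase (Lset s) ∩ U) with hW
    have hWm : ∀ v, v ∈ W ↔ q v ∈ phase (Lset s) := by
      intro v
      simp [hW, hq v]
    set c1 : V d → ℝ := fun v => if v ∈ wrong (phase (Lset s)) q then log d / d else 0 with hc1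
    set c2 : V d → ℝ := fun v => if v ∈ II l s then 1 / 6000 * log (1 + l) - log d / d else 0
      with hc2
    have hterm : ∀ v, exp (c2 v - c1 v - 2 * (1 / (d : ℝ) ^ 3)) ≤
        (gw d l W v (nOcc s v)) ^ (1 / (2 * d) : ℝ) := by
      intro v
      have hlogge := KEY_log_ge hd
      have hlogsm := KEY_log_small hd
      rw [← ha] at hlogge hlogsm
      have hcube : 0 < 1 / (d : ℝ) ^ 3 := by positivity
      -- first factor
      obtain ⟨x, hx0, hx, hxl⟩ : ∃ x : ℝ, 0 < x ∧
          (if ((par v = 0 ↔ nOcc s v = 0) ↔ v ∈ W) then 1 - a else a) = x ∧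
          -(c1 v) - 1 / (d : ℝ) ^ 3 ≤ log x * (1 / (2 * d) : ℝ) := by
        by_cases h : ((par v = 0 ↔ nOcc s v = 0) ↔ v ∈ W)
        · refine ⟨1 - a, by linarith, if_pos h, ?_⟩
          have hnw : v ∉ wrong (phase (Lset s)) q := by
            unfold wrong
            rw [mem_filter, mem_phase, mem_Lset, ← hWm v]
            simp only [mem_univ, true_and, not_not]
            exact h
          simp only [hc1, if_neg hnw]
          linarith
        · refine ⟨a, ha0, if_neg h, ?_⟩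
          have hnw : v ∈ wrong (phase (Lset s)) q := by
            unfold wrong
            rw [mem_filter, mem_phase, mem_Lset, ← hWm v]
            exact ⟨mem_univ _, h⟩
          simp only [hc1, if_pos hnw]
          linarith
      obtain ⟨z, hz0, hz, hzl⟩ : ∃ z : ℝ, 0 < z ∧
          (if (1 ≤ nOcc s v ∧ (nOcc s v : ℝ) ≤ 7 / 8 * (l / (1 + l)) * d) then
            a * exp (1 / 3000 * log (1 + l) * d) else 1 - a) = z ∧
          c2 v - 1 / (d : ℝ) ^ 3 ≤ log z * (1 / (2 * d) : ℝ) := by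
        by_cases h : (1 ≤ nOcc s v ∧ (nOcc s v : ℝ) ≤ 7 / 8 * (l / (1 + l)) * d)
        · refine ⟨a * exp (1 / 3000 * log (1 + l) * d), by positivity, if_pos h, ?_⟩
          have hII : v ∈ II l s := mem_II.2 h
          simp only [hc2, if_pos hII]
          rw [log_mul ha0.ne' (exp_ne_zero _), log_exp, add_mul, hlogsm]
          have : 1 / 3000 * log (1 + l) * (d : ℝ) * (1 / (2 * d) : ℝ) = 1 / 6000 * log (1 + l) := by
            field_simp
            ring
          rw [this]
          linarith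
        · refine ⟨1 - a, by linarith, if_neg h, ?_⟩
          have hII : v ∉ II l s := fun h' => h (mem_II.1 h')
          simp only [hc2, if_neg hII]
          linarith
      have hgw : gw d l W v (nOcc s v) = x * z := by
        unfold gw
        rw [← ha, hx, hz]
      rw [hgw, Real.rpow_def_of_pos (mul_pos hx0 hz0), log_mul hx0.ne' hz0.ne']
      apply exp_le_exp.2
      rw [add_mul]
      linarith
    have hprod : exp (∑ v, (c2 v - c1 v - 2 * (1 / (d : ℝ) ^ 3))) ≤
        ∏ v, (gw d l W v (nOcc s v)) ^ (1 / (2 * d) : ℝ) := by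
      rw [exp_sum]
      exact prod_le_prod (fun _ _ => (exp_pos _).le) (fun v _ => hterm v)
    have hsum : ∑ v, (c2 v - c1 v - 2 * (1 / (d : ℝ) ^ 3)) =
        ((1 / 6000 * log (1 + l) - log d / d) * (II l s).card
        - log d / d * (wrong (phase (Lset s)) q).card) - 2 * 2 ^ d / (d : ℝ) ^ 3 := by
      rw [sum_sub_distrib, sum_sub_distrib, sum_const, card_univ, card_V]
      simp only [hc1, hc2, sum_ite_mem, univ_inter, sum_const, nsmul_eq_mul]
      push_cast
      ring
    rw [hsum] at hprod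
    calc l ^ s.card * exp ((1 / 6000 * log (1 + l) - log d / d) * (II l s).card
          - log d / d * (wrong (phase (Lset s)) q).card)
        = exp (2 * 2 ^ d / (d : ℝ) ^ 3) * (l ^ s.card *
          exp (((1 / 6000 * log (1 + l) - log d / d) * (II l s).card
            - log d / d * (wrong (phase (Lset s)) q).card) - 2 * 2 ^ d / (d : ℝ) ^ 3)) := by
          rw [exp_sub _ (2 * 2 ^ d / (d : ℝ) ^ 3)]
          field_simp
      _ ≤ _ := by
          apply mul_le_mul_of_nonneg_left _ (exp_pos _).le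
          exact mul_le_mul_of_nonneg_left hprod (by positivity)
  calc _ ≤ ∑ s ∈ Om d, exp (2 * 2 ^ d / (d : ℝ) ^ 3) *
      (l ^ s.card * ∏ v, (gw d l (univ.filter fun v => q v ∈ phase (Lset s) ∩ U) v (nOcc s v))
        ^ (1 / (2 * d) : ℝ)) := sum_le_sum hpt
    _ = exp (2 * 2 ^ d / (d : ℝ) ^ 3) * ∑ s ∈ Om d,
      (l ^ s.card * ∏ v, (gw d l (univ.filter fun v => q v ∈ phase (Lset s) ∩ U) v (nOcc s v))
        ^ (1 / (2 * d) : ℝ)) := by rw [mul_sum]
    _ ≤ exp (2 * 2 ^ d / (d : ℝ) ^ 3) * (2 ^ U.card * (1 + l) ^ (2 ^ (d - 1))) :=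
        mul_le_mul_of_nonneg_left hinfo (exp_pos _).le
    _ = _ := by ring

end Pool.Agent.Lib.MP_c6118e_pr
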