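import Pool.Agent.Lib.MP_c6118e_pr.KAHN

/-! # MP_c6118e_pr, module ZBD: bounds for the partition function -/

namespace Pool.Agent.Lib.MP_c6118e_pr

open Finset Real

/-- **ZBD** (both bounds for the partition function) -/
theorem Zf_ge {d : ℕ} (hd : 1 ≤ d) {l : ℝ} (hl : 0 < l) : (1 + l) ^ (2 ^ (d - 1)) ≤ Zf d l := by
  rw [← card_par hd 0, ← sum_pow_card]
  unfold Zf
  apply sum_le_sum_of_subset_of_nonneg
  · intro B hB
    rw [mem_powerset] at hB
    rw [mem_Om]
    intro v hv i hi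
    have h1 := (mem_filter.1 (hB hv)).2
    have h2 := (mem_filter.1 (hB hi)).2
    rw [par_nb, h1] at h2
    exact absurd h2 (by decide)
  · intro s _ _; positivity

theorem Zf_le {d : ℕ} (hd : 1 ≤ d) {l : ℝ} (hl : 0 < l) :
    Zf d l ≤ (1 + l) ^ (2 ^ (d - 1)) * exp (log 2 * 2 ^ d / (2 * d)) := by
  have hd' : (0 : ℝ) < d := by exact_mod_cast hd
  have h := kahn_side hd hl 0 (fun _ _ => (1 / 2 : ℝ)) (fun _ _ => by norm_num) ?_
  · have e1 : ∏ v ∈ univ.filter (fun v : V d => par v = 0), ((1 / 2 : ℝ)) ^ (1 / d : ℝ)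
        = exp (-(log 2 * 2 ^ d / (2 * d))) := by
      rw [prod_const, card_par hd 0, ← rpow_natCast, ← rpow_mul (by norm_num),
        rpow_def_of_pos (by norm_num)]
      congr 1
      have : (2 : ℝ) ^ d = 2 * 2 ^ (d - 1) := by
        rw [← pow_succ']; congr 1; omega
      rw [this]
      have hl2 : log (1 / 2 : ℝ) = - log 2 := by rw [one_div, log_inv]
      rw [hl2]
      push_cast
      field_simp
    rw [← sum_mul, e1] at h
    unfold Zf
    rw [exp_neg, ← div_eq_mul_inv, div_le_iff₀ (exp_pos _)] at h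
    exact h
  · intro v
    rw [range_eq_Ico, sum_eq_sum_Ico_succ_bot (by omega)]
    have h0 : ∑ k ∈ Ico (0 + 1) (d + 1), (d.choose k : ℝ) * l ^ k *
        (if k = 0 then (1 + l) ^ d else 1) * (1 / 2) =
        (1 / 2) * ∑ k ∈ Ico (0 + 1) (d + 1), (d.choose k : ℝ) * l ^ k := by
      rw [mul_sum]
      apply sum_congr rfl
      intro k hk
      rw [mem_Ico] at hk
      rw [if_neg (by omega)]; ring
    have h1 : ∑ k ∈ Ico 0 (d + 1), (d.choose k : ℝ) * l ^ k = (1 + l) ^ d := by
      rw [← range_eq_Ico, add_comm (1 : ℝ) l, add_pow]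
      apply sum_congr rfl
      intro k _
      rw [one_pow, mul_one]; ring
    rw [sum_eq_sum_Ico_succ_bot (by omega)] at h1
    rw [h0]
    simp at h1 ⊢
    have : 0 < (1 + l) ^ d := by positivity
    nlinarith

end Pool.Agent.Lib.MP_c6118e_pr
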