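import Pool.Agent.Lib.MP_c6118e_pr.BDRY
import Pool.Agent.Lib.MP_c6118e_pr.CODE
import Pool.Agent.Lib.MP_c6118e_pr.GIB1
import Pool.Agent.Lib.MP_c6118e_pr.GIB2
import Pool.Agent.Lib.MP_c6118e_pr.GIB3
import Pool.Agent.Lib.MP_c6118e_pr.KEY
import Pool.Agent.Lib.MP_c6118e_pr.ZBD

/-! the upper bound for the balanced partition function -/


namespace Pool.Agent.Lib.MP_c6118e_pr

open Finset Real

/-- isoperimetry, summed -/
theorem I1 {d : ℕ} {l : ℝ} (hl : 0 < l) (x : ℝ)
    (hdense : Zx d l x / 2 ≤ ∑ s ∈ (Bx d x).filter (fun s => ∀ p : ZMod 2,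
      4 / 100 * (2 : ℝ) ^ d ≤ (((Lset s).filter fun v => par v = p).card : ℝ)), l ^ s.card) :
    19 / 1000 * 2 ^ d * Zx d l x ≤ 3 * ∑ s ∈ Bx d x, l ^ s.card * (eLL (Lset s) : ℝ)
      + (√d + 1) * ∑ s ∈ Bx d x, l ^ s.card * ((Ex (Lset s)).card : ℝ) := by
  have hN : (0 : ℝ) < 2 ^ d := by positivity
  set P : Finset (V d) → Prop := fun s => ∀ p : ZMod 2,
      4 / 100 * (2 : ℝ) ^ d ≤ (((Lset s).filter fun v => par v = p).card : ℝ) with hP
  have key : ∀ s : Finset (V d), P s →
      38 / 1000 * 2 ^ d ≤ 3 * (eLL (Lset s) : ℝ) + (√d + 1) * ((Ex (Lset s)).card : ℝ) := by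
    intro s hs
    refine le_trans ?_ (iso (Lset s))
    have h0 := hs 0
    have h1 := hs 1
    have h2 : (((Lset s).filter fun v => par v = 0).card : ℝ) ≤ ((phase (Lset s)).card : ℝ) := by
      exact_mod_cast card_le_card (by
        intro v hv
        rw [mem_filter] at hv
        rw [mem_phase]
        exact ⟨fun _ => hv.1, fun _ => hv.2⟩)
    have h3 : (((Lset s).filter fun v => par v = 1).card : ℝ) + ((phase (Lset s)).card : ℝ)
        ≤ 2 ^ d := by
      have hdis : Disjoint ((Lset s).filter fun v => par v = 1) (phase (Lset s)) := by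
        rw [Finset.disjoint_left]
        intro v hv hv'
        rw [mem_filter] at hv
        rw [mem_phase] at hv'
        have := hv'.2 hv.1
        rw [hv.2] at this
        exact one_ne_zero this
      have := card_union_of_disjoint hdis
      have h4 : ((((Lset s).filter fun v => par v = 1) ∪ phase (Lset s)).card) ≤ 2 ^ d := by
        calc _ ≤ (univ : Finset (V d)).card := card_le_card (subset_univ _)
          _ = 2 ^ d := by rw [card_univ, card_V]
      rw [this] at h4
      exact_mod_cast h4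
    set c : ℝ := ((phase (Lset s)).card : ℝ)
    rw [le_div_iff₀ hN]
    nlinarith [mul_nonneg (sub_nonneg.2 (h0.trans h2)) (sub_nonneg.2 (h1.trans (le_sub_iff_add_le.2 h3))),
      mul_pos hN hN]
  have hsum : ∑ s ∈ (Bx d x).filter P, l ^ s.card * (38 / 1000 * 2 ^ d) ≤
      ∑ s ∈ Bx d x, l ^ s.card * (3 * (eLL (Lset s) : ℝ) + (√d + 1) * ((Ex (Lset s)).card : ℝ)) := by
    calc _ ≤ ∑ s ∈ (Bx d x).filter P,
          l ^ s.card * (3 * (eLL (Lset s) : ℝ) + (√d + 1) * ((Ex (Lset s)).card : ℝ)) := by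
          apply sum_le_sum
          intro s hs
          rw [mem_filter] at hs
          exact mul_le_mul_of_nonneg_left (key s hs.2) (by positivity)
      _ ≤ _ := sum_le_sum_of_subset_of_nonneg (filter_subset _ _) fun _ _ _ => by positivity
  rw [← sum_mul] at hsum
  have h5 : ∑ s ∈ Bx d x, l ^ s.card *
      (3 * (eLL (Lset s) : ℝ) + (√d + 1) * ((Ex (Lset s)).card : ℝ)) =
      3 * ∑ s ∈ Bx d x, l ^ s.card * (eLL (Lset s) : ℝ)
      + (√d + 1) * ∑ s ∈ Bx d x, l ^ s.card * ((Ex (Lset s)).card : ℝ) := by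
    rw [mul_sum, mul_sum, ← sum_add_distrib]
    apply sum_congr rfl
    intro s _
    ring
  rw [h5] at hsum
  refine le_trans ?_ hsum
  have h6 : Zx d l x / 2 ≤ ∑ s ∈ (Bx d x).filter P, l ^ s.card := by
    convert hdense
  have h7 := mul_le_mul_of_nonneg_right h6 (by positivity : (0 : ℝ) ≤ 38 / 1000 * 2 ^ d)
  refine le_trans (le_of_eq ?_) h7
  ring

/-- Jensen step -/
theorem I2 {d : ℕ} (hd : 8 ≤ d) {l : ℝ} (hl : 0 < l) (x : ℝ) (hW : 0 < Zx d l x) :
    (1 / 6000 * log (1 + l) - log d / d) * (∑ s ∈ Bx d x, l ^ s.card * ((II l s).card : ℝ))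
      - log d / d * (8 / d * (3 * ∑ s ∈ Bx d x, l ^ s.card * (eLL (Lset s) : ℝ)
        + d * ∑ s ∈ Bx d x, l ^ s.card * ((Ex (Lset s)).card : ℝ)))
      ≤ Zx d l x * (16 * 2 ^ d / (d : ℝ) ^ 2 * log 2 + 2 * 2 ^ d / (d : ℝ) ^ 3
        + log (Zf d l / Zx d l x)) := by
  obtain ⟨U, q, hq, hU, hw⟩ := code hd
  have hd0 : (0 : ℝ) < d := by positivity
  have hN : (0 : ℝ) < 2 ^ d := by positivity
  set a : ℝ := 1 / 6000 * log (1 + l) - log d / d with ha
  set b : ℝ := log d / d with hb
  have hb0 : 0 ≤ b := by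
    rw [hb]
    have : (1 : ℝ) ≤ d := by exact_mod_cast (by omega : 1 ≤ d)
    have := log_nonneg this
    positivity
  set W := Zx d l x with hWdef
  have hZ := Zf_pos (d := d) hl
  -- for each t
  have step : ∀ t : V d, ∑ s ∈ Bx d x, l ^ s.card * (a * ((II l s).card : ℝ)
      - b * ((wrong (phase (Lset s)) (q t)).card : ℝ)) ≤
      W * (16 * 2 ^ d / (d : ℝ) ^ 2 * log 2 + 2 * 2 ^ d / (d : ℝ) ^ 3 + log (Zf d l / W)) := by
    intro t
    set φ : Finset (V d) → ℝ := fun s => a * ((II l s).card : ℝ)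
      - b * ((wrong (phase (Lset s)) (q t)).card : ℝ) with hφ
    have hk := key_ineq (by omega : 2 ≤ d) hl (U t) (q t) (hq t)
    have h1 : ∑ s ∈ Bx d x, l ^ s.card * exp (φ s) ≤
        2 ^ (U t).card * exp (2 * 2 ^ d / (d : ℝ) ^ 3) * Zf d l := by
      calc _ ≤ ∑ s ∈ Om d, l ^ s.card * exp (φ s) :=
            sum_le_sum_of_subset_of_nonneg (Bx_sub_Om x) fun _ _ _ => by positivity
        _ ≤ _ := hk
        _ ≤ _ := mul_le_mul_of_nonneg_left (Zf_ge (by omega) hl) (by positivity)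
    set A : ℝ := (∑ s ∈ Bx d x, l ^ s.card * φ s) / W with hA
    have h2 : exp A * W ≤ ∑ s ∈ Bx d x, l ^ s.card * exp (φ s) := by
      have h3 : ∀ s ∈ Bx d x, l ^ s.card * (exp A * (1 + φ s - A)) ≤ l ^ s.card * exp (φ s) := by
        intro s _
        apply mul_le_mul_of_nonneg_left _ (by positivity)
        have h4 := add_one_le_exp (φ s - A)
        have h5 : exp (φ s) = exp A * exp (φ s - A) := by rw [← exp_add]; ring_nf
        rw [h5]
        apply mul_le_mul_of_nonneg_left _ (exp_pos _).le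
        linarith
      refine le_trans (le_of_eq ?_) (sum_le_sum h3)
      have h6 : ∑ s ∈ Bx d x, l ^ s.card * (exp A * (1 + φ s - A)) =
          exp A * (∑ s ∈ Bx d x, l ^ s.card + ∑ s ∈ Bx d x, l ^ s.card * φ s
            - A * ∑ s ∈ Bx d x, l ^ s.card) := by
        rw [mul_sum (s := Bx d x) (a := A), ← sum_add_distrib, ← sum_sub_distrib, mul_sum]
        apply sum_congr rfl
        intro s _
        ring
      rw [h6]
      have h7 : ∑ s ∈ Bx d x, l ^ s.card = W := rfl
      rw [h7]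
      have h8 : ∑ s ∈ Bx d x, l ^ s.card * φ s = A * W := by
        rw [hA]; field_simp
      rw [h8]
      ring
    have h3 : exp A ≤ 2 ^ (U t).card * exp (2 * 2 ^ d / (d : ℝ) ^ 3) * (Zf d l / W) := by
      rw [← mul_div_assoc, le_div_iff₀ hW]
      exact h2.trans h1
    have h4 : A ≤ (U t).card * log 2 + 2 * 2 ^ d / (d : ℝ) ^ 3 + log (Zf d l / W) := by
      rw [← log_exp A]
      refine (log_le_log (exp_pos _) h3).trans (le_of_eq ?_)
      rw [log_mul (by positivity) (by positivity), log_mul (by positivity) (by positivity),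
        log_exp, log_pow]
    have h5 : A ≤ 16 * 2 ^ d / (d : ℝ) ^ 2 * log 2 + 2 * 2 ^ d / (d : ℝ) ^ 3
        + log (Zf d l / W) := by
      have : ((U t).card : ℝ) * log 2 ≤ 16 * 2 ^ d / (d : ℝ) ^ 2 * log 2 :=
        mul_le_mul_of_nonneg_right (hU t) (log_nonneg (by norm_num))
      linarith
    have h8 : ∑ s ∈ Bx d x, l ^ s.card * φ s = W * A := by
      rw [hA]; field_simp
    rw [h8]
    exact mul_le_mul_of_nonneg_left h5 hW.le
  -- sum over t
  have hsum := sum_le_sum fun t (_ : t ∈ (univ : Finset (V d))) => step t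
  rw [sum_const, card_univ, card_V, nsmul_eq_mul] at hsum
  have e1 : ∑ t : V d, ∑ s ∈ Bx d x, l ^ s.card * (a * ((II l s).card : ℝ)
      - b * ((wrong (phase (Lset s)) (q t)).card : ℝ)) =
      2 ^ d * (a * ∑ s ∈ Bx d x, l ^ s.card * ((II l s).card : ℝ))
      - b * ∑ s ∈ Bx d x, l ^ s.card * ∑ t, ((wrong (phase (Lset s)) (q t)).card : ℝ) := by
    rw [sum_comm]
    rw [mul_sum, mul_sum, mul_sum, ← sum_sub_distrib]
    apply sum_congr rfl
    intro s _
    rw [← mul_sum, sum_sub_distrib, sum_const, card_univ, card_V, nsmul_eq_mul, ← mul_sum]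
    push_cast
    ring
  have e2 : ∑ s ∈ Bx d x, l ^ s.card * ∑ t, ((wrong (phase (Lset s)) (q t)).card : ℝ) ≤
      2 ^ d * (8 / d * (3 * ∑ s ∈ Bx d x, l ^ s.card * (eLL (Lset s) : ℝ)
        + d * ∑ s ∈ Bx d x, l ^ s.card * ((Ex (Lset s)).card : ℝ))) := by
    have e3 : 2 ^ d * (8 / d * (3 * ∑ s ∈ Bx d x, l ^ s.card * (eLL (Lset s) : ℝ)
        + d * ∑ s ∈ Bx d x, l ^ s.card * ((Ex (Lset s)).card : ℝ))) =
        ∑ s ∈ Bx d x, l ^ s.card * (2 ^ d * (8 / d * (3 * (eLL (Lset s) : ℝ)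
          + d * ((Ex (Lset s)).card : ℝ)))) := by
      rw [mul_sum, mul_sum, ← sum_add_distrib, mul_sum, mul_sum]
      apply sum_congr rfl
      intro s _
      ring
    rw [e3]
    apply sum_le_sum
    intro s _
    apply mul_le_mul_of_nonneg_left _ (by positivity)
    refine (hw (phase (Lset s))).trans ?_
    apply mul_le_mul_of_nonneg_left _ hN.le
    apply mul_le_mul_of_nonneg_left _ (by positivity)
    have := bdry_le (Lset s)
    exact_mod_cast this
  rw [e1] at hsum
  have h9 := mul_le_mul_of_nonneg_left e2 hb0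
  have h10 : 2 ^ d * ((1 / 6000 * log (1 + l) - log d / d) *
        (∑ s ∈ Bx d x, l ^ s.card * ((II l s).card : ℝ))
      - log d / d * (8 / d * (3 * ∑ s ∈ Bx d x, l ^ s.card * (eLL (Lset s) : ℝ)
        + d * ∑ s ∈ Bx d x, l ^ s.card * ((Ex (Lset s)).card : ℝ))))
      ≤ 2 ^ d * (Zx d l x * (16 * 2 ^ d / (d : ℝ) ^ 2 * log 2 + 2 * 2 ^ d / (d : ℝ) ^ 3
        + log (Zf d l / Zx d l x))) := by
    rw [← ha, ← hb]
    push_cast at hsum
    linarith
  exact le_of_mul_le_mul_left h10 hN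


/-- purely numerical conclusion -/
theorem numeric {d : ℕ} {l lp m lg W Zt B EL EE ε N : ℝ} (hd : (500 : ℝ) ≤ d) (hN : 0 < N)
    (hW : 0 < W) (hlpl : lp ≤ l) (hm1 : m ≤ lp) (hm2 : m * √d ≤ 1)
    (hκ1 : 500000 * (log d / d) ≤ m) (hκ2 : 500000 * (log d / d) ≤ lg) (hB : 0 ≤ B)
    (hε : ε ≤ 2 / 1000 / d)
    (hEL : l * EL ≤ B) (hEL0 : 0 ≤ EL) (hEE : EE ≤ B + ε * N * W) (hEE0 : 0 ≤ EE)
    (h1 : 19 / 1000 * N * W ≤ 3 * EL + (√d + 1) * EE)
    (h2 : (1 / 6000 * lg - log d / d) * B - log d / d * (8 / d * (3 * EL + d * EE))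
      ≤ W * (16 * N / (d : ℝ) ^ 2 * log 2 + 2 * N / (d : ℝ) ^ 3 + Zt)) :
    1 / 8000000 * lg * m * N ≤ Zt := by
  have hd0 : (0 : ℝ) < d := by linarith
  set b : ℝ := log d / d with hb
  have hlog : 1 ≤ log d := by
    rw [le_log_iff_exp_le hd0]
    have := exp_one_lt_d9
    linarith
  have hb1 : 1 / d ≤ b := by
    rw [hb]; gcongr
  have hdi : (0 : ℝ) < 1 / d := by positivity
  have hb0 : 0 < b := by linarith
  have hm0 : 0 < m := by linarith
  have hlg0 : 0 < lg := by linarith
  have hsd : 1 ≤ √(d : ℝ) := by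
    rw [one_le_sqrt]; linarith
  have hml : m ≤ 1 := by nlinarith
  have hNW : 0 < N * W := by positivity
  have hε' : ε ≤ m / 1000000 := by
    have : 2 / 1000 / (d : ℝ) = 2 / 1000 * (1 / d) := by ring
    rw [this] at hε
    linarith
  -- step 1
  have s1 : 37 / 10000 * m * (N * W) ≤ B := by
    have a1 : m * (19 / 1000 * N * W) ≤ m * (3 * EL + (√d + 1) * EE) :=
      mul_le_mul_of_nonneg_left h1 hm0.le
    have a2 : m * EL ≤ B := le_trans (mul_le_mul_of_nonneg_right (hm1.trans hlpl) hEL0) hEL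
    have a3 : m * ((√d + 1) * EE) ≤ 2 * EE := by
      have : m * (√d + 1) ≤ 2 := by nlinarith
      have h := mul_le_mul_of_nonneg_right this hEE0
      linarith
    have a4 : ε * (N * W) ≤ m / 1000000 * (N * W) := mul_le_mul_of_nonneg_right hε' hNW.le
    have a5 : m * (19 / 1000 * N * W) = 19 / 1000 * (m * (N * W)) := by ring
    have a6 : m * (3 * EL + (√d + 1) * EE) = 3 * (m * EL) + m * ((√d + 1) * EE) := by ring
    have a7 : ε * N * W = ε * (N * W) := by ring
    have a8 : m / 1000000 * (N * W) = 1 / 1000000 * (m * (N * W)) := by ring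
    have a9 : 37 / 10000 * m * (N * W) = 37 / 10000 * (m * (N * W)) := by ring
    have a10 : 0 < m * (N * W) := by positivity
    rw [a5, a6] at a1
    rw [a7] at hEE
    rw [a8] at a4
    rw [a9]
    linarith
  -- step 2
  have s2 : 8 / d * (3 * EL + d * EE) ≤ 9 * B + 8 * (ε * N * W) := by
    have a1 : EL / d ≤ B / 500000 := by
      have : 1 / d ≤ l / 500000 := by linarith
      have a2 : EL * (1 / d) ≤ EL * (l / 500000) := mul_le_mul_of_nonneg_left this hEL0
      have a3 : EL / d = EL * (1 / d) := by ring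
      rw [a3]
      linarith
    have a2 : 8 / d * (3 * EL + d * EE) = 24 * (EL / d) + 8 * EE := by
      field_simp; ring
    rw [a2]
    linarith
  have s3 := mul_le_mul_of_nonneg_left s2 hb0.le
  have s4 : (1 / 6000 * lg - b) * B - b * (9 * B + 8 * (ε * N * W)) ≤
      W * (16 * N / (d : ℝ) ^ 2 * log 2 + 2 * N / (d : ℝ) ^ 3 + Zt) := by linarith
  have s5 : 16 * N / (d : ℝ) ^ 2 * log 2 + 2 * N / (d : ℝ) ^ 3 ≤ 12 * b ^ 2 * N := by
    have c1 : log 2 ≤ 0.7 := by
      have := log_two_lt_d9; linarith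
    have c2 : (1 / (d : ℝ)) ^ 2 ≤ b ^ 2 := by
      apply pow_le_pow_left₀ hdi.le hb1
    have c3 : (1 / (d : ℝ)) ≤ 1 / 500 := by
      apply one_div_le_one_div_of_le (by norm_num) hd
    have c4 : 16 * N / (d : ℝ) ^ 2 * log 2 = 16 * log 2 * (1 / (d : ℝ)) ^ 2 * N := by ring
    have c5 : 2 * N / (d : ℝ) ^ 3 = 2 * (1 / (d : ℝ)) * (1 / (d : ℝ)) ^ 2 * N := by ring
    rw [c4, c5]
    have c6 : (16 * log 2 + 2 * (1 / (d : ℝ))) * (1 / (d : ℝ)) ^ 2 ≤ 12 * b ^ 2 := by
      have : 16 * log 2 + 2 * (1 / (d : ℝ)) ≤ 12 := by linarith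
      have hq : 0 ≤ (1 / (d : ℝ)) ^ 2 := by positivity
      exact mul_le_mul this c2 hq (by norm_num)
    have c7 := mul_le_mul_of_nonneg_right c6 hN.le
    refine le_trans (le_of_eq ?_) c7
    ring
  have s6 : W * (12 * b ^ 2 * N + Zt) ≥
      lg * (1 / 6000 - 1 / 50000) * B - b * (8 * (ε * N * W)) := by
    have : b ≤ lg / 500000 := by linarith
    have h3 : b * B ≤ lg / 500000 * B := mul_le_mul_of_nonneg_right this hB
    have h4 := mul_le_mul_of_nonneg_left s5 hW.le
    have h5 : W * (16 * N / (d : ℝ) ^ 2 * log 2 + 2 * N / (d : ℝ) ^ 3 + Zt) =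
      W * (16 * N / (d : ℝ) ^ 2 * log 2 + 2 * N / (d : ℝ) ^ 3) + W * Zt := by ring
    rw [h5] at s4
    have h6 : (1 / 6000 * lg - b) * B - b * (9 * B + 8 * (ε * N * W)) =
      lg / 6000 * B - 10 * (b * B) - b * (8 * (ε * N * W)) := by ring
    rw [h6] at s4
    have h7 : lg * (1 / 6000 - 1 / 50000) * B = lg / 6000 * B - 10 * (lg / 500000 * B) := by ring
    rw [h7, mul_add]
    linarith
  have s7 : b * (8 * (ε * N * W)) ≤ b ^ 2 * (N * W) := by
    have : 8 * ε ≤ b := by
      have h3 : 2 / 1000 / (d : ℝ) = 2 / 1000 * (1 / d) := by ring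
      rw [h3] at hε
      linarith
    have h4 := mul_le_mul_of_nonneg_right this hNW.le
    have h5 := mul_le_mul_of_nonneg_left h4 hb0.le
    refine le_trans (le_of_eq ?_) (le_trans h5 (le_of_eq ?_)) <;> ring
  have s8 : b ^ 2 ≤ lg * m / 250000000000 := by
    have h3 : 500000 * b * (500000 * b) ≤ lg * m := by
      apply mul_le_mul hκ2 hκ1 (by positivity) hlg0.le
    have h4 : 500000 * b * (500000 * b) = 250000000000 * b ^ 2 := by ring
    rw [h4] at h3
    linarith
  have s9 : lg * (1 / 6000 - 1 / 50000) * (37 / 10000 * m * (N * W)) ≤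
      lg * (1 / 6000 - 1 / 50000) * B := mul_le_mul_of_nonneg_left s1 (by positivity)
  have s10 : W * (1 / 8000000 * lg * m * N) ≤ W * Zt := by
    have h3 : 13 * b ^ 2 * (N * W) ≤ 13 * (lg * m / 250000000000) * (N * W) := by
      apply mul_le_mul_of_nonneg_right _ hNW.le
      linarith
    have h4 : 0 < lg * m * (N * W) := by positivity
    have h5 : lg * (1 / 6000 - 1 / 50000) * (37 / 10000 * m * (N * W)) =
      (1 / 6000 - 1 / 50000) * (37 / 10000) * (lg * m * (N * W)) := by ring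
    have h6 : 13 * (lg * m / 250000000000) * (N * W) =
      13 / 250000000000 * (lg * m * (N * W)) := by ring
    have h7 : W * (12 * b ^ 2 * N + Zt) = 12 * (b ^ 2 * (N * W)) + W * Zt := by ring
    have h8 : W * (1 / 8000000 * lg * m * N) = 1 / 8000000 * (lg * m * (N * W)) := by ring
    have h9 : 13 * b ^ 2 * (N * W) = 13 * (b ^ 2 * (N * W)) := by ring
    rw [h8]
    rw [h7] at s6
    rw [h5] at s9
    rw [h6, h9] at h3
    linarith
  exact le_of_mul_le_mul_left s10 hW

theorem pigeon {J : ℕ} (hJ : 1 ≤ J) (f : ℕ → ℝ) {T : ℝ}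
    (hT : f J < exp T * f 0) : ∃ j < J, f (j + 1) ≤ exp (T / J) * f j := by
  by_contra hcon
  push Not at hcon
  have h : ∀ k ≤ J, exp (T / J * k) * f 0 ≤ f k := by
    intro k
    induction k with
    | zero => intro _; simp
    | succ k ih =>
      intro hk
      have h1 := ih (by omega)
      have h2 := hcon k (by omega)
      have h3 : exp (T / J * ((k + 1 : ℕ) : ℝ)) = exp (T / J) * exp (T / J * k) := by
        rw [← exp_add]; push_cast; ring_nf
      rw [h3, mul_assoc]
      exact (mul_le_mul_of_nonneg_left h1 (exp_pos _).le).trans h2.le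
  have h1 := h J le_rfl
  have h2 : T / J * (J : ℝ) = T := by
    have : (J : ℝ) ≠ 0 := by positivity
    field_simp
  rw [h2] at h1
  linarith

theorem sum_le_two {α : Type*} [DecidableEq α] (A B₀ B₁ : Finset α) (f : α → ℝ) (hf : ∀ a, 0 ≤ f a)
    (h : ∀ a ∈ A, a ∈ B₀ ∨ a ∈ B₁) : ∑ a ∈ A, f a ≤ ∑ a ∈ B₀, f a + ∑ a ∈ B₁, f a := by
  rw [← sum_union_inter]
  have h1 : ∑ a ∈ A, f a ≤ ∑ a ∈ B₀ ∪ B₁, f a :=
    sum_le_sum_of_subset_of_nonneg (fun a ha => mem_union.2 (h a ha)) fun a _ _ => hf a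
  have h2 : 0 ≤ ∑ a ∈ B₀ ∩ B₁, f a := sum_nonneg fun a _ => hf a
  linarith

theorem upper : ∃ C c : ℝ, ∃ d₀ : ℕ, 0 < C ∧ 0 < c ∧ ∀ d ≥ d₀, ∀ l : ℝ, C * log d / d ≤ l →
    Zx d l (1 / 10 * (l / (1 + l)) * 2 ^ d)
      ≤ exp (-(c * log (1 + l) * min (l / (1 + l)) (1 / √d) * 2 ^ d)) * Zf d l := by
  have E2 : ∀ᶠ d : ℕ in Filter.atTop, 500000 * log d ≤ √(d : ℝ) := by
    have h1 : (fun x : ℝ => log x) =o[Filter.atTop] fun x : ℝ => x ^ (1 / 2 : ℝ) :=
      isLittleO_log_rpow_atTop (by norm_num)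
    have h2 := (h1.def (by norm_num : (0 : ℝ) < 1 / 500000)).natCast_atTop
    filter_upwards [h2, Filter.eventually_ge_atTop 1] with d h3 h4
    have h5 : (1 : ℝ) ≤ d := by exact_mod_cast h4
    rw [norm_of_nonneg (log_nonneg h5), norm_of_nonneg (by positivity), ← sqrt_eq_rpow] at h3
    linarith
  have E3 : ∀ᶠ d : ℕ in Filter.atTop, 1000 * (d : ℝ) ^ 2 ≤ 2 ^ d := by
    have h1 := (isLittleO_pow_const_const_pow_of_one_lt (R := ℝ) 2 (by norm_num : (1 : ℝ) < 2)).def
      (by norm_num : (0 : ℝ) < 1 / 1000)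
    filter_upwards [h1] with d h2
    rw [norm_of_nonneg (by positivity), norm_of_nonneg (by positivity)] at h2
    linarith
  obtain ⟨d₀, hd₀⟩ := Filter.eventually_atTop.1
    ((E2.and E3).and (Filter.eventually_ge_atTop 500))
  refine ⟨1000000, 1 / 10000000, d₀, by norm_num, by norm_num, ?_⟩
  intro d hd l hl
  obtain ⟨⟨e2, e3⟩, e4⟩ := hd₀ d hd
  have hd5 : (500 : ℝ) ≤ d := by exact_mod_cast e4
  have hd0 : (0 : ℝ) < d := by linarith
  set N : ℝ := 2 ^ d with hNdef
  have hN : 0 < N := by positivity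
  have hlog : 1 ≤ log d := by
    rw [le_log_iff_exp_le hd0]
    have := exp_one_lt_d9
    linarith
  set κ : ℝ := 500000 * (log d / d) with hκ
  have hκ0 : 0 < κ := by positivity
  have hκl : 2 * κ ≤ l := by
    refine le_trans (le_of_eq ?_) hl
    rw [hκ]; ring
  have hl0 : 0 < l := by linarith
  have hsd0 : 0 < √(d : ℝ) := by positivity
  have hκs : κ ≤ 1 / √d := by
    rw [hκ, le_div_iff₀ hsd0, ← mul_div_assoc, div_mul_eq_mul_div, div_le_one hd0]
    calc 500000 * log d * √d ≤ √d * √d := mul_le_mul_of_nonneg_right e2 hsd0.le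
      _ = d := mul_self_sqrt hd0.le
  have hs2 : (2 : ℝ) ≤ √d := by
    rw [le_sqrt (by norm_num) hd0.le]; linarith
  have hs2' : 1 / √(d : ℝ) ≤ 1 / 2 := one_div_le_one_div_of_le (by norm_num) hs2
  set lp : ℝ := l / (1 + l) with hlp
  have hlp0 : 0 < lp := by positivity
  have hlp1 : lp ≤ l := by
    rw [hlp]; exact div_le_self hl0.le (by linarith)
  have hlpκ : κ ≤ lp := by
    rw [hlp, le_div_iff₀ (by linarith)]
    rcases le_total l 1 with h | h
    · nlinarith
    · nlinarith
  set lg : ℝ := log (1 + l) with hlg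
  have hlglp : lp ≤ lg := by
    have := one_sub_inv_le_log_of_pos (by linarith : 0 < 1 + l)
    refine le_trans (le_of_eq ?_) this
    rw [hlp]; field_simp; ring
  have hlgl : lg ≤ l := by
    have := log_le_sub_one_of_pos (by linarith : 0 < 1 + l)
    linarith
  have hlgκ : κ ≤ lg := hlpκ.trans hlglp
  set m : ℝ := min lp (1 / √d) with hm
  have hmlp : m ≤ lp := min_le_left _ _
  have hms : m ≤ 1 / √d := min_le_right _ _
  have hmκ : κ ≤ m := le_min hlpκ hκs
  have hm0 : 0 < m := by linarith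
  have hmsd : m * √d ≤ 1 := by
    rw [le_div_iff₀ hsd0] at hms; exact hms
  have hlg0 : 0 < lg := by linarith
  set x0 : ℝ := 1 / 10 * lp * N with hx0
  set T : ℝ := 1 / 10000000 * lg * m * N with hT
  have hT0 : 0 < T := by positivity
  by_contra hcon
  push Not at hcon
  have hZ := Zf_pos (d := d) hl0
  have hlpd : 1 / d ≤ lp := by
    have : 1 / (d : ℝ) ≤ κ := by
      rw [hκ, ← mul_div_assoc]; gcongr; linarith
    linarith
  have hx0d : 1 ≤ x0 / (10 * d) := by
    rw [le_div_iff₀ (by positivity), one_mul, hx0]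
    have h1 : 1 / 10 * (1 / d) * (1000 * (d : ℝ) ^ 2) ≤ 1 / 10 * lp * N := by gcongr
    have h2 : 1 / 10 * (1 / d) * (1000 * (d : ℝ) ^ 2) = 100 * d := by field_simp; norm_num
    linarith
  set J : ℕ := ⌊x0 / (10 * d)⌋₊ with hJ
  have hJ1 : 1 ≤ J := Nat.le_floor (by exact_mod_cast hx0d)
  have hJle : (J : ℝ) ≤ x0 / (10 * d) := Nat.floor_le (by positivity)
  have hJge : x0 / (20 * d) ≤ J := by
    have h1 := Nat.lt_floor_add_one (x0 / (10 * d))
    have h2 : (1 : ℝ) ≤ J := by exact_mod_cast hJ1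
    have h3 : x0 / (20 * d) = x0 / (10 * d) / 2 := by
      rw [div_div]; congr 1; ring
    rw [h3]
    rw [← hJ] at h1
    linarith
  have hf0 : 0 < Zx d l x0 := lt_of_le_of_lt (by positivity) hcon
  have hfpos : ∀ j : ℕ, 0 < Zx d l (x0 - j * d) := fun j =>
    lt_of_lt_of_le hf0 (Zx_anti hl0 (by
      have : (0 : ℝ) ≤ j * d := by positivity
      linarith))
  have hZT : Zf d l < exp T * Zx d l x0 := by
    have h1 := mul_lt_mul_of_pos_left hcon (exp_pos T)
    have h2 : exp T * (exp (-T) * Zf d l) = Zf d l := by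
      rw [← mul_assoc, ← exp_add, add_neg_cancel, exp_zero, one_mul]
    rw [h2] at h1
    exact h1
  obtain ⟨j, hjJ, hj⟩ := pigeon hJ1 (fun j => Zx d l (x0 - j * d)) (T := T) (by
    simp only [Nat.cast_zero, zero_mul, sub_zero]
    exact lt_of_le_of_lt (Zx_le_Zf hl0 _) hZT)
  set x : ℝ := x0 - j * d with hx
  have hxx0 : x ≤ x0 := by
    have : (0 : ℝ) ≤ j * d := by positivity
    linarith
  have hx9 : 9 / 100 * lp * N ≤ x := by
    have h1 : (j : ℝ) ≤ J := by exact_mod_cast hjJ.le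
    have h2 : (j : ℝ) * d ≤ x0 / 10 := by
      calc (j : ℝ) * d ≤ x0 / (10 * d) * d := by gcongr; exact h1.trans hJle
        _ = x0 / 10 := by field_simp
    rw [hx, hx0] at *
    linarith
  set W := Zx d l x with hW
  have hW0 : 0 < W := hfpos j
  have hWx0 : Zx d l x0 ≤ W := Zx_anti hl0 hxx0
  have hZW : Zf d l < exp T * W :=
    lt_of_lt_of_le hZT (mul_le_mul_of_nonneg_left hWx0 (exp_pos T).le)
  have hxd : Zx d l (x - d) ≤ exp (T / J) * W := by
    have h1 : x0 - ((j + 1 : ℕ) : ℝ) * d = x - d := by rw [hx]; push_cast; ring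
    simp only [h1] at hj
    exact hj
  -- dense part
  have hdense : W / 2 ≤ ∑ s ∈ (Bx d x).filter (fun s => ∀ p : ZMod 2,
      4 / 100 * (2 : ℝ) ^ d ≤ (((Lset s).filter fun v => par v = p).card : ℝ)), l ^ s.card := by
    have hcnt : ∀ s ∈ Bx d x, ∀ p : ZMod 2, 9 / 100 * lp * N < (cnt p s : ℝ) := by
      intro s hs p
      rw [mem_Bx] at hs
      rcases zmod2_cases p with rfl | rfl
      · exact lt_of_le_of_lt hx9 hs.2.1
      · exact lt_of_le_of_lt hx9 hs.2.2
    have hsplit : W = ∑ s ∈ (Bx d x).filter (fun s => ∀ p : ZMod 2,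
      4 / 100 * (2 : ℝ) ^ d ≤ (((Lset s).filter fun v => par v = p).card : ℝ)), l ^ s.card +
      ∑ s ∈ (Bx d x).filter (fun s => ¬ ∀ p : ZMod 2,
      4 / 100 * (2 : ℝ) ^ d ≤ (((Lset s).filter fun v => par v = p).card : ℝ)), l ^ s.card :=
      (sum_filter_add_sum_filter_not _ _ _).symm
    suffices h : ∑ s ∈ (Bx d x).filter (fun s => ¬ ∀ p : ZMod 2,
      4 / 100 * (2 : ℝ) ^ d ≤ (((Lset s).filter fun v => par v = p).card : ℝ)), l ^ s.card
      ≤ W / 2 by linarith
    rcases le_or_gt l 1 with hl1 | hl1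
    · have h2 : ∑ s ∈ (Bx d x).filter (fun s => ¬ ∀ p : ZMod 2,
          4 / 100 * (2 : ℝ) ^ d ≤ (((Lset s).filter fun v => par v = p).card : ℝ)), l ^ s.card
          ≤ exp (-(l / (1 + l) * 2 ^ d / 50)) * Zf d l
            + exp (-(l / (1 + l) * 2 ^ d / 50)) * Zf d l := by
        refine (sum_le_two _ _ _ _ (fun _ => by positivity) ?_).trans
          (add_le_add (dens hl0 0) (dens hl0 1))
        intro s hs
        rw [mem_filter] at hs
        obtain ⟨hs1, hs2⟩ := hs
        push Not at hs2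
        obtain ⟨p, hp⟩ := hs2
        rcases zmod2_cases p with rfl | rfl
        · left; exact mem_filter.2 ⟨Bx_sub_Om x hs1, hcnt s hs1 0, hp⟩
        · right; exact mem_filter.2 ⟨Bx_sub_Om x hs1, hcnt s hs1 1, hp⟩
      have h3 : exp (-(l / (1 + l) * 2 ^ d / 50)) * Zf d l ≤ W / 4 := by
        have h4 : exp (-(l / (1 + l) * 2 ^ d / 50)) * Zf d l ≤
            exp (-(l / (1 + l) * 2 ^ d / 50)) * (exp T * W) :=
          mul_le_mul_of_nonneg_left hZW.le (exp_pos _).le
        refine h4.trans ?_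
        rw [← mul_assoc, ← exp_add]
        have hN1 : lp * N ≥ 1000 := by
          have h1 : (1 / d) * (1000 * (d : ℝ) ^ 2) ≤ lp * N := by gcongr
          have h2 : (1 / d) * (1000 * (d : ℝ) ^ 2) = 1000 * d := by field_simp
          linarith
        have h5 : T ≤ lp * N / 100 := by
          have : lg ≤ 2 * lp := by
            have : l ≤ 2 * lp := by
              rw [hlp, ← mul_div_assoc, le_div_iff₀ (by linarith)]; nlinarith
            linarith
          have hm1 : m ≤ 1 := by linarith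
          rw [hT]
          have h6 : lg * m ≤ 2 * lp * 1 := mul_le_mul this hm1 hm0.le (by positivity)
          nlinarith
        have h6 : exp (-(l / (1 + l) * 2 ^ d / 50) + T) ≤ 1 / 4 := by
          have h7 : -(l / (1 + l) * 2 ^ d / 50) + T ≤ -10 := by
            have : l / (1 + l) * 2 ^ d / 50 = lp * N / 50 := rfl
            rw [this]
            linarith
          refine (exp_le_exp.2 h7).trans ?_
          rw [exp_neg]
          have h8 := add_one_le_exp (10 : ℝ)
          have h9 : (exp 10)⁻¹ ≤ (4 : ℝ)⁻¹ := inv_anti₀ (by norm_num) (by linarith)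
          linarith
        nlinarith
      linarith
    · have h1 : (Bx d x).filter (fun s => ¬ ∀ p : ZMod 2,
          4 / 100 * (2 : ℝ) ^ d ≤ (((Lset s).filter fun v => par v = p).card : ℝ)) = ∅ := by
        rw [filter_eq_empty_iff]
        intro s hs hn
        apply hn
        intro p
        have h2 := hcnt s hs p
        have h3 : (cnt p s : ℝ) ≤ (((Lset s).filter fun v => par v = p).card : ℝ) := by
          unfold cnt
          have : (s.filter fun v => par v = p) ⊆ (Lset s).filter fun v => par v = p := by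
            apply filter_subset_filter
            intro v hv
            rw [mem_Lset]
            exact (mem_Bx.1 hs).1.nOcc hv
          exact_mod_cast card_le_card this
        have h4 : 1 / 2 ≤ lp := by
          rw [hlp, le_div_iff₀ (by linarith)]; linarith
        have h5 : 9 / 100 * (1 / 2) * N ≤ 9 / 100 * lp * N := by gcongr
        change 4 / 100 * N ≤ _
        linarith
      rw [h1, sum_empty]
      positivity
  -- exposed part
  set B : ℝ := ∑ s ∈ Bx d x, l ^ s.card * ((II l s).card : ℝ) with hB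
  set EL : ℝ := ∑ s ∈ Bx d x, l ^ s.card * (eLL (Lset s) : ℝ) with hEL
  set EE : ℝ := ∑ s ∈ Bx d x, l ^ s.card * ((Ex (Lset s)).card : ℝ) with hEE
  have hB0 : 0 ≤ B := sum_nonneg fun _ _ => by positivity
  have hEL0 : 0 ≤ EL := sum_nonneg fun _ _ => by positivity
  have hEE0 : 0 ≤ EE := sum_nonneg fun _ _ => by positivity
  have hb1 : 1 ≤ 7 / 8 * (l / (1 + l)) * d := by
    have h1 : κ * d ≤ lp * d := by gcongr
    have h2 : κ * d = 500000 * log d := by rw [hκ]; field_simp
    change 1 ≤ 7 / 8 * lp * d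
    linarith
  have hELB : l * EL ≤ B := eLL_le hl0 hb1 x
  have hexp : ∃ ε : ℝ, ε ≤ 2 / 1000 / d ∧ EE ≤ B + ε * N * W := by
    rcases le_or_gt l 6 with hl6 | hl6
    · refine ⟨exp (-(lp * d / 220)), ?_, ?_⟩
      · have h1 : -(lp * d / 220) ≤ -(2 * log d) := by
          have h1 : κ * d ≤ lp * d := by gcongr
          have h2 : κ * d = 500000 * log d := by rw [hκ]; field_simp
          linarith
        refine (exp_le_exp.2 h1).trans ?_
        rw [exp_neg, two_mul, exp_add, exp_log hd0, div_eq_mul_inv (2 / 1000 : ℝ) (d : ℝ), mul_inv]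
        apply mul_le_mul_of_nonneg_right _ (by positivity)
        rw [inv_le_comm₀ hd0 (by norm_num)]
        linarith
      · refine (Ex_le hl0 x).trans ?_
        have h1 : T / J ≤ lp * d / 220 := by
          have hJ0 : (0 : ℝ) < J := by exact_mod_cast hJ1
          have hlg7 : lg ≤ 7 * lp := by
            have : l ≤ 7 * lp := by
              rw [hlp, ← mul_div_assoc, le_div_iff₀ (by linarith)]; nlinarith
            linarith
          rw [div_le_iff₀ hJ0]
          have h2 : lp * d / 220 * (x0 / (20 * d)) ≤ lp * d / 220 * J :=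
            mul_le_mul_of_nonneg_left hJge (by positivity)
          refine le_trans ?_ h2
          have h3 : lp * d / 220 * (x0 / (20 * d)) = 1 / 44000 * (lp * lp * N) := by
            rw [hx0]; field_simp; norm_num
          rw [h3, hT]
          have h4 : lg * m ≤ 7 * lp * lp := mul_le_mul hlg7 hmlp hm0.le (by positivity)
          have h5 : lg * m * N ≤ 7 * lp * lp * N := mul_le_mul_of_nonneg_right h4 hN.le
          have h6 : 0 < lp * lp * N := by positivity
          nlinarith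
        have h2 : exp (-(l / (1 + l) * d / 110)) * Zx d l (x - d) ≤ exp (-(lp * d / 220)) * W := by
          calc _ ≤ exp (-(lp * d / 110)) * (exp (T / J) * W) :=
                mul_le_mul_of_nonneg_left hxd (exp_pos _).le
            _ = exp (-(lp * d / 110) + T / J) * W := by rw [exp_add]; ring
            _ ≤ _ := by
                apply mul_le_mul_of_nonneg_right _ hW0.le
                apply exp_le_exp.2
                linarith
        have h3 := mul_le_mul_of_nonneg_left h2 hN.le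
        calc _ = B + N * (exp (-(l / (1 + l) * d / 110)) * Zx d l (x - d)) := by
              rw [hB, hNdef]; ring
          _ ≤ B + N * (exp (-(lp * d / 220)) * W) := by linarith
          _ = _ := by ring
    · refine ⟨0, by positivity, ?_⟩
      rw [zero_mul, zero_mul, add_zero]
      apply sum_le_sum
      intro s hs
      apply mul_le_mul_of_nonneg_left _ (by positivity)
      exact_mod_cast card_le_card (Ex_sub_II hl6 (Bx_sub_Om x hs))
  obtain ⟨ε, hε, hEEB⟩ := hexp
  have i1 := I1 hl0 x hdense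
  have i2 := I2 (by omega : 8 ≤ d) hl0 x hW0
  have hfin := numeric (d := d) (l := l) (lp := lp) (m := m) (lg := lg) (W := W)
    (Zt := log (Zf d l / W)) (B := B) (EL := EL) (EE := EE) (ε := ε) (N := N) hd5 hN hW0
    hlp1 hmlp hmsd hmκ hlgκ hB0 hε hELB hEL0 hEEB hEE0 i1 i2
  have hlt : log (Zf d l / W) < T := by
    rw [log_lt_iff_lt_exp (by positivity), div_lt_iff₀ hW0]
    exact hZW
  have hpos : 0 < lg * m * N := by positivity
  rw [hT] at hlt
  nlinarith

end Pool.Agent.Lib.MP_c6118e_pr
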