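import Pool.Agent.Lib.MP_c6118e_pr.Bridge
import Pool.Agent.Lib.MP_c6118e_pr.UPPER
import Pool.Agent.Lib.MP_c6118e_pr.LBL
import Pool.Agent.Lib.MP_c6118e_pr.LBS

namespace Pool.Agent.Lib.MP_c6118e_pr

open Finset Real

theorem exp_le_muBal {d : ℕ} {l A : ℝ} (hl : 0 < l)
    (h : exp (-A) * Zf d l ≤ Zx d l (1 / 10 * (l / (1 + l)) * 2 ^ d)) :
    exp (-A) ≤ Model.muBal d l := by
  rw [muBal_eq, le_div_iff₀ (Zf_pos hl)]
  exact h

theorem muBal_le_exp {d : ℕ} {l A : ℝ} (hl : 0 < l)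
    (h : Zx d l (1 / 10 * (l / (1 + l)) * 2 ^ d) ≤ exp (-A) * Zf d l) :
    Model.muBal d l ≤ exp (-A) := by
  rw [muBal_eq, div_le_iff₀ (Zf_pos hl)]
  exact h

theorem final2 : ∃ C c : ℝ, ∃ d₀ : ℕ, 0 < C ∧ 0 < c ∧ ∀ d ≥ d₀, ∀ l : ℝ, C / d ≤ l →
    l ≤ 1 / √d → exp (-(c * (l ^ 2 * 2 ^ d))) ≤ Model.muBal d l := by
  obtain ⟨C, c, d₀, hC, hc, h⟩ := lower_small
  refine ⟨C, c, max d₀ 1, hC, hc, fun d hd l h1 h2 => ?_⟩
  have hd1 : 1 ≤ d := (le_max_right _ _).trans hd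
  have hd0 : (0 : ℝ) < d := by exact_mod_cast hd1
  have hl : 0 < l := lt_of_lt_of_le (by positivity) h1
  apply exp_le_muBal hl
  have := h d ((le_max_left _ _).trans hd) l h1 h2
  rw [mul_assoc c] at this
  exact this

theorem final1 : ∃ C c₁ c₂ : ℝ, ∃ d₀ : ℕ, 0 < C ∧ 0 < c₁ ∧ 0 < c₂ ∧ ∀ d ≥ d₀, ∀ l : ℝ,
    (C * log d / d ≤ l → l ≤ 1 / √d →
      exp (-(c₂ * (l ^ 2 * 2 ^ d))) ≤ Model.muBal d l ∧
      Model.muBal d l ≤ exp (-(c₁ * (l ^ 2 * 2 ^ d)))) ∧
    (1 / √d ≤ l →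
      exp (-(c₂ * (log (1 + l) / √d * 2 ^ d))) ≤ Model.muBal d l ∧
      Model.muBal d l ≤ exp (-(c₁ * (log (1 + l) / √d * 2 ^ d)))) := by
  obtain ⟨Cu, cu, du, hCu, hcu, hu⟩ := upper
  obtain ⟨Cs, cs, ds, hCs, hcs, hs⟩ := lower_small
  obtain ⟨cl, dl, hcl, hL⟩ := lower_large
  have E2 : ∀ᶠ d : ℕ in Filter.atTop, Cu * log d ≤ √(d : ℝ) := by
    have h1 : (fun x : ℝ => log x) =o[Filter.atTop] fun x : ℝ => x ^ (1 / 2 : ℝ) :=
      isLittleO_log_rpow_atTop (by norm_num)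
    have h2 := (h1.def (by positivity : (0 : ℝ) < 1 / Cu)).natCast_atTop
    filter_upwards [h2, Filter.eventually_ge_atTop 1] with d h3 h4
    have h5 : (1 : ℝ) ≤ d := by exact_mod_cast h4
    rw [norm_of_nonneg (log_nonneg h5), norm_of_nonneg (by positivity), ← sqrt_eq_rpow,
      one_div_mul_eq_div, le_div_iff₀ hCu] at h3
    linarith
  obtain ⟨d1, hd1⟩ := Filter.eventually_atTop.1 E2
  refine ⟨max Cu Cs, cu / 4, max cs cl, max (max du ds) (max dl (max d1 4)),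
    lt_max_of_lt_left hCu, by positivity, lt_max_of_lt_left hcs, ?_⟩
  intro d hd l
  have h1 : du ≤ d := le_trans (by simp) hd
  have h2 : ds ≤ d := le_trans (by simp) hd
  have h3 : dl ≤ d := le_trans (by simp) hd
  have h4 : d1 ≤ d := le_trans (by simp) hd
  have h5 : 4 ≤ d := le_trans (by simp) hd
  have hd4 : (4 : ℝ) ≤ d := by exact_mod_cast h5
  have hd0 : (0 : ℝ) < d := by linarith
  have hlog : 1 ≤ log d := by
    rw [le_log_iff_exp_le hd0]
    have := exp_one_lt_d9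
    linarith
  have hN : (0 : ℝ) < 2 ^ d := by positivity
  have hs0 : 0 < √(d : ℝ) := by positivity
  constructor
  · intro hl1 hl2
    have hCul : Cu * log d / d ≤ l := le_trans (by gcongr; exact le_max_left _ _) hl1
    have hCsl : Cs / d ≤ l := by
      refine le_trans ?_ hl1
      gcongr
      calc Cs = Cs * 1 := (mul_one _).symm
        _ ≤ max Cu Cs * log d := by gcongr; exact le_max_right _ _
    have hl0 : 0 < l := lt_of_lt_of_le (by positivity) hCsl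
    constructor
    · refine le_trans ?_ (exp_le_muBal hl0 (hs d h2 l hCsl hl2))
      apply exp_le_exp.2
      have : cs * (l ^ 2 * 2 ^ d) ≤ max cs cl * (l ^ 2 * 2 ^ d) := by gcongr; exact le_max_left _ _
      linarith
    · refine (muBal_le_exp hl0 (hu d h1 l hCul)).trans ?_
      apply exp_le_exp.2
      have h6 := mul_le_mul_of_nonneg_left ((min_ge h5 hl0).1 hl2) (by positivity : 0 ≤ cu * 2 ^ d)
      have h7 : cu * 2 ^ d * (1 / 4 * l ^ 2) = cu / 4 * (l ^ 2 * 2 ^ d) := by ring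
      have h8 : cu * 2 ^ d * (log (1 + l) * min (l / (1 + l)) (1 / √d)) =
        cu * log (1 + l) * min (l / (1 + l)) (1 / √d) * 2 ^ d := by ring
      rw [h7, h8] at h6
      linarith
  · intro hl1
    have hl0 : 0 < l := lt_of_lt_of_le (by positivity) hl1
    have hCul : Cu * log d / d ≤ l := by
      refine le_trans ?_ hl1
      rw [div_le_div_iff₀ hd0 hs0, one_mul]
      calc Cu * log d * √d ≤ √d * √d := mul_le_mul_of_nonneg_right (hd1 d h4) hs0.le
        _ = d := mul_self_sqrt hd0.le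
    have hlog0 : 0 ≤ log (1 + l) := log_nonneg (by linarith)
    constructor
    · refine le_trans ?_ (exp_le_muBal hl0 (hL d h3 l hl1))
      apply exp_le_exp.2
      have : cl * (log (1 + l) / √d * 2 ^ d) ≤ max cs cl * (log (1 + l) / √d * 2 ^ d) := by
        gcongr; exact le_max_right _ _
      linarith
    · refine (muBal_le_exp hl0 (hu d h1 l hCul)).trans ?_
      apply exp_le_exp.2
      have h6 := mul_le_mul_of_nonneg_left ((min_ge h5 hl0).2 hl1) (by positivity : 0 ≤ cu * 2 ^ d)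
      have h7 : cu * 2 ^ d * (1 / 2 * (log (1 + l) / √d)) =
        2 * (cu / 4 * (log (1 + l) / √d * 2 ^ d)) := by ring
      have h8 : cu * 2 ^ d * (log (1 + l) * min (l / (1 + l)) (1 / √d)) =
        cu * log (1 + l) * min (l / (1 + l)) (1 / √d) * 2 ^ d := by ring
      rw [h7, h8] at h6
      have h9 : 0 ≤ cu / 4 * (log (1 + l) / √d * 2 ^ d) := by positivity
      linarith

end Pool.Agent.Lib.MP_c6118e_pr
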