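import Pool.Agent.Lib.MP_c6118e_pr.TAL

/-!
# ISO, BDRY: isoperimetry for the phase set
-/

namespace Pool.Agent.Lib.MP_c6118e_pr

open Finset Real

namespace ISO

variable {d : ℕ}

theorem card_pairs {α β : Type*} [Fintype α] [Fintype β] (p : α → Prop) (q : α → β → Prop)
    [DecidablePred p] [∀ a, DecidablePred (q a)] :
    ∑ v ∈ univ.filter p, (univ.filter (q v)).card =
      (univ.filter fun a : α × β => p a.1 ∧ q a.1 a.2).card := by
  rw [Finset.card_filter, Fintype.sum_prod_type, Finset.sum_filter]
  refine Finset.sum_congr rfl fun v _ => ?_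
  by_cases h : p v
  · simp only [h, true_and, if_true]
    rw [Finset.card_filter]
  · simp [h]

/-- shifting pairs into a set -/
theorem sum_shift_le (P Q : Finset (V d × Fin d)) :
    ∑ a ∈ P, (univ.filter fun j => (nb j a.1, a.2) ∈ Q).card ≤ d * Q.card := by
  have h1 : ∑ a ∈ P, (univ.filter fun j => (nb j a.1, a.2) ∈ Q).card =
      ∑ j : Fin d, (P.filter fun a => (nb j a.1, a.2) ∈ Q).card := by
    simp_rw [Finset.card_filter]
    exact Finset.sum_comm
  rw [h1]
  calc ∑ j : Fin d, (P.filter fun a => (nb j a.1, a.2) ∈ Q).card ≤ ∑ _j : Fin d, Q.card := by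
        refine Finset.sum_le_sum fun j _ => ?_
        refine Finset.card_le_card_of_injOn (fun a => (nb j a.1, a.2)) ?_ ?_
        · intro a ha
          exact (Finset.mem_filter.1 ha).2
        · intro a _ b _ hab
          have h2 := congrArg Prod.fst hab
          have h3 := congrArg Prod.snd hab
          exact Prod.ext (nb_injective j h2) h3
    _ = d * Q.card := by simp

/-- every vertex of `E` is hit by at most `d` pairs -/
theorem sum_hit_le (P : Finset (V d)) (E : Finset (V d)) :
    ∑ v ∈ P, (univ.filter fun j : Fin d => nb j v ∈ E).card ≤ d * E.card := by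
  have h1 : ∑ v ∈ P, (univ.filter fun j : Fin d => nb j v ∈ E).card =
      ∑ j : Fin d, (P.filter fun v => nb j v ∈ E).card := by
    simp_rw [Finset.card_filter]
    exact Finset.sum_comm
  rw [h1]
  calc ∑ j : Fin d, (P.filter fun v => nb j v ∈ E).card ≤ ∑ _j : Fin d, E.card := by
        refine Finset.sum_le_sum fun j _ => ?_
        refine Finset.card_le_card_of_injOn (fun v => nb j v) ?_ ?_
        · intro v hv
          exact (Finset.mem_filter.1 hv).2
        · intro a _ b _ hab
          exact nb_injective j hab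
    _ = d * E.card := by simp

theorem many_L {L : Finset (V d)} {w x : V d}
    (hw : 4 * (univ.filter fun i : Fin d => nb i w ∉ L).card < d)
    (hx : 4 * (univ.filter fun i : Fin d => nb i x ∉ L).card < d) :
    d ≤ 2 * (univ.filter fun j : Fin d => nb j w ∈ L ∧ nb j x ∈ L).card := by
  have h1 : (univ : Finset (Fin d)) ⊆ (univ.filter fun j : Fin d => nb j w ∈ L ∧ nb j x ∈ L) ∪
      ((univ.filter fun i : Fin d => nb i w ∉ L) ∪ (univ.filter fun i : Fin d => nb i x ∉ L)) := by
    intro j _
    simp only [Finset.mem_union, Finset.mem_filter, Finset.mem_univ, true_and]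
    tauto
  have h2 := Finset.card_le_card h1
  have h3 := h2.trans ((Finset.card_union_le _ _).trans
    (Nat.add_le_add_left (Finset.card_union_le _ _) _))
  rw [Finset.card_univ, Fintype.card_fin] at h3
  omega

end ISO

open ISO

/-- number of non-exposed edges outside `L` -/
theorem exx_le {d : ℕ} (L : Finset (V d)) :
    ∑ v ∈ univ.filter (fun v : V d => par v = 1 ∧ v ∉ L ∧ v ∉ Ex L),
      (univ.filter fun i => nb i v ∉ L ∧ nb i v ∉ Ex L).card ≤ 2 * eLL L := by
  rcases Nat.eq_zero_or_pos d with hd | hd
  · subst hd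
    simp
  rw [card_pairs (fun v : V d => par v = 1 ∧ v ∉ L ∧ v ∉ Ex L)
    (fun v (i : Fin d) => nb i v ∉ L ∧ nb i v ∉ Ex L)]
  set P := univ.filter fun a : V d × Fin d => (par a.1 = 1 ∧ a.1 ∉ L ∧ a.1 ∉ Ex L) ∧
    nb a.2 a.1 ∉ L ∧ nb a.2 a.1 ∉ Ex L with hP
  set Q := univ.filter fun a : V d × Fin d => (a.1 ∈ L ∧ par a.1 = 0) ∧ nb a.2 a.1 ∈ L with hQ
  have hQc : eLL L = Q.card := by
    unfold eLL
    rw [hQ, ← card_pairs (fun v : V d => v ∈ L ∧ par v = 0) (fun v (i : Fin d) => nb i v ∈ L)]
    refine Finset.sum_congr ?_ fun _ _ => rfl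
    ext v
    simp
  have hkey : ∀ a ∈ P, d ≤ 2 * (univ.filter fun j => (nb j a.1, a.2) ∈ Q).card := by
    rintro ⟨w, i⟩ ha
    rw [hP, Finset.mem_filter] at ha
    obtain ⟨-, ⟨hpar, hwL, hwE⟩, hxL, hxE⟩ := ha
    simp only at hpar hwL hwE hxL hxE
    have h1 : 4 * (univ.filter fun i : Fin d => nb i w ∉ L).card < d := by
      by_contra hc
      exact hwE (mem_Ex.2 ⟨hwL, not_lt.1 hc⟩)
    have h2 : 4 * (univ.filter fun j : Fin d => nb j (nb i w) ∉ L).card < d := by
      by_contra hc
      exact hxE (mem_Ex.2 ⟨hxL, not_lt.1 hc⟩)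
    refine (many_L h1 h2).trans (Nat.mul_le_mul_left _ (Finset.card_le_card ?_))
    intro j hj
    rw [Finset.mem_filter] at hj ⊢
    refine ⟨Finset.mem_univ _, ?_⟩
    rw [hQ, Finset.mem_filter]
    refine ⟨Finset.mem_univ _, ⟨hj.2.1, ?_⟩, ?_⟩
    · show par (nb j w) = 0
      rw [par_nb, hpar]
      decide
    · show nb i (nb j w) ∈ L
      rw [nb_comm]
      exact hj.2.2
  have h1 := sum_shift_le P Q
  have h2 : P.card * d ≤ 2 * (d * Q.card) := by
    calc P.card * d = ∑ a ∈ P, d := by rw [Finset.sum_const, smul_eq_mul]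
      _ ≤ ∑ a ∈ P, 2 * (univ.filter fun j => (nb j a.1, a.2) ∈ Q).card :=
          Finset.sum_le_sum hkey
      _ = 2 * ∑ a ∈ P, (univ.filter fun j => (nb j a.1, a.2) ∈ Q).card := by
          rw [Finset.mul_sum]
      _ ≤ 2 * (d * Q.card) := Nat.mul_le_mul_left _ h1
  rw [hQc]
  have h3 : P.card * d ≤ (2 * Q.card) * d := by
    calc P.card * d ≤ 2 * (d * Q.card) := h2
      _ = (2 * Q.card) * d := by ring
  exact Nat.le_of_mul_le_mul_right h3 hd

theorem sqrt_le_self_nat (n : ℕ) : √(n : ℝ) ≤ n := by
  rcases Nat.eq_zero_or_pos n with h | h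
  · subst h; simp
  · have h1 : (1 : ℝ) ≤ n := by exact_mod_cast h
    rw [Real.sqrt_le_left (by positivity)]
    nlinarith

/-- **ISO** -/
theorem iso {d : ℕ} (L : Finset (V d)) :
    ((phase L).card : ℝ) * (2 ^ d - (phase L).card) / 2 ^ d
      ≤ 3 * eLL L + (√d + 1) * (Ex L).card := by
  classical
  set E0 := (Ex L).filter fun v => par v = 0 with hE0
  set S := phase L ∪ E0 with hS
  have hdis : Disjoint (phase L) E0 := by
    rw [Finset.disjoint_left]
    intro v hv hv2
    rw [mem_phase] at hv
    rw [hE0, Finset.mem_filter, mem_Ex] at hv2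
    exact hv2.1.1 (hv.1 hv2.2)
  have hcard : (S.card : ℝ) = (phase L).card + E0.card := by
    rw [hS, Finset.card_union_of_disjoint hdis]
    push_cast
    ring
  have hE0le : (E0.card : ℝ) ≤ (Ex L).card := by
    exact_mod_cast Finset.card_filter_le _ _
  have hSN : (S.card : ℝ) ≤ 2 ^ d := by
    have h1 : S.card ≤ 2 ^ d := by
      rw [← card_V (d := d), ← Finset.card_univ]
      exact Finset.card_le_univ S
    exact_mod_cast h1
  have hmemS : ∀ v, v ∈ S ↔ (par v = 0 ∧ (v ∈ L ∨ v ∈ Ex L)) ∨ (par v = 1 ∧ v ∉ L) := by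
    intro v
    rw [hS, Finset.mem_union, mem_phase, hE0, Finset.mem_filter]
    rcases zmod2_cases (par v) with h | h
    · simp [h]
    · simp [h]
  have hT := talagrand S
  -- the right side
  have hR : ∑ v ∈ S, √((univ.filter fun i => nb i v ∉ S).card : ℝ) ≤
      3 * eLL L + √d * (Ex L).card := by
    have h1 : ∀ v ∈ S, √((univ.filter fun i => nb i v ∉ S).card : ℝ) ≤
        (if v ∈ L ∧ par v = 0 then ((univ.filter fun i => nb i v ∈ L).card : ℝ) else 0) +
        (if v ∈ Ex L then √d else 0) +
        (if par v = 1 ∧ v ∉ L ∧ v ∉ Ex L then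
          ((univ.filter fun i => nb i v ∉ L ∧ nb i v ∉ Ex L).card : ℝ) else 0) := by
      intro v hv
      have hnn1 : (0 : ℝ) ≤ (if v ∈ L ∧ par v = 0 then
          ((univ.filter fun i => nb i v ∈ L).card : ℝ) else 0) := by
        split_ifs
        · exact Nat.cast_nonneg _
        · exact le_rfl
      have hnn2 : (0 : ℝ) ≤ (if v ∈ Ex L then √d else 0) := by
        split_ifs
        · exact Real.sqrt_nonneg _
        · exact le_rfl
      have hnn3 : (0 : ℝ) ≤ (if par v = 1 ∧ v ∉ L ∧ v ∉ Ex L then
          ((univ.filter fun i => nb i v ∉ L ∧ nb i v ∉ Ex L).card : ℝ) else 0) := by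
        split_ifs
        · exact Nat.cast_nonneg _
        · exact le_rfl
      by_cases hE : v ∈ Ex L
      · have h2 : √((univ.filter fun i => nb i v ∉ S).card : ℝ) ≤ √d := by
          apply Real.sqrt_le_sqrt
          have : (univ.filter fun i => nb i v ∉ S).card ≤ d := by
            refine (Finset.card_filter_le _ _).trans ?_
            simp
          exact_mod_cast this
        rw [if_pos hE] at hnn2 ⊢
        linarith
      · rcases (hmemS v).1 hv with ⟨hp, hL⟩ | ⟨hp, hL⟩
        · have hL' : v ∈ L := hL.resolve_right hE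
          have h2 : (univ.filter fun i => nb i v ∉ S) = univ.filter fun i => nb i v ∈ L := by
            apply Finset.filter_congr
            intro i _
            rw [hmemS]
            have h3 : par (nb i v) = 1 := by rw [par_nb, hp, zero_add]
            have h4 : par (nb i v) ≠ 0 := by rw [h3]; decide
            constructor
            · intro h5
              by_contra h6
              exact h5 (Or.inr ⟨h3, h6⟩)
            · intro h5 h6
              rcases h6 with ⟨h7, _⟩ | ⟨_, h7⟩
              · exact h4 h7
              · exact h7 h5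
          rw [h2, if_pos ⟨hL', hp⟩]
          have := sqrt_le_self_nat (univ.filter fun i => nb i v ∈ L).card
          linarith
        · have h2 : (univ.filter fun i => nb i v ∉ S) =
              univ.filter fun i => nb i v ∉ L ∧ nb i v ∉ Ex L := by
            apply Finset.filter_congr
            intro i _
            rw [hmemS]
            have h3 : par (nb i v) = 0 := by rw [par_nb, hp]; decide
            have h4 : par (nb i v) ≠ 1 := by rw [h3]; decide
            constructor
            · intro h5
              constructor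
              · intro h6; exact h5 (Or.inl ⟨h3, Or.inl h6⟩)
              · intro h6; exact h5 (Or.inl ⟨h3, Or.inr h6⟩)
            · rintro ⟨h5, h5'⟩ h6
              rcases h6 with ⟨_, h7 | h7⟩ | ⟨h7, _⟩
              · exact h5 h7
              · exact h5' h7
              · exact h4 h7
          rw [h2, if_pos (show par v = 1 ∧ v ∉ L ∧ v ∉ Ex L from ⟨hp, hL, hE⟩)]
          have := sqrt_le_self_nat (univ.filter fun i => nb i v ∉ L ∧ nb i v ∉ Ex L).card
          linarith
    refine (Finset.sum_le_sum h1).trans ?_
    refine (Finset.sum_le_sum_of_subset_of_nonneg (Finset.subset_univ S) ?_).trans ?_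
    · intro v _ _
      refine add_nonneg (add_nonneg ?_ ?_) ?_
      · split_ifs
        · exact Nat.cast_nonneg _
        · exact le_rfl
      · split_ifs
        · exact Real.sqrt_nonneg _
        · exact le_rfl
      · split_ifs
        · exact Nat.cast_nonneg _
        · exact le_rfl
    · rw [Finset.sum_add_distrib, Finset.sum_add_distrib, ← Finset.sum_filter,
        ← Finset.sum_filter, ← Finset.sum_filter]
      have h2 : ∑ v ∈ univ.filter (fun v : V d => v ∈ L ∧ par v = 0),
          ((univ.filter fun i => nb i v ∈ L).card : ℝ) = eLL L := by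
        unfold eLL
        rw [Nat.cast_sum]
        refine Finset.sum_congr ?_ fun _ _ => rfl
        ext v
        simp
      have h3 : ∑ v ∈ univ.filter (fun v : V d => v ∈ Ex L), √(d : ℝ) = √d * (Ex L).card := by
        rw [Finset.sum_const, nsmul_eq_mul, mul_comm]
        congr 3
        ext v
        simp
      have h4 : ∑ v ∈ univ.filter (fun v : V d => par v = 1 ∧ v ∉ L ∧ v ∉ Ex L),
          ((univ.filter fun i => nb i v ∉ L ∧ nb i v ∉ Ex L).card : ℝ) ≤ 2 * eLL L := by
        have := exx_le L
        exact_mod_cast this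
      rw [h2, h3]
      linarith
  -- the left side
  set N : ℝ := 2 ^ d with hN
  have hN0 : 0 < N := by positivity
  have hL : ((phase L).card : ℝ) * (N - (phase L).card) / N ≤
      (S.card : ℝ) * (N - S.card) / N + (Ex L).card := by
    rw [div_add' _ _ _ hN0.ne', div_le_div_iff_of_pos_right hN0, hcard]
    rw [hcard] at hSN
    have hk : (0 : ℝ) ≤ E0.card := Nat.cast_nonneg _
    have hs : (0 : ℝ) ≤ (phase L).card := Nat.cast_nonneg _
    nlinarith [mul_nonneg hk hs, mul_nonneg hk (sub_nonneg.2 hSN),
      mul_le_mul_of_nonneg_right hE0le hN0.le]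
  have h5 : (0 : ℝ) ≤ √d * (Ex L).card := by positivity
  linarith

/-- **BDRY** -/
theorem bdry_le {d : ℕ} (L : Finset (V d)) :
    bdry (phase L) ≤ 3 * eLL L + d * (Ex L).card := by
  classical
  set E0 := (Ex L).filter fun v => par v = 0 with hE0
  set E1 := (Ex L).filter fun v => par v = 1 with hE1
  have hE01 : (Ex L).card = E0.card + E1.card := by
    have h1 : E1 = (Ex L).filter fun v => ¬ par v = 0 := by
      rw [hE1]
      apply Finset.filter_congr
      intro v _
      rcases zmod2_cases (par v) with h | h <;> rw [h] <;> decide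
    rw [h1, hE0, Finset.card_filter_add_card_filter_not]
  have h1 : ∀ v ∈ phase L, (univ.filter fun i => nb i v ∉ phase L).card ≤
      (if v ∈ L ∧ par v = 0 then (univ.filter fun i => nb i v ∈ L).card else 0) +
      (if v ∈ E1 then d else 0) +
      ((if par v = 1 ∧ v ∉ L ∧ v ∉ Ex L then
          (univ.filter fun i => nb i v ∉ L ∧ nb i v ∉ Ex L).card else 0) +
        (univ.filter fun i => nb i v ∈ E0).card) := by
    intro v hv
    rcases zmod2_cases (par v) with hp | hp
    · have hL : v ∈ L := (mem_phase.1 hv).1 hp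
      have h2 : (univ.filter fun i => nb i v ∉ phase L) = univ.filter fun i => nb i v ∈ L := by
        apply Finset.filter_congr
        intro i _
        rw [mem_phase]
        have h3 : par (nb i v) ≠ 0 := by rw [par_nb, hp]; decide
        tauto
      rw [h2, if_pos ⟨hL, hp⟩]
      omega
    · have hL : v ∉ L := by
        intro h
        have := (mem_phase.1 hv).2 h
        rw [hp] at this
        exact absurd this (by decide)
      have h2 : (univ.filter fun i => nb i v ∉ phase L) = univ.filter fun i => nb i v ∉ L := by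
        apply Finset.filter_congr
        intro i _
        rw [mem_phase]
        have h3 : par (nb i v) = 0 := by rw [par_nb, hp]; decide
        tauto
      rw [h2]
      by_cases hE : v ∈ Ex L
      · have h3 : v ∈ E1 := by rw [hE1, Finset.mem_filter]; exact ⟨hE, hp⟩
        rw [if_pos h3]
        have h4 : (univ.filter fun i : Fin d => nb i v ∉ L).card ≤ d := by
          refine (Finset.card_filter_le _ _).trans ?_
          simp
        omega
      · rw [if_pos (show par v = 1 ∧ v ∉ L ∧ v ∉ Ex L from ⟨hp, hL, hE⟩)]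
        have h3 : (univ.filter fun i => nb i v ∉ L) ⊆
            (univ.filter fun i => nb i v ∉ L ∧ nb i v ∉ Ex L) ∪
            (univ.filter fun i => nb i v ∈ E0) := by
          intro i hi
          rw [Finset.mem_filter] at hi
          rw [Finset.mem_union, Finset.mem_filter, Finset.mem_filter, hE0, Finset.mem_filter]
          have h4 : par (nb i v) = 0 := by rw [par_nb, hp]; decide
          tauto
        have h4 := (Finset.card_le_card h3).trans (Finset.card_union_le _ _)
        omega
  unfold bdry
  refine (Finset.sum_le_sum h1).trans ?_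
  refine (Finset.sum_le_sum_of_subset (Finset.subset_univ (phase L))).trans ?_
  rw [Finset.sum_add_distrib, Finset.sum_add_distrib, Finset.sum_add_distrib,
    ← Finset.sum_filter, ← Finset.sum_filter, ← Finset.sum_filter]
  have h2 : ∑ v ∈ univ.filter (fun v : V d => v ∈ L ∧ par v = 0),
      (univ.filter fun i => nb i v ∈ L).card = eLL L := by
    unfold eLL
    refine Finset.sum_congr ?_ fun _ _ => rfl
    ext v
    simp
  have h3 : ∑ v ∈ univ.filter (fun v : V d => v ∈ E1), d = d * E1.card := by
    rw [Finset.sum_const, smul_eq_mul, mul_comm]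
    congr 2
    ext v
    simp
  have h4 := exx_le L
  have h5 := sum_hit_le univ E0
  rw [h2, h3, hE01]
  nlinarith

end Pool.Agent.Lib.MP_c6118e_pr
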