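import Pool.Agent.Lib.MP_c6118e_pr.FINN

/-! # MP_c6118e_pr, module KAHN -/

namespace Pool.Agent.Lib.MP_c6118e_pr

open Finset Real

/-- the neighbourhood of `v` -/
def kT {d : ℕ} (v : V d) : Finset (V d) := univ.image fun i => nb i v

theorem kT_card {d : ℕ} (v : V d) : (kT v).card = d := by
  unfold kT
  rw [card_image_of_injective _ (fun i j h => nb_inj h)]
  simp

theorem mem_kT {d : ℕ} {v w : V d} : w ∈ kT v ↔ ∃ i, nb i v = w := by
  simp [kT]

theorem mem_kT_comm {d : ℕ} {v w : V d} : w ∈ kT v ↔ v ∈ kT w := by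
  rw [mem_kT, mem_kT]
  constructor
  · rintro ⟨i, rfl⟩; exact ⟨i, nb_nb i v⟩
  · rintro ⟨i, rfl⟩; exact ⟨i, nb_nb i w⟩

theorem inter_kT_card {d : ℕ} (A : Finset (V d)) (v : V d) : (A ∩ kT v).card = nOcc A v := by
  have : A ∩ kT v = (univ.filter fun i => nb i v ∈ A).image fun i => nb i v := by
    ext w
    simp only [kT, mem_inter, mem_image, mem_filter, mem_univ, true_and]
    constructor
    · rintro ⟨h, i, rfl⟩; exact ⟨i, h, rfl⟩
    · rintro ⟨i, h, rfl⟩; exact ⟨h, i, rfl⟩
  rw [this, card_image_of_injective _ (fun i j h => nb_inj h)]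
  rfl

theorem par_of_mem_kT {d : ℕ} {v w : V d} (h : w ∈ kT v) : par w = par v + 1 := by
  obtain ⟨i, rfl⟩ := mem_kT.1 h
  exact par_nb i v

/-- occupied neighbours counted from the other side -/
theorem sum_nOcc {d : ℕ} (p : ZMod 2) (A : Finset (V d)) (hA : ∀ v ∈ A, par v = p + 1) :
    ∑ v ∈ univ.filter (fun v : V d => par v = p), nOcc A v = d * A.card := by
  have h1 : ∀ v : V d, nOcc A v = ∑ i : Fin d, if nb i v ∈ A then 1 else 0 := by
    intro v; unfold nOcc; rw [card_filter]
  simp_rw [h1]
  rw [sum_comm]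
  have h2 : ∀ i : Fin d, ∑ v ∈ univ.filter (fun v : V d => par v = p),
      (if nb i v ∈ A then 1 else 0) = A.card := by
    intro i
    rw [← card_filter]
    apply card_bij' (fun v _ => nb i v) (fun v _ => nb i v)
    · intro v hv
      rw [mem_filter] at hv
      exact hv.2
    · intro v hv
      rw [mem_filter, mem_filter, nb_nb, par_nb, hA v hv, add_assoc, zmod2_add_self, add_zero]
      exact ⟨⟨mem_univ _, rfl⟩, hv⟩
    · intro v _; exact nb_nb i v
    · intro v _; exact nb_nb i v
  rw [sum_congr rfl fun i _ => h2 i, sum_const, card_univ, Fintype.card_fin, smul_eq_mul]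

/-- the free vertices of parity `p` of `A` -/
def kF {d : ℕ} (p : ZMod 2) (A : Finset (V d)) : Finset (V d) :=
  univ.filter fun v => par v = p ∧ nOcc A v = 0

theorem p_add_ne (p : ZMod 2) : p + 1 ≠ p := by
  rcases zmod2_cases p with h | h <;> rw [h] <;> decide

theorem zmod2_ne_iff (a p : ZMod 2) : a ≠ p ↔ a = p + 1 := by
  rcases zmod2_cases a with h | h <;> rcases zmod2_cases p with h' | h' <;> rw [h, h'] <;> decide

theorem nOcc_union_eq {d : ℕ} {p : ZMod 2} {A B : Finset (V d)} (hB : ∀ v ∈ B, par v = p)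
    {v : V d} (hv : par v = p) : nOcc (A ∪ B) v = nOcc A v := by
  unfold nOcc
  congr 1
  apply filter_congr
  intro i _
  rw [mem_union]
  constructor
  · rintro (h | h)
    · exact h
    · have := hB _ h
      rw [par_nb, hv] at this
      exact absurd this (p_add_ne p)
  · exact Or.inl

/-- decomposition of the configurations into the two parity classes -/
theorem sum_Om_split {d : ℕ} (p : ZMod 2) (f : Finset (V d) → ℝ) :
    ∑ s ∈ Om d, f s = ∑ A ∈ (univ.filter fun v : V d => par v = p + 1).powerset,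
      ∑ B ∈ (kF p A).powerset, f (A ∪ B) := by
  rw [sum_sigma']
  symm
  apply sum_bij' (fun x _ => x.1 ∪ x.2)
    (fun s _ => (⟨s.filter (fun v => par v = p + 1), s.filter (fun v => par v = p)⟩ :
      (_ : Finset (V d)) × Finset (V d)))
  · rintro ⟨A, B⟩ hx
    rw [mem_sigma, mem_powerset, mem_powerset] at hx
    obtain ⟨hA, hB⟩ := hx
    simp only at hA hB ⊢
    rw [mem_Om]
    have hA' : ∀ v ∈ A, par v = p + 1 := fun v hv => (mem_filter.1 (hA hv)).2
    have hB' : ∀ v ∈ B, par v = p ∧ nOcc A v = 0 := fun v hv => (mem_filter.1 (hB hv)).2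
    intro v hv i hi
    rw [mem_union] at hv hi
    rcases hv with hv | hv
    · rcases hi with hi | hi
      · have h1 := hA' _ hi
        rw [par_nb, hA' v hv] at h1
        exact p_add_ne _ h1
      · have h1 := (hB' _ hi).2
        rw [nOcc_eq_zero] at h1
        have := h1 i
        rw [nb_nb] at this
        exact this hv
    · rcases hi with hi | hi
      · have h1 := (hB' _ hv).2
        rw [nOcc_eq_zero] at h1
        exact h1 i hi
      · have h1 := (hB' _ hi).1
        rw [par_nb, (hB' v hv).1] at h1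
        exact p_add_ne _ h1
  · intro s hs
    rw [mem_Om] at hs
    rw [mem_sigma, mem_powerset, mem_powerset]
    constructor
    · exact filter_subset_filter _ (subset_univ _)
    · intro v hv
      simp only at hv ⊢
      rw [mem_filter] at hv
      unfold kF
      rw [mem_filter]
      refine ⟨mem_univ _, hv.2, ?_⟩
      have h1 := hs.nOcc hv.1
      have h2 := nOcc_mono (filter_subset (fun v => par v = p + 1) s) v
      omega
  · rintro ⟨A, B⟩ hx
    rw [mem_sigma, mem_powerset, mem_powerset] at hx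
    obtain ⟨hA, hB⟩ := hx
    simp only at hA hB ⊢
    have hA' : ∀ v ∈ A, par v = p + 1 := fun v hv => (mem_filter.1 (hA hv)).2
    have hB' : ∀ v ∈ B, par v = p := fun v hv => (mem_filter.1 (hB hv)).2.1
    have e1 : (A ∪ B).filter (fun v => par v = p + 1) = A := by
      ext v
      rw [mem_filter, mem_union]
      constructor
      · rintro ⟨h | h, h2⟩
        · exact h
        · rw [hB' v h] at h2; exact absurd h2.symm (p_add_ne p)
      · intro h; exact ⟨Or.inl h, hA' v h⟩
    have e2 : (A ∪ B).filter (fun v => par v = p) = B := by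
      ext v
      rw [mem_filter, mem_union]
      constructor
      · rintro ⟨h | h, h2⟩
        · rw [hA' v h] at h2; exact absurd h2 (p_add_ne p)
        · exact h
      · intro h; exact ⟨Or.inr h, hB' v h⟩
    rw [e1, e2]
  · intro s hs
    simp only
    ext v
    rw [mem_union, mem_filter, mem_filter]
    constructor
    · rintro (h | h) <;> exact h.1
    · intro h
      by_cases hp : par v = p
      · exact Or.inr ⟨h, hp⟩
      · exact Or.inl ⟨h, (zmod2_ne_iff _ _).1 hp⟩
  · rintro ⟨A, B⟩ hx
    rfl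

/-- **KAHN** -/
theorem kahn_side {d : ℕ} (hd : 0 < d) {l : ℝ} (hl : 0 < l) (p : ZMod 2) (g : V d → ℕ → ℝ)
    (hg : ∀ v k, 0 ≤ g v k)
    (hloc : ∀ v, ∑ k ∈ range (d + 1),
      (d.choose k : ℝ) * l ^ k * (if k = 0 then (1 + l) ^ d else 1) * g v k ≤ (1 + l) ^ d) :
    ∑ s ∈ Om d, l ^ s.card * ∏ v ∈ univ.filter (fun v : V d => par v = p),
        (g v (nOcc s v)) ^ (1 / d : ℝ) ≤ (1 + l) ^ (2 ^ (d - 1)) := by
  have hd' : (0 : ℝ) < d := by exact_mod_cast hd
  set O : Finset (V d) := univ.filter (fun v : V d => par v = p) with hO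
  set E : Finset (V d) := univ.filter (fun v : V d => par v = p + 1) with hE
  set G : V d → Finset (V d) → ℝ := fun v B =>
    l ^ B.card * (if B.card = 0 then (1 + l) ^ d else 1) * g v B.card with hG
  have hG0 : ∀ v B, 0 ≤ G v B := by
    intro v B
    simp only [hG]
    have := hg v B.card
    split_ifs <;> positivity
  have hmain : ∀ A ∈ E.powerset, ∑ B ∈ (kF p A).powerset, l ^ (A ∪ B).card * ∏ v ∈ O,
      (g v (nOcc (A ∪ B) v)) ^ (1 / d : ℝ) = ∏ v ∈ O, (G v (A ∩ kT v)) ^ (1 / d : ℝ) := by
    intro A hA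
    rw [mem_powerset] at hA
    have hA' : ∀ v ∈ A, par v = p + 1 := fun v hv => (mem_filter.1 (hA hv)).2
    have h1 : ∀ B ∈ (kF p A).powerset, l ^ (A ∪ B).card * ∏ v ∈ O,
        (g v (nOcc (A ∪ B) v)) ^ (1 / d : ℝ)
        = l ^ B.card * (l ^ A.card * ∏ v ∈ O, (g v (nOcc A v)) ^ (1 / d : ℝ)) := by
      intro B hB
      rw [mem_powerset] at hB
      have hB' : ∀ v ∈ B, par v = p := fun v hv => (mem_filter.1 (hB hv)).2.1
      have hdis : Disjoint A B := by
        rw [disjoint_left]
        intro v h1 h2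
        have := hA' v h1
        rw [hB' v h2] at this
        exact p_add_ne p this.symm
      rw [card_union_of_disjoint hdis]
      have : ∏ v ∈ O, (g v (nOcc (A ∪ B) v)) ^ (1 / d : ℝ)
          = ∏ v ∈ O, (g v (nOcc A v)) ^ (1 / d : ℝ) := by
        apply prod_congr rfl
        intro v hv
        rw [nOcc_union_eq hB' (mem_filter.1 hv).2]
      rw [this, pow_add]; ring
    rw [sum_congr rfl h1, ← sum_mul, sum_pow_card]
    have h2 : ∀ v ∈ O, (G v (A ∩ kT v)) ^ (1 / d : ℝ)
        = (l ^ (nOcc A v : ℝ)) ^ (1 / d : ℝ) * (if nOcc A v = 0 then (1 + l) else 1)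
          * (g v (nOcc A v)) ^ (1 / d : ℝ) := by
      intro v _
      simp only [hG]
      rw [inter_kT_card, mul_rpow _ (hg _ _), mul_rpow (by positivity)]
      · rw [rpow_natCast]
        congr 2
        split_ifs
        · rw [← rpow_natCast, ← rpow_mul (by positivity)]
          rw [mul_one_div_cancel hd'.ne', rpow_one]
        · rw [one_rpow]
      · split_ifs <;> positivity
      · split_ifs <;> positivity
    rw [prod_congr rfl h2, prod_mul_distrib, prod_mul_distrib]
    have h3 : ∏ v ∈ O, (l ^ (nOcc A v : ℝ)) ^ (1 / d : ℝ) = l ^ A.card := by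
      have : ∀ v ∈ O, (l ^ (nOcc A v : ℝ)) ^ (1 / d : ℝ) = l ^ ((nOcc A v : ℝ) * (1 / d)) := by
        intro v _
        rw [← rpow_mul hl.le]
      rw [prod_congr rfl this, ← rpow_sum_of_pos hl, ← sum_mul, ← Nat.cast_sum, hO,
        sum_nOcc p A hA', ← rpow_natCast]
      congr 1
      push_cast
      field_simp
    have h4 : ∏ v ∈ O, (if nOcc A v = 0 then (1 + l) else 1) = (1 + l) ^ (kF p A).card := by
      rw [prod_ite, prod_const, prod_const_one, mul_one]
      congr 2
      unfold kF
      rw [hO, filter_filter]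
    rw [h3, h4]; ring
  rw [sum_Om_split p]
  rw [sum_congr rfl hmain]
  have hfin := finner O kT d hd E ?_ ?_ G hG0
  · refine hfin.trans ?_
    have h5 : ∀ v ∈ O, (∑ B ∈ (kT v).powerset, G v B) ^ (1 / d : ℝ) ≤ 1 + l := by
      intro v _
      have h6 : ∑ B ∈ (kT v).powerset, G v B ≤ (1 + l) ^ d := by
        have h7 : ∑ B ∈ (kT v).powerset, G v B = ∑ k ∈ range (d + 1),
            (d.choose k : ℝ) * l ^ k * (if k = 0 then (1 + l) ^ d else 1) * g v k := by
          simp only [hG]
          rw [sum_powerset_apply_card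
            (fun k => l ^ k * (if k = 0 then (1 + l) ^ d else 1) * g v k), kT_card]
          apply sum_congr rfl
          intro k _
          rw [nsmul_eq_mul]; ring
        rw [h7]; exact hloc v
      calc (∑ B ∈ (kT v).powerset, G v B) ^ (1 / d : ℝ) ≤ ((1 + l) ^ d) ^ (1 / d : ℝ) :=
            rpow_le_rpow (sum_nonneg fun B _ => hG0 v B) h6 (by positivity)
        _ = 1 + l := by
            rw [← rpow_natCast, ← rpow_mul (by positivity), mul_one_div_cancel hd'.ne', rpow_one]
    calc ∏ v ∈ O, (∑ B ∈ (kT v).powerset, G v B) ^ (1 / d : ℝ) ≤ ∏ _v ∈ O, (1 + l) :=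
          prod_le_prod (fun v _ => rpow_nonneg (sum_nonneg fun B _ => hG0 v B) _) h5
      _ = (1 + l) ^ (2 ^ (d - 1)) := by
          rw [prod_const, hO, card_par hd]
  · intro v hv w hw
    rw [hE, mem_filter]
    refine ⟨mem_univ _, ?_⟩
    rw [par_of_mem_kT hw, (mem_filter.1 hv).2]
  · intro e he
    have : O.filter (fun v => e ∈ kT v) = kT e := by
      ext v
      rw [mem_filter]
      constructor
      · rintro ⟨_, h⟩; exact mem_kT_comm.1 h
      · intro h
        refine ⟨?_, mem_kT_comm.1 h⟩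
        rw [hO, mem_filter]
        refine ⟨mem_univ _, ?_⟩
        rw [par_of_mem_kT h, (mem_filter.1 he).2, add_assoc, zmod2_add_self, add_zero]
    rw [this, kT_card]

end Pool.Agent.Lib.MP_c6118e_pr
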