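import Pool.Agent.Lib.MP_c6118e_pr.CHER

/-! MP_c6118e_pr, module LOCB (helper37) -/

namespace Pool.Agent.Lib.MP_c6118e_pr

open Finset Real

/-- the local weight; `P v` = predicted membership of `v` in the phase set -/
noncomputable def gw (d : ℕ) (l : ℝ) (W : Finset (V d)) (v : V d) (k : ℕ) : ℝ :=
  (if ((par v = 0 ↔ k = 0) ↔ v ∈ W) then 1 - 1 / (d : ℝ) ^ 2 else 1 / (d : ℝ) ^ 2) *
  (if (1 ≤ k ∧ (k : ℝ) ≤ 7 / 8 * (l / (1 + l)) * d) then
    1 / (d : ℝ) ^ 2 * exp (1 / 3000 * log (1 + l) * d) else 1 - 1 / (d : ℝ) ^ 2)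

/-- **LOCB** -/
theorem gw_loc {d : ℕ} (hd : 2 ≤ d) {l : ℝ} (hl : 0 < l) (W : Finset (V d)) (v : V d) :
    ∑ k ∈ range (d + 1),
      (d.choose k : ℝ) * l ^ k * (if k = 0 then (1 + l) ^ d else 1) * gw d l W v k
        ≤ (1 + l) ^ d := by
  have hd' : (2 : ℝ) ≤ d := by exact_mod_cast hd
  set a : ℝ := 1 / (d : ℝ) ^ 2 with ha
  have ha0 : 0 ≤ a := by positivity
  have ha1 : a ≤ 1 := by
    rw [ha, div_le_one (by positivity)]
    nlinarith
  set κ : ℝ := exp (1 / 3000 * log (1 + l) * d) with hκ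
  set m : ℝ := 7 / 8 * (l / (1 + l)) * d with hm
  -- the first factor
  obtain ⟨w, hw0, hw1, hwz, hws⟩ : ∃ w : ℝ, 0 ≤ w ∧ w ≤ 1 ∧
      (if ((par v = 0 ↔ (0 : ℕ) = 0) ↔ v ∈ W) then 1 - a else a) = w ∧
      ∀ k : ℕ, 1 ≤ k → (if ((par v = 0 ↔ k = 0) ↔ v ∈ W) then 1 - a else a) = 1 - w := by
    by_cases h : ((par v = 0 ↔ (0 : ℕ) = 0) ↔ v ∈ W)
    · refine ⟨1 - a, by linarith, by linarith, if_pos h, ?_⟩
      intro k hk
      have hk' : ¬ k = 0 := by omega
      rw [if_neg]
      · ring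
      · intro h2
        simp only [iff_true] at h
        simp only [hk', iff_false] at h2
        tauto
    · refine ⟨a, ha0, ha1, if_neg h, ?_⟩
      intro k hk
      have hk' : ¬ k = 0 := by omega
      rw [if_pos]
      simp only [iff_true] at h
      simp only [hk', iff_false]
      tauto
  have hg0 : gw d l W v 0 = w * (1 - a) := by
    unfold gw
    rw [hwz, if_neg (by omega)]
  have hg1 : ∀ k : ℕ, 1 ≤ k → gw d l W v k ≤
      (1 - w) * ((if (k : ℝ) ≤ m then a * κ else 0) + (1 - a)) := by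
    intro k hk
    unfold gw
    rw [hws k hk]
    apply mul_le_mul_of_nonneg_left _ (by linarith)
    by_cases h : (k : ℝ) ≤ m
    · rw [if_pos ⟨hk, h⟩, if_pos h]
      linarith
    · rw [if_neg (fun h' => h h'.2), if_neg h]
      linarith
  set G : ℕ → ℝ := fun k => (d.choose k : ℝ) * l ^ k * ((if (k : ℝ) ≤ m then a * κ else 0) + (1 - a))
    with hG
  have hG0 : ∀ k, 0 ≤ G k := by
    intro k
    have : 0 ≤ (if (k : ℝ) ≤ m then a * κ else 0) := by split_ifs <;> positivity
    simp only [hG]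
    have h3 : 0 ≤ (if (k : ℝ) ≤ m then a * κ else 0) + (1 - a) := by linarith
    positivity
  have hall : ∑ k ∈ range (d + 1), (d.choose k : ℝ) * l ^ k = (1 + l) ^ d := by
    rw [add_comm 1 l, add_pow]
    apply sum_congr rfl
    intro k _
    rw [one_pow, mul_one, mul_comm]
  have hGsum : ∑ k ∈ range (d + 1), G k ≤ (1 + l) ^ d := by
    have h1 : ∑ k ∈ range (d + 1), G k = a * κ * ∑ k ∈ (range (d + 1)).filter
        (fun k : ℕ => (k : ℝ) ≤ m), (d.choose k : ℝ) * l ^ k
        + (1 - a) * ∑ k ∈ range (d + 1), (d.choose k : ℝ) * l ^ k := by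
      rw [sum_filter, mul_sum, mul_sum, ← sum_add_distrib]
      apply sum_congr rfl
      intro k _
      simp only [hG]
      split_ifs <;> ring
    have h2 := chern_low (d := d) hl
    rw [h1, hall]
    have h3 : a * κ * ∑ k ∈ (range (d + 1)).filter
        (fun k : ℕ => (k : ℝ) ≤ m), (d.choose k : ℝ) * l ^ k ≤ a * (1 + l) ^ d := by
      calc a * κ * ∑ k ∈ (range (d + 1)).filter
            (fun k : ℕ => (k : ℝ) ≤ m), (d.choose k : ℝ) * l ^ k
          ≤ a * κ * ((1 + l) ^ d * exp (-(1 / 3000 * log (1 + l) * d))) := by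
            apply mul_le_mul_of_nonneg_left h2 (by positivity)
        _ = a * (1 + l) ^ d * (κ * exp (-(1 / 3000 * log (1 + l) * d))) := by ring
        _ = a * (1 + l) ^ d := by
            rw [hκ, ← exp_add, add_neg_cancel, exp_zero, mul_one]
    linarith
  rw [sum_range_succ']
  have h0 : (d.choose 0 : ℝ) * l ^ 0 * (if (0 : ℕ) = 0 then (1 + l) ^ d else 1) * gw d l W v 0
      = (1 + l) ^ d * (w * (1 - a)) := by
    rw [hg0]; simp
  have h1 : ∑ k ∈ range d, (d.choose (k + 1) : ℝ) * l ^ (k + 1) *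
      (if k + 1 = 0 then (1 + l) ^ d else 1) * gw d l W v (k + 1) ≤ (1 - w) * (1 + l) ^ d := by
    calc _ ≤ ∑ k ∈ range d, (1 - w) * G (k + 1) := by
          apply sum_le_sum
          intro k _
          rw [if_neg (by omega), mul_one]
          have := hg1 (k + 1) (by omega)
          have h3 : 0 ≤ (d.choose (k + 1) : ℝ) * l ^ (k + 1) := by positivity
          calc (d.choose (k + 1) : ℝ) * l ^ (k + 1) * gw d l W v (k + 1)
              ≤ (d.choose (k + 1) : ℝ) * l ^ (k + 1) * ((1 - w) *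
                ((if ((k + 1 : ℕ) : ℝ) ≤ m then a * κ else 0) + (1 - a))) :=
                mul_le_mul_of_nonneg_left this h3
            _ = (1 - w) * G (k + 1) := by simp only [hG]; ring
      _ = (1 - w) * ∑ k ∈ range d, G (k + 1) := by rw [mul_sum]
      _ ≤ (1 - w) * ∑ k ∈ range (d + 1), G k := by
          apply mul_le_mul_of_nonneg_left _ (by linarith)
          rw [sum_range_succ']
          linarith [hG0 0]
      _ ≤ (1 - w) * (1 + l) ^ d := mul_le_mul_of_nonneg_left hGsum (by linarith)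
  rw [h0]
  have h2 : 0 ≤ (1 + l) ^ d * (w * a) := by positivity
  nlinarith [h1, h2]

end Pool.Agent.Lib.MP_c6118e_pr
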