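import Mathlib

/-!
# The hard-core model on the hypercube

The definitions used in the statements about MP_c6118e_pr.
-/

namespace Pool.Agent.Lib.MP_c6118e_pr.Model

open Finset

/-- The vertices of the hypercube `Q_d` are the 0/1-vectors of length `d`; two vertices are
adjacent when they differ in exactly one coordinate. -/
def Adj {d : ℕ} (u v : Fin d → ZMod 2) : Prop := hammingDist u v = 1

instance {d : ℕ} (u v : Fin d → ZMod 2) : Decidable (Adj u v) := by unfold Adj; infer_instance

/-- A hard-core configuration, given by its set of occupied vertices, is an independent set. -/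
def IsHardCore {d : ℕ} (σ : Finset (Fin d → ZMod 2)) : Prop := ∀ u ∈ σ, ∀ v ∈ σ, ¬ Adj u v

instance {d : ℕ} : DecidablePred (IsHardCore (d := d)) := fun σ => by
  unfold IsHardCore; infer_instance

/-- the set of all hard-core configurations of `Q_d` -/
def configs (d : ℕ) : Finset (Finset (Fin d → ZMod 2)) := univ.filter IsHardCore

/-- the partition function `Z = ∑_σ lam ^ |σ|` -/
noncomputable def Z (d : ℕ) (lam : ℝ) : ℝ := ∑ σ ∈ configs d, lam ^ σ.card

/-- number of occupied vertices of even Hamming weight -/
def evenOcc {d : ℕ} (σ : Finset (Fin d → ZMod 2)) : ℕ :=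
  (σ.filter fun v => Even (hammingNorm v)).card

/-- number of occupied vertices of odd Hamming weight -/
def oddOcc {d : ℕ} (σ : Finset (Fin d → ZMod 2)) : ℕ :=
  (σ.filter fun v => Odd (hammingNorm v)).card

/-- the balanced event: both classes contain more than `(1/10) (lam/(1+lam)) 2^d` occupied
vertices -/
noncomputable def balanced (d : ℕ) (lam : ℝ) : Finset (Finset (Fin d → ZMod 2)) :=
  (configs d).filter fun σ =>
    1 / 10 * (lam / (1 + lam)) * 2 ^ d < min (evenOcc σ : ℝ) (oddOcc σ : ℝ)

/-- the probability of the balanced event under the hard-core measure of fugacity `lam` -/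
noncomputable def muBal (d : ℕ) (lam : ℝ) : ℝ := (∑ σ ∈ balanced d lam, lam ^ σ.card) / Z d lam

end Pool.Agent.Lib.MP_c6118e_pr.Model
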