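import Pool.Agent.Lib.MP_c6118e_pr.TAL

/-!
# SUCC: the partition functions in dimensions `d` and `d + 1`
-/

namespace Pool.Agent.Lib.MP_c6118e_pr

open Finset Real

open TAL (sl mem_sl sum_slices nb_zero_cons nb_succ_cons)

theorem card_sl {d : ℕ} (s : Finset (V (d + 1))) : s.card = (sl s 0).card + (sl s 1).card := by
  have h := sum_slices s fun _ => (1 : ℝ)
  simp only [Finset.sum_const, nsmul_eq_mul, mul_one] at h
  exact_mod_cast h

theorem exists_cons {d : ℕ} (w : V (d + 1)) : ∃ (e : ZMod 2) (v : V d),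
    w = (Fin.cons e v : V (d + 1)) := ⟨w 0, Fin.tail w, (Fin.cons_self_tail w).symm⟩

theorem ext_sl {d : ℕ} {s t : Finset (V (d + 1))} (h0 : sl s 0 = sl t 0) (h1 : sl s 1 = sl t 1) :
    s = t := by
  ext w
  obtain ⟨e, v, rfl⟩ := exists_cons w
  rcases zmod2_cases e with rfl | rfl
  · rw [← mem_sl, h0, mem_sl]
  · rw [← mem_sl, h1, mem_sl]

theorem ind_sl {d : ℕ} {s : Finset (V (d + 1))} (hs : Ind s) (e : ZMod 2) : Ind (sl s e) := by
  intro v hv i hi
  rw [mem_sl] at hv hi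
  refine hs _ hv i.succ ?_
  rw [nb_succ_cons]
  exact hi

theorem Zf_succ_le {d : ℕ} {l : ℝ} (hl : 0 < l) : Zf (d + 1) l ≤ (Zf d l) ^ 2 := by
  classical
  unfold Zf
  rw [sq, Finset.sum_mul_sum, ← Finset.sum_product']
  have h1 : ∑ s ∈ Om (d + 1), l ^ s.card =
      ∑ s ∈ Om (d + 1), l ^ (sl s 0).card * l ^ (sl s 1).card := by
    refine Finset.sum_congr rfl fun s _ => ?_
    rw [← pow_add, ← card_sl]
  rw [h1, ← Finset.sum_image (s := Om (d + 1))
    (g := fun s : Finset (V (d + 1)) => ((sl s 0, sl s 1) : Finset (V d) × Finset (V d)))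
    (f := fun p => l ^ p.1.card * l ^ p.2.card)]
  · refine Finset.sum_le_sum_of_subset_of_nonneg ?_ fun _ _ _ => by positivity
    intro p hp
    rw [Finset.mem_image] at hp
    obtain ⟨s, hs, rfl⟩ := hp
    rw [mem_Om] at hs
    rw [Finset.mem_product, mem_Om, mem_Om]
    exact ⟨ind_sl hs 0, ind_sl hs 1⟩
  · intro s _ t _ hst
    exact ext_sl (congrArg Prod.fst hst) (congrArg Prod.snd hst)

/-- gluing two slices -/
def glue {d : ℕ} (a b : Finset (V d)) : Finset (V (d + 1)) :=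
  univ.filter fun w => (w 0 = 0 ∧ Fin.tail w ∈ a) ∨ (w 0 = 1 ∧ Fin.tail w ∈ b)

theorem mem_glue_zero {d : ℕ} {a b : Finset (V d)} {v : V d} :
    (Fin.cons 0 v : V (d + 1)) ∈ glue a b ↔ v ∈ a := by
  simp [glue]

theorem mem_glue_one {d : ℕ} {a b : Finset (V d)} {v : V d} :
    (Fin.cons 1 v : V (d + 1)) ∈ glue a b ↔ v ∈ b := by
  simp [glue]

theorem sl_glue_zero {d : ℕ} (a b : Finset (V d)) : sl (glue a b) 0 = a := by
  ext v; rw [mem_sl, mem_glue_zero]

theorem sl_glue_one {d : ℕ} (a b : Finset (V d)) : sl (glue a b) 1 = b := by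
  ext v; rw [mem_sl, mem_glue_one]

theorem par_cons {d : ℕ} (e : ZMod 2) (v : V d) : par (Fin.cons e v : V (d + 1)) = e + par v := by
  unfold par
  rw [Fin.sum_univ_succ]
  simp

theorem cnt_sl {d : ℕ} (s : Finset (V (d + 1))) (p : ZMod 2) :
    cnt p s = cnt p (sl s 0) + cnt (p + 1) (sl s 1) := by
  have h := sum_slices s fun w => if par w = p then (1 : ℝ) else 0
  have h1 : ∀ (n : ℕ) (t : Finset (V n)) (q : ZMod 2),
      ∑ v ∈ t, (if par v = q then (1 : ℝ) else 0) = cnt q t := by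
    intro n t q
    unfold cnt
    rw [← Finset.sum_filter]
    simp
  have h2 : ∀ v : V d, (if par (Fin.cons 0 v : V (d + 1)) = p then (1 : ℝ) else 0) =
      if par v = p then (1 : ℝ) else 0 := by
    intro v
    rw [par_cons, zero_add]
  have h3 : ∀ v : V d, (if par (Fin.cons 1 v : V (d + 1)) = p then (1 : ℝ) else 0) =
      if par v = p + 1 then (1 : ℝ) else 0 := by
    intro v
    rw [par_cons]
    congr 1
    rcases zmod2_cases (par v) with h | h <;> rcases zmod2_cases p with h' | h' <;>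
      rw [h, h'] <;> decide
  simp only [h2, h3, h1] at h
  exact_mod_cast h

theorem ind_glue {d : ℕ} {a b : Finset (V d)} (ha : Ind a) (hb : Ind b) (hab : Disjoint a b) :
    Ind (glue a b) := by
  rw [Finset.disjoint_left] at hab
  intro w hw i
  obtain ⟨e, v, rfl⟩ := exists_cons w
  refine Fin.cases ?_ (fun j => ?_) i
  · rw [nb_zero_cons]
    rcases zmod2_cases e with rfl | rfl
    · rw [zero_add, mem_glue_one]
      rw [mem_glue_zero] at hw
      exact hab hw
    · rw [zmod2_add_self, mem_glue_zero]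
      rw [mem_glue_one] at hw
      exact fun h => hab h hw
  · rw [nb_succ_cons]
    rcases zmod2_cases e with rfl | rfl
    · rw [mem_glue_zero] at hw ⊢
      exact ha v hw j
    · rw [mem_glue_one] at hw ⊢
      exact hb v hw j

theorem Zx_succ_ge {d : ℕ} {l : ℝ} (hl : 0 < l) (x : ℝ)
    (P : Finset (Finset (V d) × Finset (V d)))
    (hP : ∀ a ∈ P, a.1 ∈ Om d ∧ a.2 ∈ Om d ∧ Disjoint a.1 a.2 ∧
      x < (cnt 0 a.1 : ℝ) + cnt 1 a.2 ∧ x < (cnt 1 a.1 : ℝ) + cnt 0 a.2) :
    ∑ a ∈ P, l ^ (a.1.card + a.2.card) ≤ Zx (d + 1) l x := by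
  classical
  have h1 : ∑ a ∈ P, l ^ (a.1.card + a.2.card) = ∑ a ∈ P, l ^ (glue a.1 a.2).card := by
    refine Finset.sum_congr rfl fun a _ => ?_
    rw [card_sl (glue a.1 a.2), sl_glue_zero, sl_glue_one]
  unfold Zx
  rw [h1, ← Finset.sum_image (s := P)
    (g := fun a : Finset (V d) × Finset (V d) => glue a.1 a.2) (f := fun s => l ^ s.card)]
  · refine Finset.sum_le_sum_of_subset_of_nonneg ?_ fun _ _ _ => by positivity
    intro s hs
    rw [Finset.mem_image] at hs
    obtain ⟨a, ha, rfl⟩ := hs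
    obtain ⟨h2, h3, h4, h5, h6⟩ := hP a ha
    rw [mem_Om] at h2 h3
    rw [mem_Bx]
    refine ⟨ind_glue h2 h3 h4, ?_, ?_⟩
    · rw [cnt_sl, sl_glue_zero, sl_glue_one, zero_add]
      push_cast
      exact h5
    · rw [cnt_sl, sl_glue_zero, sl_glue_one, zmod2_add_self]
      push_cast
      exact h6
  · intro a _ b _ hab
    simp only at hab
    refine Prod.ext ?_ ?_
    · rw [← sl_glue_zero a.1 a.2, hab, sl_glue_zero]
    · rw [← sl_glue_one a.1 a.2, hab, sl_glue_one]

end Pool.Agent.Lib.MP_c6118e_pr
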