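import Pool.Agent.Lib.MP_c6118e_pr.Basic

/-!
# TAL: Talagrand's isoperimetric inequality on the hypercube
-/

namespace Pool.Agent.Lib.MP_c6118e_pr

open Finset Real

namespace TAL

theorem nb_zero_cons {d : ℕ} (e : ZMod 2) (v : V d) :
    nb (0 : Fin (d + 1)) (Fin.cons e v : V (d + 1)) = (Fin.cons (e + 1) v : V (d + 1)) := by
  funext j
  refine Fin.cases ?_ (fun k => ?_) j
  · simp [nb]
  · simp [nb]

theorem nb_succ_cons {d : ℕ} (i : Fin d) (e : ZMod 2) (v : V d) :
    nb i.succ (Fin.cons e v : V (d + 1)) = (Fin.cons e (nb i v) : V (d + 1)) := by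
  funext j
  refine Fin.cases ?_ (fun k => ?_) j
  · simp [nb]
  · simp only [nb, Pi.add_apply, Fin.cons_succ]
    congr 1
    by_cases h : k = i
    · subst h; simp
    · rw [Pi.single_eq_of_ne h, Pi.single_eq_of_ne]
      intro h2
      exact h (Fin.succ_injective _ h2)

/-- number of boundary directions -/
def h {d : ℕ} (A : Finset (V d)) (v : V d) : ℕ := (univ.filter fun i => nb i v ∉ A).card

/-- the slice -/
def sl {d : ℕ} (A : Finset (V (d + 1))) (e : ZMod 2) : Finset (V d) :=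
  univ.filter fun v => (Fin.cons e v : V (d + 1)) ∈ A

theorem mem_sl {d : ℕ} {A : Finset (V (d + 1))} {e : ZMod 2} {v : V d} :
    v ∈ sl A e ↔ (Fin.cons e v : V (d + 1)) ∈ A := by simp [sl]

theorem sum_slices {d : ℕ} (A : Finset (V (d + 1))) (F : V (d + 1) → ℝ) :
    ∑ w ∈ A, F w = ∑ v ∈ sl A 0, F (Fin.cons 0 v : V (d + 1)) +
      ∑ v ∈ sl A 1, F (Fin.cons 1 v : V (d + 1)) := by
  have h1 : ∑ w ∈ A, F w = ∑ w : V (d + 1), if w ∈ A then F w else 0 := by
    rw [← Finset.sum_filter]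
    simp
  have h2 : ∀ e, ∑ v ∈ sl A e, F (Fin.cons e v : V (d + 1)) =
      ∑ v : V d, if (Fin.cons e v : V (d + 1)) ∈ A then F (Fin.cons e v : V (d + 1)) else 0 := by
    intro e
    unfold sl
    rw [Finset.sum_filter]
  rw [h1, h2, h2]
  have h3 : ∑ w : V (d + 1), (if w ∈ A then F w else 0) =
      ∑ p : ZMod 2 × V d, if (Fin.cons p.1 p.2 : V (d + 1)) ∈ A then
        F (Fin.cons p.1 p.2 : V (d + 1)) else 0 :=
    (Fintype.sum_equiv (Fin.consEquiv fun _ : Fin (d + 1) => ZMod 2) _ _ fun p => rfl).symm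
  rw [h3, Fintype.sum_prod_type]
  exact Fin.sum_univ_two _

theorem h_cons {d : ℕ} (A : Finset (V (d + 1))) (e : ZMod 2) (v : V d) :
    (h A (Fin.cons e v : V (d + 1)) : ℝ) =
      h (sl A e) v + (if v ∉ sl A (e + 1) then 1 else 0) := by
  unfold h
  rw [Fin.card_filter_univ_succ]
  simp only [nb_zero_cons, nb_succ_cons, mem_sl]
  split_ifs <;> push_cast <;> ring

/-- Minkowski -/
theorem mink {α : Type*} (S : Finset α) (f g : α → ℝ) (hf : ∀ a ∈ S, 0 ≤ f a) :
    √((∑ a ∈ S, √(f a)) ^ 2 + (∑ a ∈ S, g a) ^ 2) ≤ ∑ a ∈ S, √(f a + g a ^ 2) := by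
  have h1 : ∀ x y : ℝ, ‖(⟨x, y⟩ : ℂ)‖ = √(x ^ 2 + y ^ 2) := by
    intro x y
    rw [Complex.norm_def, Complex.normSq_apply]
    congr 1
    simp only
    ring
  have h2 := norm_sum_le S fun a => (⟨√(f a), g a⟩ : ℂ)
  have h3 : ∑ a ∈ S, (⟨√(f a), g a⟩ : ℂ) = ⟨∑ a ∈ S, √(f a), ∑ a ∈ S, g a⟩ := by
    apply Complex.ext
    · simp
    · simp
  rw [h3, h1] at h2
  refine h2.trans (le_of_eq (Finset.sum_congr rfl fun a ha => ?_))
  rw [h1, Real.sq_sqrt (hf a ha)]

/-- the inductive step for two slices -/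
theorem step {d : ℕ} (A B : Finset (V d)) (hAB : B.card ≤ A.card)
    (hA : (A.card : ℝ) * (2 ^ d - A.card) / 2 ^ d ≤ ∑ v ∈ A, √(h A v : ℝ))
    (hB : (B.card : ℝ) * (2 ^ d - B.card) / 2 ^ d ≤ ∑ v ∈ B, √(h B v : ℝ)) :
    ((A.card : ℝ) + B.card) * (2 ^ (d + 1) - (A.card + B.card)) / 2 ^ (d + 1) ≤
      ∑ v ∈ A, √((h A v : ℝ) + (if v ∉ B then 1 else 0)) +
      ∑ v ∈ B, √((h B v : ℝ) + (if v ∉ A then 1 else 0)) := by
  set N : ℝ := 2 ^ d with hN
  have hN0 : 0 < N := by positivity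
  set a : ℝ := (A.card : ℝ) with ha
  set b : ℝ := (B.card : ℝ) with hb
  have ha0 : 0 ≤ a := Nat.cast_nonneg _
  have hb0 : 0 ≤ b := Nat.cast_nonneg _
  have hba : b ≤ a := by rw [ha, hb]; exact_mod_cast hAB
  have haN : a ≤ N := by
    have h1 : A.card ≤ 2 ^ d := by
      rw [← card_V (d := d), ← Finset.card_univ]
      exact Finset.card_le_univ A
    rw [ha, hN]
    exact_mod_cast h1
  have h2 : ∑ v ∈ B, √(h B v : ℝ) ≤ ∑ v ∈ B, √((h B v : ℝ) + (if v ∉ A then 1 else 0)) := by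
    refine Finset.sum_le_sum fun v _ => Real.sqrt_le_sqrt ?_
    split_ifs <;> linarith
  have h3 := mink A (fun v => (h A v : ℝ)) (fun v => if v ∉ B then (1 : ℝ) else 0)
    (fun v _ => Nat.cast_nonneg _)
  have h4 : ∀ v, (if v ∉ B then (1 : ℝ) else 0) ^ 2 = if v ∉ B then (1 : ℝ) else 0 := by
    intro v
    split_ifs <;> norm_num
  simp only [h4] at h3
  set x : ℝ := ∑ v ∈ A, √(h A v : ℝ) with hx
  set m : ℝ := ∑ v ∈ A, (if v ∉ B then (1 : ℝ) else 0) with hm
  have hm1 : a - b ≤ m := by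
    have h5 : m = ((A.filter fun v => v ∉ B).card : ℝ) := by
      rw [hm, Finset.sum_ite, Finset.sum_const_zero, add_zero, Finset.sum_const, nsmul_eq_mul,
        mul_one]
    have h6 : A.card ≤ B.card + (A.filter fun v => v ∉ B).card := by
      have h7 : A ⊆ B ∪ A.filter fun v => v ∉ B := by
        intro v hv
        by_cases h8 : v ∈ B
        · exact Finset.mem_union_left _ h8
        · exact Finset.mem_union_right _ (Finset.mem_filter.2 ⟨hv, h8⟩)
      exact (Finset.card_le_card h7).trans (Finset.card_union_le _ _)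
    have h7 : a ≤ b + m := by
      rw [h5, ha, hb]
      exact_mod_cast h6
    linarith
  set x0 : ℝ := a * (N - a) / N with hx0
  have hx00 : 0 ≤ x0 := div_nonneg (mul_nonneg ha0 (by linarith)) hN0.le
  set δ : ℝ := a - b with hδ
  have hδ0 : 0 ≤ δ := by linarith
  have h5 : x0 + δ ^ 2 / (2 * N) ≤ √(x ^ 2 + m ^ 2) := by
    apply Real.le_sqrt_of_sq_le
    have h6 : x0 ^ 2 ≤ x ^ 2 := pow_le_pow_left₀ hx00 hA 2
    have h7 : δ ^ 2 ≤ m ^ 2 := pow_le_pow_left₀ hδ0 hm1 2
    have h8 : x0 ≤ N / 4 := by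
      rw [hx0, div_le_iff₀ hN0]
      nlinarith [sq_nonneg (N - 2 * a)]
    have h9 : δ ≤ N := by linarith
    have h10 : (x0 + δ ^ 2 / (2 * N)) ^ 2 = x0 ^ 2 + δ ^ 2 * (x0 / N + δ ^ 2 / (4 * N ^ 2)) := by
      field_simp
      ring
    have h11 : x0 / N + δ ^ 2 / (4 * N ^ 2) ≤ 1 := by
      have h12 : x0 / N ≤ 1 / 4 := by
        rw [div_le_iff₀ hN0]
        linarith
      have h13 : δ ^ 2 / (4 * N ^ 2) ≤ 1 / 4 := by
        rw [div_le_iff₀ (by positivity)]
        nlinarith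
      linarith
    rw [h10]
    nlinarith [sq_nonneg δ]
  have h6 : (a + b) * (2 ^ (d + 1) - (a + b)) / 2 ^ (d + 1) =
      x0 + δ ^ 2 / (2 * N) + b * (N - b) / N := by
    rw [pow_succ, ← hN, hx0, hδ]
    field_simp
    ring
  rw [h6]
  linarith

end TAL

open TAL in
/-- **TAL** (Talagrand's isoperimetric inequality) -/
theorem talagrand {d : ℕ} (A : Finset (V d)) :
    (A.card : ℝ) * (2 ^ d - A.card) / 2 ^ d
      ≤ ∑ v ∈ A, √((univ.filter fun i => nb i v ∉ A).card : ℝ) := by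
  induction d with
  | zero =>
    have h1 : (A.card : ℝ) * (2 ^ 0 - A.card) / 2 ^ 0 = 0 := by
      have h2 : A.card ≤ 1 := by
        have := Finset.card_le_univ A
        rwa [card_V] at this
      interval_cases h3 : A.card <;> norm_num
    rw [h1]
    exact Finset.sum_nonneg fun v _ => Real.sqrt_nonneg _
  | succ d ih =>
    have h1 : ∑ v ∈ A, √((univ.filter fun i => nb i v ∉ A).card : ℝ) =
        ∑ v ∈ sl A 0, √((h (sl A 0) v : ℝ) + (if v ∉ sl A 1 then 1 else 0)) +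
        ∑ v ∈ sl A 1, √((h (sl A 1) v : ℝ) + (if v ∉ sl A 0 then 1 else 0)) := by
      rw [sum_slices A fun w => √((univ.filter fun i => nb i w ∉ A).card : ℝ)]
      congr 1
      · refine Finset.sum_congr rfl fun v _ => ?_
        have := h_cons A 0 v
        rw [zero_add] at this
        rw [← this]
        rfl
      · refine Finset.sum_congr rfl fun v _ => ?_
        have := h_cons A 1 v
        rw [zmod2_add_self] at this
        rw [← this]
        rfl
    have h2 : (A.card : ℝ) = (sl A 0).card + (sl A 1).card := by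
      have := sum_slices A fun _ => (1 : ℝ)
      simpa using this
    rw [h1, h2]
    have ihA := ih (sl A 0)
    have ihB := ih (sl A 1)
    rcases le_total (sl A 1).card (sl A 0).card with hle | hle
    · exact step (sl A 0) (sl A 1) hle ihA ihB
    · have h3 := step (sl A 1) (sl A 0) hle ihB ihA
      rw [add_comm ((sl A 1).card : ℝ), add_comm (∑ v ∈ sl A 1, _)] at h3
      exact h3

end Pool.Agent.Lib.MP_c6118e_pr
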